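import Pool.Agent.Work.MP_0cd883_co.PlaneTop

/-!
The main case of the plane theorem.
-/

namespace Pool.Agent.Work.MP_0cd883_co.Plane

open Finset

/-- the final inequality between integers -/
theorem final_ineq {N d e c B : ℤ} (he : 0 < e) (hed : e ≤ d) (hde : d ≤ 2 * e)
    (h : 4 * (((d + e) * N - c) ^ 2 + e * ((d + e) * N - c)) + (c - 2 * e) * (c - 2 * d)
      ≤ 8 * (d * e) * B) :
    2 * N ^ 2 - 3 * N ≤ 5 * B := by
  have hd : 0 < d := by linarith
  have hpos : 0 < 8 * (d * e) := by positivity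
  have hid : 5 * (4 * (((d + e) * N - c) ^ 2 + e * ((d + e) * N - c))
      + (c - 2 * e) * (c - 2 * d)) - 8 * (d * e) * (2 * N ^ 2 - 3 * N)
      = (5 * c - 4 * N * (d + e) - 3 * e - d) ^ 2 + (2 * (d - e) * N - d - (d - e)) ^ 2
        + 3 * d ^ 2 + 2 * d * (d - e) - 10 * (d - e) ^ 2 := by ring
  have hk : 0 ≤ 3 * d ^ 2 + 2 * d * (d - e) - 10 * (d - e) ^ 2 := by
    have h1 : 0 ≤ (d - e) * (2 * e - d) := mul_nonneg (by linarith) (by linarith)
    nlinarith
  have hfin : 8 * (d * e) * (2 * N ^ 2 - 3 * N) ≤ 8 * (d * e) * (5 * B) := by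
    nlinarith [sq_nonneg (5 * c - 4 * N * (d + e) - 3 * e - d),
      sq_nonneg (2 * (d - e) * N - d - (d - e))]
  exact le_of_mul_le_mul_left hfin hpos

/-- missing points: above the line and below -/
theorem missing_split {N d e c : ℤ} {A : Finset (ℤ × ℤ)} (hle : ∀ v ∈ A, lev e d v ≤ c) :
    Top N d e c + ((zgrid N).filter fun v => v ∉ A ∧ lev e d v ≤ c).card
      ≤ ((zgrid N).filter fun v => v ∉ A).card := by
  classical
  unfold Top
  norm_cast
  rw [← card_union_of_disjoint]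
  · refine card_le_card (union_subset (fun v hv => ?_) fun v hv => ?_)
    · obtain ⟨a, b⟩ := mem_filter.1 hv
      refine mem_filter.2 ⟨a, fun hA => ?_⟩
      have := hle v hA
      unfold lev at this
      linarith
    · obtain ⟨a, b⟩ := mem_filter.1 hv
      exact mem_filter.2 ⟨a, b.1⟩
  · rw [disjoint_left]
    intro v hv hv'
    have a1 := (mem_filter.1 hv).2
    have a2 := (mem_filter.1 hv').2.2
    unfold lev at a2
    linarith

theorem lt_le_card (N e d c : ℤ) :
    (((zgrid N).filter fun v => 2 * lev e d v < c).card : ℤ) +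
        ((zgrid N).filter fun v => 2 * lev e d v ≤ c).card
      = 2 * ((zgrid N).filter fun v => 2 * lev e d v < c).card +
      ((zgrid N).filter fun v => 2 * lev e d v = c).card := by
  classical
  have h : ((zgrid N).filter fun v => 2 * lev e d v ≤ c).card
      = ((zgrid N).filter fun v => 2 * lev e d v < c).card
        + ((zgrid N).filter fun v => 2 * lev e d v = c).card := by
    rw [← card_union_of_disjoint]
    · congr 1
      ext v
      simp only [mem_union, mem_filter]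
      constructor
      · rintro ⟨a, b⟩
        rcases b.lt_or_eq with b | b
        · exact Or.inl ⟨a, b⟩
        · exact Or.inr ⟨a, b⟩
      · rintro (⟨a, b⟩ | ⟨a, b⟩)
        · exact ⟨a, b.le⟩
        · exact ⟨a, b.le⟩
    · rw [disjoint_left]
      intro v hv hv'
      have a1 := (mem_filter.1 hv).2
      have a2 := (mem_filter.1 hv').2
      linarith
  rw [h]
  push_cast
  ring

theorem case3_single {N p1 p2 : ℤ} {A : Finset (ℤ × ℤ)} (hsub : A ⊆ zgrid N)
    (hfree : ∀ u ∈ A, ∀ v ∈ A, u + v ∉ A) (hP : (p1, p2) ∈ A)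
    (hle : ∀ v ∈ A, lev p2 p1 v ≤ 2 * (p1 * p2)) (hed : p2 ≤ p1) (h4 : N ≤ 2 * p2) :
    2 * N ^ 2 - 3 * N ≤ 5 * (((zgrid N).filter fun v => v ∉ A).card : ℤ) := by
  classical
  obtain ⟨hp1, hp1N, hp2, hp2N⟩ := mem_zgrid.1 (hsub hP)
  simp only at hp1 hp1N hp2 hp2N
  obtain ⟨n, rfl⟩ : ∃ n : ℕ, N = n := ⟨N.toNat, by rw [Int.toNat_of_nonneg (by omega)]⟩
  have hch := chain_single hsub hfree hP
  have hms := missing_split (N := (n : ℤ)) hle
  have hlow := low_count (N := n) (e := p2) (d := p1) (c := 2 * (p1 * p2)) (p1 := p1) (p2 := p2)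
    (by linarith) (by linarith) hp1 hp1N hp2 hp2N (by ring) (by nlinarith) (by linarith [mul_comm p1 p2])
  have htop := top_main n (e := p2) (d := p1) (c := 2 * (p1 * p2)) (by linarith) (by linarith)
    (by nlinarith) (by nlinarith) (by nlinarith)
  rw [sum_wt, lt_le_card] at hlow
  refine final_ineq (e := p2) (d := p1) (c := 2 * (p1 * p2)) (by linarith) hed (by linarith) ?_
  have hch' : 2 * (((zgrid n).filter fun v => 2 * lev p2 p1 v < 2 * (p1 * p2)).card : ℤ) +
      ((zgrid n).filter fun v => 2 * lev p2 p1 v = 2 * (p1 * p2)).card ≤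
    2 * ((zgrid n).filter fun v => v ∉ A ∧ lev p2 p1 v ≤ 2 * (p1 * p2)).card := by
    exact_mod_cast hch
  have hpos : 0 < p1 * p2 := by positivity
  have e1 := mul_le_mul_of_nonneg_left hch' (by linarith : 0 ≤ 4 * (p1 * p2))
  have e2 := mul_le_mul_of_nonneg_left hms (by linarith : 0 ≤ 8 * (p1 * p2))
  nlinarith

/-- lower count, slope `-1` -/
theorem low_diag (n : ℕ) {s : ℤ} (hs2 : s ≤ 2 * n) (hs1 : 2 ≤ s) :
    (s - 2) ^ 2 - 1 ≤ 4 * ((((zgrid n).filter fun v => 2 * (v.1 + v.2) < s).card : ℤ)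
      + ((zgrid n).filter fun v => 2 * (v.1 + v.2) ≤ s).card) := by
  classical
  have hcol : ∑ x ∈ Icc (1 : ℤ) n, max (s - 1 - 2 * x) 0 ≤
      (((zgrid n).filter fun v => 2 * (v.1 + v.2) < s).card : ℤ)
      + ((zgrid n).filter fun v => 2 * (v.1 + v.2) ≤ s).card := by
    rw [card_cols, card_cols]
    push_cast
    rw [← sum_add_distrib]
    refine sum_le_sum fun x hx => ?_
    obtain ⟨hx1, hx2⟩ := mem_Icc.1 hx
    refine max_le ?_ (by positivity)
    have a1 : Icc 1 ((s - 2 * x - 1) / 2) ⊆ (Icc (1 : ℤ) n).filter fun y => 2 * (x + y) < s := by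
      intro y hy
      rw [mem_Icc] at hy
      rw [mem_filter, mem_Icc]
      omega
    have a2 : Icc 1 ((s - 2 * x) / 2) ⊆ (Icc (1 : ℤ) n).filter fun y => 2 * (x + y) ≤ s := by
      intro y hy
      rw [mem_Icc] at hy
      rw [mem_filter, mem_Icc]
      omega
    have b1 := card_le_card a1
    have b2 := card_le_card a2
    rw [Int.card_Icc] at b1 b2
    omega
  have ht := tele_down (by norm_num : (0 : ℤ) < 2) (s - 1) n
  rw [max_eq_left (by linarith), max_eq_right (by linarith),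
    ← sum_Icc n (fun y => max (s - 1 - 2 * y) 0)] at ht
  linarith

theorem case3_pair {N d e c p1 p2 : ℤ} {A : Finset (ℤ × ℤ)} (C : Contact N d e c p1 p2 A)
    (hle : ∀ v ∈ A, lev e d v ≤ c) (hed : e ≤ d) (h4 : d * N ≤ c) :
    2 * N ^ 2 - 3 * N ≤ 5 * (((zgrid N).filter fun v => v ∉ A).card : ℤ) := by
  classical
  obtain ⟨hp1, hp1N, hp2, hp2N⟩ := C.P_pos
  obtain ⟨hq1, hq1N, hq2, hq2N⟩ := C.Q_pos
  have hd := C.hd
  have he := C.he
  have hc := C.hc
  have h1 := C.h1
  have h2 := C.h2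
  obtain ⟨n, rfl⟩ : ∃ n : ℕ, N = n := ⟨N.toNat, by rw [Int.toNat_of_nonneg (by omega)]⟩
  obtain ⟨D, rfl⟩ : ∃ D : ℕ, d = D := ⟨d.toNat, by rw [Int.toNat_of_nonneg (by omega)]⟩
  have hn : (0 : ℤ) < n := by linarith
  have hde : (D : ℤ) ≤ 2 * e := by
    have e1 : e * (p1 + D) ≤ e * n := mul_le_mul_of_nonneg_left hq1N he.le
    have e2 : (D : ℤ) * n < (2 * e) * n := by linarith
    exact (lt_of_mul_lt_mul_right e2 hn.le).le
  have hW : c ≤ ((D : ℤ) + e) * n := by
    have e1 : e * p1 ≤ e * n := mul_le_mul_of_nonneg_left hp1N he.le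
    have e2 : (D : ℤ) * p2 ≤ D * n := mul_le_mul_of_nonneg_left hp2N hd.le
    linarith
  have h4e : e * n ≤ c := (mul_le_mul_of_nonneg_right hed hn.le).trans h4
  have hch := C.chain
  have hms := missing_split (N := (n : ℤ)) hle
  have hpos : 0 < (D : ℤ) * e := by positivity
  have hch' : 2 * (((zgrid n).filter fun v => 2 * lev e D v < c).card : ℤ) +
      ((zgrid n).filter fun v => 2 * lev e D v = c).card ≤
    2 * ((zgrid n).filter fun v => v ∉ A ∧ lev e D v ≤ c).card := by
    exact_mod_cast hch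
  rw [← lt_le_card] at hch'
  rcases hed.lt_or_eq with hlt | heq
  · have hlow := low_count_pair (N := n) he hed hp1 hq1N hq2 hp2N hc h1 h2
    have htop := top_gain n D he hlt h4e h4 hW hc.symm hp1 hq1N hp2N
    rw [sum_wt] at hlow
    refine final_ineq (e := e) (d := D) (c := c) he hed hde ?_
    have e1 := mul_le_mul_of_nonneg_left hch' (by linarith : 0 ≤ 4 * ((D : ℤ) * e))
    have e2 := mul_le_mul_of_nonneg_left hms (by linarith : 0 ≤ 8 * ((D : ℤ) * e))
    nlinarith
  · subst heq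
    obtain ⟨s, hs⟩ : ∃ s, s = p1 + p2 := ⟨_, rfl⟩
    have hcs : c = D * s := by rw [hs, ← hc]; ring
    have hs1 : 2 ≤ s := by linarith
    have hs2 : s ≤ 2 * n := by linarith
    have hlow := low_diag n hs2 hs1
    have hDs : (n : ℤ) ≤ s := by
      rw [hcs] at h4
      exact le_of_mul_le_mul_left h4 hd
    have hlt' : ((zgrid n).filter fun v => 2 * lev D D v < c)
        = (zgrid n).filter fun v => 2 * (v.1 + v.2) < s := by
      refine filter_congr fun v _ => ?_
      unfold lev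
      rw [hcs]
      have : 2 * ((D : ℤ) * v.1 + D * v.2) = D * (2 * (v.1 + v.2)) := by ring
      rw [this]
      exact ⟨fun h => lt_of_mul_lt_mul_left h hd.le, fun h => mul_lt_mul_of_pos_left h hd⟩
    have hle' : ((zgrid n).filter fun v => 2 * lev D D v ≤ c)
        = (zgrid n).filter fun v => 2 * (v.1 + v.2) ≤ s := by
      refine filter_congr fun v _ => ?_
      unfold lev
      rw [hcs]
      have : 2 * ((D : ℤ) * v.1 + D * v.2) = D * (2 * (v.1 + v.2)) := by ring
      rw [this]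
      exact ⟨fun h => le_of_mul_le_mul_left h hd, fun h => mul_le_mul_of_nonneg_left h hd.le⟩
    rw [hlt', hle'] at hch'
    have htop := top_main n (e := (D : ℤ)) (d := D) (c := c) hd hd h4e h4 hW
    have htop' : (2 * n - s) ^ 2 + (2 * n - s) ≤ 2 * Top n D D c := by
      have e1 : ((D : ℤ) + D) * n - c = D * (2 * n - s) := by rw [hcs]; ring
      rw [e1] at htop
      have e2 : (D : ℤ) ^ 2 * ((2 * n - s) ^ 2 + (2 * n - s)) ≤ (D : ℤ) ^ 2 * (2 * Top n D D c) := by
        nlinarith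
      exact le_of_mul_le_mul_left e2 (by positivity)
    have key : 4 * ((2 * n - s) ^ 2 + (2 * n - s)) + ((s - 2) ^ 2 - 1)
        ≤ 8 * (((zgrid (n : ℤ)).filter fun v => v ∉ A).card : ℤ) := by
      linarith
    have hid : 5 * (4 * ((2 * (n : ℤ) - s) ^ 2 + (2 * n - s)) + (s - 2) ^ 2)
        - 8 * (2 * (n : ℤ) ^ 2 - 3 * n) = (5 * s - 8 * n - 4) ^ 2 + 4 := by ring
    nlinarith [sq_nonneg (5 * s - 8 * (n : ℤ) - 4)]

end Pool.Agent.Work.MP_0cd883_co.Plane
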