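import Pool.Agent.Work.MP_0cd883_co.PlaneChain

/-!
The cases `c < d N` and `3 c ≤ 4 d e`: the points above the line and half a rectangle.
-/

set_option autoImplicit false

namespace Pool.Agent.Work.MP_0cd883_co.Plane

open Finset

variable {N d e c p1 p2 : ℤ} {A : Finset (ℤ × ℤ)}

/-- half of the rectangle below a point of a sum-free set is missing -/
theorem half_rect (hsub : A ⊆ zgrid N) (hfree : ∀ u ∈ A, ∀ v ∈ A, u + v ∉ A) {r1 r2 : ℤ}
    (hP : (r1, r2) ∈ A) :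
    (r1 - 1) * (r2 - 1) ≤ 2 * (#{v ∈ zgrid N | v ∉ A ∧ v.1 < r1 ∧ v.2 < r2} : ℤ) := by
  classical
  have hPz := mem_zgrid.1 (hsub hP)
  simp only at hPz
  set R : Finset (ℤ × ℤ) := Icc 1 (r1 - 1) ×ˢ Icc 1 (r2 - 1) with hR
  have hRcard : (R.card : ℤ) = (r1 - 1) * (r2 - 1) := by
    rw [hR, card_product, Int.card_Icc, Int.card_Icc]
    push_cast
    rw [Int.toNat_of_nonneg (by omega), Int.toNat_of_nonneg (by omega)]
    ring
  have hmemR : ∀ v : ℤ × ℤ, v ∈ R ↔ 1 ≤ v.1 ∧ v.1 ≤ r1 - 1 ∧ 1 ≤ v.2 ∧ v.2 ≤ r2 - 1 := by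
    intro v
    simp only [hR, mem_product, mem_Icc]
    tauto
  set B : Finset (ℤ × ℤ) := {v ∈ zgrid N | v ∉ A ∧ v.1 < r1 ∧ v.2 < r2} with hB
  have h1 : #(R.filter (· ∈ A)) ≤ #B := by
    refine card_le_card_of_injOn (fun v => (r1 - v.1, r2 - v.2)) ?_ ?_
    · intro v hv
      rw [mem_coe, mem_filter, hmemR] at hv
      rw [mem_coe, hB, mem_filter, mem_zgrid]
      simp only
      refine ⟨⟨by omega, by omega, by omega, by omega⟩, ?_, by omega, by omega⟩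
      intro h
      have := hfree v hv.2 _ h
      apply this
      have e1 : v + (r1 - v.1, r2 - v.2) = (r1, r2) := by
        ext <;> simp
      rw [e1]
      exact hP
    · intro u _ v _ h
      simp only [Prod.mk.injEq] at h
      exact Prod.ext (by omega) (by omega)
  have h2 : #(R.filter (¬ · ∈ A)) ≤ #B := by
    refine card_le_card ?_
    intro v hv
    rw [mem_filter, hmemR] at hv
    rw [hB, mem_filter, mem_zgrid]
    exact ⟨⟨by omega, by omega, by omega, by omega⟩, hv.2, by omega, by omega⟩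
  have h3 := card_filter_add_card_filter_not (s := R) (fun v => v ∈ A)
  rw [← hRcard]
  have : (R.card : ℤ) = (#(R.filter (· ∈ A)) : ℤ) + #(R.filter (¬ · ∈ A)) := by
    rw [← h3]; push_cast; rfl
  rw [this]
  have h1' : (#(R.filter (· ∈ A)) : ℤ) ≤ #B := by exact_mod_cast h1
  have h2' : (#(R.filter (¬ · ∈ A)) : ℤ) ≤ #B := by exact_mod_cast h2
  linarith

theorem zgrid_card (hN : 0 ≤ N) : ((zgrid N).card : ℤ) = N ^ 2 := by
  rw [zgrid, card_product, Int.card_Icc]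
  push_cast
  rw [Int.toNat_of_nonneg (by omega)]
  ring

/-- top and half a rectangle -/
theorem top_rect (hsub : A ⊆ zgrid N) (hfree : ∀ u ∈ A, ∀ v ∈ A, u + v ∉ A)
    (he : 0 < e) (hd : 0 < d) (hle : ∀ v ∈ A, lev e d v ≤ c) {r1 r2 : ℤ}
    (hP : (r1, r2) ∈ A) :
    2 * (N ^ 2 - (#{v ∈ zgrid N | lev e d v ≤ c} : ℤ)) + (r1 - 1) * (r2 - 1) ≤
      2 * (#{v ∈ zgrid N | v ∉ A} : ℤ) := by
  classical
  have hPz := mem_zgrid.1 (hsub hP)
  simp only at hPz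
  have hrect := half_rect hsub hfree hP
  have hdis : Disjoint ({v ∈ zgrid N | v ∉ A ∧ v.1 < r1 ∧ v.2 < r2} : Finset (ℤ × ℤ))
      {v ∈ zgrid N | ¬ lev e d v ≤ c} := by
    rw [Finset.disjoint_left]
    intro v h1 h2
    rw [mem_filter] at h1 h2
    apply h2.2
    have := hle _ hP
    unfold lev at this ⊢
    simp only at this
    have ha : e * v.1 ≤ e * r1 := mul_le_mul_of_nonneg_left h1.2.2.1.le he.le
    have hb : d * v.2 ≤ d * r2 := mul_le_mul_of_nonneg_left h1.2.2.2.le hd.le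
    linarith
  have hunion : ({v ∈ zgrid N | v ∉ A ∧ v.1 < r1 ∧ v.2 < r2} : Finset (ℤ × ℤ)) ∪
      {v ∈ zgrid N | ¬ lev e d v ≤ c} ⊆ {v ∈ zgrid N | v ∉ A} := by
    intro v hv
    rw [mem_union, mem_filter, mem_filter] at hv
    rw [mem_filter]
    rcases hv with h | h
    · exact ⟨h.1, h.2.1⟩
    · exact ⟨h.1, fun hA => h.2 (hle v hA)⟩
  have h1 := card_le_card hunion
  rw [card_union_of_disjoint hdis] at h1
  have h2 := card_filter_add_card_filter_not (s := zgrid N) (fun v => lev e d v ≤ c)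
  have h3 := zgrid_card (N := N) (by omega)
  have h1' : (#{v ∈ zgrid N | v ∉ A ∧ v.1 < r1 ∧ v.2 < r2} : ℤ) +
      #{v ∈ zgrid N | ¬ lev e d v ≤ c} ≤ #{v ∈ zgrid N | v ∉ A} := by exact_mod_cast h1
  have h2' : (#{v ∈ zgrid N | lev e d v ≤ c} : ℤ) + #{v ∈ zgrid N | ¬ lev e d v ≤ c} =
      (zgrid N).card := by exact_mod_cast h2
  rw [h3] at h2'
  linarith

/-- columns -/
theorem low_columns (N e d c : ℤ) :
    #{v ∈ zgrid N | lev e d v ≤ c} =
      ∑ x ∈ Icc 1 N, #{y ∈ Icc (1 : ℤ) N | e * x + d * y ≤ c} := by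
  classical
  rw [card_filter, zgrid, sum_product]
  refine sum_congr rfl fun x _ => ?_
  rw [card_filter]
  rfl

theorem floor_sum {M : ℕ} {K : ℤ} (he : 0 ≤ e) (hd : 0 < d) (hM : 1 ≤ M) (h : e * M ≤ d * K) :
    2 * ∑ k ∈ range M, (e * (k : ℤ)) / d ≤ (M - 1) * K := by
  have h1 : ∑ k ∈ range M, (e * (k : ℤ)) / d * d ≤ ∑ k ∈ range M, e * (k : ℤ) :=
    sum_le_sum fun k _ => Int.ediv_mul_le _ hd.ne'
  rw [← sum_mul, ← mul_sum] at h1
  have h2 : 2 * ∑ k ∈ range M, (k : ℤ) = M * (M - 1) := by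
    have := Finset.sum_range_id_mul_two M
    have h' : ((∑ k ∈ range M, k : ℕ) : ℤ) * 2 = M * (M - 1) := by
      have := congrArg (fun n : ℕ => (n : ℤ)) this
      push_cast [Nat.cast_sub hM] at this ⊢
      exact this
    push_cast at h'
    linarith
  have hM' : (0 : ℤ) ≤ M - 1 := by
    have : (1 : ℤ) ≤ M := by exact_mod_cast hM
    linarith
  have h3 : d * (2 * ∑ k ∈ range M, (e * (k : ℤ)) / d) ≤ d * ((M - 1) * K) := by
    calc d * (2 * ∑ k ∈ range M, (e * (k : ℤ)) / d)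
        = 2 * ((∑ k ∈ range M, (e * (k : ℤ)) / d) * d) := by ring
      _ ≤ 2 * (e * ∑ k ∈ range M, (k : ℤ)) := by linarith
      _ = (e * M) * (M - 1) := by rw [← mul_left_comm, h2]; ring
      _ ≤ (d * K) * (M - 1) := mul_le_mul_of_nonneg_right h hM'
      _ = d * ((M - 1) * K) := by ring
  exact le_of_mul_le_mul_left h3 hd

theorem sum_reflect_Icc (g : ℤ → ℤ) (a b : ℤ) :
    ∑ x ∈ Icc a b, g (b - x) = ∑ k ∈ range (b + 1 - a).toNat, g k := by
  refine sum_nbij' (fun x => (b - x).toNat) (fun k => b - (k : ℤ)) ?_ ?_ ?_ ?_ ?_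
  · intro x hx
    rw [mem_Icc] at hx
    rw [mem_range]
    omega
  · intro k hk
    rw [mem_range] at hk
    rw [mem_Icc]
    omega
  · intro x hx
    rw [mem_Icc] at hx
    omega
  · intro k hk
    omega
  · intro x hx
    rw [mem_Icc] at hx
    congr 1
    omega

/-- bound of a column to the left of the point `(q1, q2)` of the line -/
theorem col_left {q1 q2 x : ℤ} (hd : 0 < d) (he : 0 < e) (hc : e * q1 + d * q2 = c)
    (hq2 : 0 ≤ q2) (hx : x ≤ q1) :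
    (#{y ∈ Icc (1 : ℤ) N | e * x + d * y ≤ c} : ℤ) ≤ q2 + (e * (q1 - x)) / d := by
  have h0 : 0 ≤ (e * (q1 - x)) / d :=
    Int.ediv_nonneg (mul_nonneg he.le (by linarith)) hd.le
  have hsub : ({y ∈ Icc (1 : ℤ) N | e * x + d * y ≤ c} : Finset ℤ) ⊆
      Icc 1 (q2 + (e * (q1 - x)) / d) := by
    intro y hy
    rw [mem_filter, mem_Icc] at hy
    rw [mem_Icc]
    refine ⟨hy.1.1, ?_⟩
    have h1 : (y - q2) * d ≤ e * (q1 - x) := by rw [← hc] at hy; nlinarith [hy.2]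
    have h2 := (Int.le_ediv_iff_mul_le hd).2 h1
    linarith
  have h1 := card_le_card hsub
  rw [Int.card_Icc] at h1
  have h2 : (#{y ∈ Icc (1 : ℤ) N | e * x + d * y ≤ c} : ℤ) ≤
      ((q2 + (e * (q1 - x)) / d + 1 - 1).toNat : ℤ) := by exact_mod_cast h1
  rw [Int.toNat_of_nonneg (by linarith)] at h2
  linarith

/-- bound of a column to the right of the point `(q1, q2)` of the line -/
theorem col_right {q1 q2 x : ℤ} (hd : 0 < d) (he : 0 < e) (hc : e * q1 + d * q2 = c)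
    (hq2 : 1 ≤ q2) (hx : q1 < x) :
    (#{y ∈ Icc (1 : ℤ) N | e * x + d * y ≤ c} : ℤ) ≤ q2 - 1 := by
  have hsub : ({y ∈ Icc (1 : ℤ) N | e * x + d * y ≤ c} : Finset ℤ) ⊆ Icc 1 (q2 - 1) := by
    intro y hy
    rw [mem_filter, mem_Icc] at hy
    rw [mem_Icc]
    refine ⟨hy.1.1, ?_⟩
    have h1 : e * q1 < e * x := mul_lt_mul_of_pos_left hx he
    have h2 : d * y < d * q2 := by rw [← hc] at hy; linarith [hy.2]
    have h3 := lt_of_mul_lt_mul_left h2 hd.le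
    omega
  have h1 := card_le_card hsub
  rw [Int.card_Icc] at h1
  have h2 : (#{y ∈ Icc (1 : ℤ) N | e * x + d * y ≤ c} : ℤ) ≤ ((q2 - 1 + 1 - 1).toNat : ℤ) := by
    exact_mod_cast h1
  rw [Int.toNat_of_nonneg (by linarith)] at h2
  linarith

theorem col_trivial (hN : 0 ≤ N) (x : ℤ) :
    (#{y ∈ Icc (1 : ℤ) N | e * x + d * y ≤ c} : ℤ) ≤ N := by
  have h1 := card_filter_le (Icc (1 : ℤ) N) (fun y => e * x + d * y ≤ c)
  rw [Int.card_Icc] at h1
  have h2 : (#{y ∈ Icc (1 : ℤ) N | e * x + d * y ≤ c} : ℤ) ≤ ((N + 1 - 1).toNat : ℤ) := by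
    exact_mod_cast h1
  rw [Int.toNat_of_nonneg (by linarith)] at h2
  linarith

/-- splitting an interval -/
theorem sum_Icc_split (g : ℤ → ℤ) {a b m : ℤ} (h1 : a ≤ m + 1) (h2 : m ≤ b) :
    ∑ x ∈ Icc a b, g x = ∑ x ∈ Icc a m, g x + ∑ x ∈ Icc (m + 1) b, g x := by
  rw [← sum_union]
  · congr 1
    ext x
    simp only [mem_union, mem_Icc]
    omega
  · rw [Finset.disjoint_left]
    intro x hx hx'
    rw [mem_Icc] at hx hx'
    omega

/-- case `c < d N`, one point of the line to the right of its middle -/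
theorem case4_gen_strict {q1 q2 : ℤ} (hsub : A ⊆ zgrid N) (hfree : ∀ u ∈ A, ∀ v ∈ A, u + v ∉ A)
    (hd : 0 < d) (he : 0 < e) (hQ : (q1, q2) ∈ A)
    (hcq : e * q1 + d * q2 = c) (hle : ∀ v ∈ A, lev e d v ≤ c)
    (h2 : c ≤ 2 * (e * q1)) (h4 : c < d * N) :
    2 * N ^ 2 - 3 * N + 5 ≤ 5 * (#{v ∈ zgrid N | v ∉ A} : ℤ) := by
  classical
  have hQz := mem_zgrid.1 (hsub hQ)
  simp only at hQz
  have htop := top_rect hsub hfree he hd hle hQ
  -- the low part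
  have hlow : (#{v ∈ zgrid N | lev e d v ≤ c} : ℤ) ≤
      q1 * q2 + ∑ k ∈ range q1.toNat, (e * (k : ℤ)) / d + (N - q1) * (q2 - 1) := by
    rw [low_columns]
    push_cast
    rw [sum_Icc_split _ (m := q1) (by omega) (by omega)]
    have ha : ∑ x ∈ Icc 1 q1, (#{y ∈ Icc (1 : ℤ) N | e * x + d * y ≤ c} : ℤ) ≤
        ∑ x ∈ Icc 1 q1, (q2 + (e * (q1 - x)) / d) := by
      refine sum_le_sum fun x hx => ?_
      rw [mem_Icc] at hx
      exact col_left hd he hcq (by omega) hx.2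
    have hb : ∑ x ∈ Icc (q1 + 1) N, (#{y ∈ Icc (1 : ℤ) N | e * x + d * y ≤ c} : ℤ) ≤
        ∑ x ∈ Icc (q1 + 1) N, (q2 - 1) := by
      refine sum_le_sum fun x hx => ?_
      rw [mem_Icc] at hx
      exact col_right hd he hcq (by omega) (by omega)
    rw [sum_add_distrib, sum_const, Int.card_Icc, nsmul_eq_mul,
      sum_reflect_Icc (fun t => (e * t) / d), Int.toNat_of_nonneg (by omega)] at ha
    rw [sum_const, Int.card_Icc, nsmul_eq_mul, Int.toNat_of_nonneg (by omega)] at hb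
    have e1 : (q1 + 1 - 1).toNat = q1.toNat := by congr 1; ring
    rw [e1] at ha
    linarith
  have hM : ((q1.toNat : ℕ) : ℤ) = q1 := Int.toNat_of_nonneg (by omega)
  have hfl := floor_sum (e := e) (d := d) (M := q1.toNat) (K := N - q2) he.le hd (by omega) (by
    rw [hM]; rw [← hcq] at h4; nlinarith)
  rw [hM] at hfl
  -- 2 q2 < N
  have hq2N : 2 * q2 + 1 ≤ N := by
    have h5 : d * q2 ≤ e * q1 := by linarith
    have h6 : d * (2 * q2) < d * N := by linarith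
    have := lt_of_mul_lt_mul_left h6 hd.le
    omega
  have hfin : N ^ 2 - N + 2 ≤ 2 * (#{v ∈ zgrid N | v ∉ A} : ℤ) := by
    have hn : 0 ≤ (N - q1) * (N - 2 * q2 + 3) := mul_nonneg (by omega) (by omega)
    nlinarith
  nlinarith [hQz.1, hQz.2.1]

/-- case `c < d N`, one point of the line to the right of its middle -/
theorem case4_gen {q1 q2 : ℤ} (hsub : A ⊆ zgrid N) (hfree : ∀ u ∈ A, ∀ v ∈ A, u + v ∉ A)
    (hd : 0 < d) (he : 0 < e) (hQ : (q1, q2) ∈ A)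
    (hcq : e * q1 + d * q2 = c) (hle : ∀ v ∈ A, lev e d v ≤ c)
    (h2 : c ≤ 2 * (e * q1)) (h4 : c < d * N) :
    2 * N ^ 2 - 3 * N ≤ 5 * (#{v ∈ zgrid N | v ∉ A} : ℤ) := by
  have := case4_gen_strict hsub hfree hd he hQ hcq hle h2 h4
  linarith

/-- case `c < d N` -/
theorem case4_strict (hsub : A ⊆ zgrid N) (hfree : ∀ u ∈ A, ∀ v ∈ A, u + v ∉ A)
    (hd : 0 < d) (he : 0 < e) (hQ : (p1 + d, p2 - e) ∈ A)
    (hc : e * p1 + d * p2 = c) (hle : ∀ v ∈ A, lev e d v ≤ c)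
    (h2 : c < 2 * (e * (p1 + d))) (h4 : c < d * N) :
    2 * N ^ 2 - 3 * N + 5 ≤ 5 * (#{v ∈ zgrid N | v ∉ A} : ℤ) :=
  case4_gen_strict hsub hfree hd he hQ (by rw [← hc]; ring) hle h2.le h4

/-- case `c < d N` -/
theorem case4 (hsub : A ⊆ zgrid N) (hfree : ∀ u ∈ A, ∀ v ∈ A, u + v ∉ A)
    (hd : 0 < d) (he : 0 < e) (hQ : (p1 + d, p2 - e) ∈ A)
    (hc : e * p1 + d * p2 = c) (hle : ∀ v ∈ A, lev e d v ≤ c)
    (h2 : c < 2 * (e * (p1 + d))) (h4 : c < d * N) :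
    2 * N ^ 2 - 3 * N ≤ 5 * (#{v ∈ zgrid N | v ∉ A} : ℤ) :=
  case4_gen hsub hfree hd he hQ (by rw [← hc]; ring) hle h2.le h4

/-- case `3 c ≤ 4 d e`, `d q₂ ≤ e p₁` -/
theorem case5_aux (hsub : A ⊆ zgrid N) (hfree : ∀ u ∈ A, ∀ v ∈ A, u + v ∉ A)
    (hd : 0 < d) (he : 0 < e) (hP : (p1, p2) ∈ A) (hQ : (p1 + d, p2 - e) ∈ A)
    (hc : e * p1 + d * p2 = c) (hle : ∀ v ∈ A, lev e d v ≤ c)
    (h5 : 3 * c ≤ 4 * (d * e)) (hs : d * (p2 - e) ≤ e * p1) :
    2 * N ^ 2 - 3 * N + 5 ≤ 5 * (#{v ∈ zgrid N | v ∉ A} : ℤ) := by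
  classical
  have hPz := mem_zgrid.1 (hsub hP)
  have hQz := mem_zgrid.1 (hsub hQ)
  simp only at hPz hQz
  obtain ⟨q1, hq1⟩ : ∃ q1, q1 = p1 + d := ⟨_, rfl⟩
  obtain ⟨q2, hq2⟩ : ∃ q2, q2 = p2 - e := ⟨_, rfl⟩
  rw [← hq1, ← hq2] at hQ hQz
  rw [← hq2] at hs
  have hcq : e * q1 + d * q2 = c := by rw [hq1, hq2, ← hc]; ring
  have htop := top_rect hsub hfree he hd hle hP
  have hde : 3 * (e * p1 + d * q2) ≤ d * e := by
    have : c = e * p1 + d * q2 + d * e := by rw [← hcq, hq1]; ring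
    rw [this] at h5
    linarith
  -- 3 p1 ≤ d, 6 q2 ≤ e
  have hp1d : 3 * p1 ≤ d := by
    have h6 : 0 < d * q2 := mul_pos hd (by omega)
    have h7 : e * (3 * p1) ≤ e * d := by nlinarith
    exact le_of_mul_le_mul_left h7 he
  have hq2e : 6 * q2 ≤ e := by
    have h7 : d * (6 * q2) ≤ d * e := by linarith
    exact le_of_mul_le_mul_left h7 hd
  -- the low part
  have hlow : (#{v ∈ zgrid N | lev e d v ≤ c} : ℤ) ≤
      N * p1 + (N - p1) * q2 + ∑ k ∈ range d.toNat, (e * (k : ℤ)) / d := by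
    rw [low_columns]
    push_cast
    rw [sum_Icc_split _ (m := q1) (by omega) (by omega),
      sum_Icc_split _ (a := 1) (m := p1) (b := q1) (by omega) (by omega)]
    have ha : ∑ x ∈ Icc 1 p1, (#{y ∈ Icc (1 : ℤ) N | e * x + d * y ≤ c} : ℤ) ≤
        ∑ x ∈ Icc 1 p1, N :=
      sum_le_sum fun x _ => col_trivial (by omega) x
    have hb : ∑ x ∈ Icc (p1 + 1) q1, (#{y ∈ Icc (1 : ℤ) N | e * x + d * y ≤ c} : ℤ) ≤
        ∑ x ∈ Icc (p1 + 1) q1, (q2 + (e * (q1 - x)) / d) := by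
      refine sum_le_sum fun x hx => ?_
      rw [mem_Icc] at hx
      exact col_left hd he hcq (by omega) hx.2
    have hc' : ∑ x ∈ Icc (q1 + 1) N, (#{y ∈ Icc (1 : ℤ) N | e * x + d * y ≤ c} : ℤ) ≤
        ∑ x ∈ Icc (q1 + 1) N, q2 := by
      refine sum_le_sum fun x hx => ?_
      rw [mem_Icc] at hx
      have := col_right (N := N) hd he hcq (by omega) (show q1 < x by omega)
      linarith
    rw [sum_const, Int.card_Icc, nsmul_eq_mul, Int.toNat_of_nonneg (by omega)] at ha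
    rw [sum_add_distrib, sum_const, Int.card_Icc, nsmul_eq_mul,
      sum_reflect_Icc (fun t => (e * t) / d), Int.toNat_of_nonneg (by omega)] at hb
    rw [sum_const, Int.card_Icc, nsmul_eq_mul, Int.toNat_of_nonneg (by omega)] at hc'
    have e1 : (q1 + 1 - (p1 + 1)).toNat = d.toNat := by congr 1; omega
    rw [e1] at hb
    nlinarith
  have hM : ((d.toNat : ℕ) : ℤ) = d := Int.toNat_of_nonneg (by omega)
  have hfl := floor_sum (e := e) (d := d) (M := d.toNat) (K := e) he.le hd (by omega) (by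
    rw [hM]; linarith [mul_comm e d])
  rw [hM] at hfl
  have hL : 2 * (#{v ∈ zgrid N | lev e d v ≤ c} : ℤ) ≤ N ^ 2 + q2 * N + p1 * e - e := by
    have h8 : 0 ≤ (N - q2 - e) * (N - 2 * p1) := mul_nonneg (by omega) (by omega)
    have h9 : 0 ≤ e * (N - p1 - d) := mul_nonneg he.le (by omega)
    nlinarith
  have hfin : N ^ 2 - q2 * (N - p1 + 1) - p1 + 1 ≤ 2 * (#{v ∈ zgrid N | v ∉ A} : ℤ) := by
    have hp2 : p2 = q2 + e := by omega
    rw [hp2] at htop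
    nlinarith
  have h7 : 7 * q2 ≤ N := by omega
  have h8 : 0 ≤ (N - 7 * q2) * (N - p1 + 1) := mul_nonneg (by omega) (by omega)
  have h9 : 0 ≤ p1 * (N - 7) := mul_nonneg (by omega) (by omega)
  nlinarith

/-- case `3 c ≤ 4 d e` -/
theorem case5_strict (hsub : A ⊆ zgrid N) (hfree : ∀ u ∈ A, ∀ v ∈ A, u + v ∉ A)
    (hd : 0 < d) (he : 0 < e) (hP : (p1, p2) ∈ A) (hQ : (p1 + d, p2 - e) ∈ A)
    (hc : e * p1 + d * p2 = c) (hle : ∀ v ∈ A, lev e d v ≤ c)
    (h5 : 3 * c ≤ 4 * (d * e)) :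
    2 * N ^ 2 - 3 * N + 5 ≤ 5 * (#{v ∈ zgrid N | v ∉ A} : ℤ) := by
  classical
  rcases le_total (d * (p2 - e)) (e * p1) with hs | hs
  · exact case5_aux hsub hfree hd he hP hQ hc hle h5 hs
  · -- swap the coordinates
    set A' : Finset (ℤ × ℤ) := A.map (Equiv.prodComm ℤ ℤ).toEmbedding with hA'
    have hmem : ∀ v : ℤ × ℤ, v ∈ A' ↔ (v.2, v.1) ∈ A := by
      intro v
      rw [hA', mem_map]
      constructor
      · rintro ⟨u, hu, rfl⟩
        exact hu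
      · intro h
        exact ⟨(v.2, v.1), h, rfl⟩
    have hsub' : A' ⊆ zgrid N := by
      intro v hv
      have := mem_zgrid.1 (hsub ((hmem v).1 hv))
      simp only at this
      exact mem_zgrid.2 ⟨this.2.2.1, this.2.2.2, this.1, this.2.1⟩
    have hfree' : ∀ u ∈ A', ∀ v ∈ A', u + v ∉ A' := by
      intro u hu v hv h
      exact hfree _ ((hmem u).1 hu) _ ((hmem v).1 hv) ((hmem _).1 h)
    have hP' : (p2 - e, p1 + d) ∈ A' := (hmem _).2 hQ
    have hQ' : ((p2 - e) + e, (p1 + d) - d) ∈ A' := by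
      rw [hmem]
      simpa using hP
    have hle' : ∀ v ∈ A', lev d e v ≤ c := by
      intro v hv
      have := hle _ ((hmem v).1 hv)
      unfold lev at this ⊢
      simp only at this
      linarith
    have key := case5_aux (d := e) (e := d) (c := c) hsub' hfree' he hd hP' hQ'
      (by rw [← hc]; ring) hle' (by linarith [mul_comm d e]) (by
        have : e * (p1 + d - d) = e * p1 := by ring
        rw [this]; exact hs)
    have hcard : #{v ∈ zgrid N | v ∉ A'} = #{v ∈ zgrid N | v ∉ A} := by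
      refine card_bij (fun v _ => (v.2, v.1)) ?_ ?_ ?_
      · intro v hv
        rw [mem_filter, mem_zgrid] at hv ⊢
        exact ⟨⟨hv.1.2.2.1, hv.1.2.2.2, hv.1.1, hv.1.2.1⟩, fun h => hv.2 ((hmem v).2 h)⟩
      · intro u _ v _ h
        simp only [Prod.mk.injEq] at h
        exact Prod.ext h.2 h.1
      · intro v hv
        rw [mem_filter, mem_zgrid] at hv
        refine ⟨(v.2, v.1), ?_, rfl⟩
        rw [mem_filter, mem_zgrid]
        exact ⟨⟨hv.1.2.2.1, hv.1.2.2.2, hv.1.1, hv.1.2.1⟩, fun h => hv.2 ((hmem _).1 h)⟩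
    rw [hcard] at key
    exact key

/-- case `3 c ≤ 4 d e` -/
theorem case5 (hsub : A ⊆ zgrid N) (hfree : ∀ u ∈ A, ∀ v ∈ A, u + v ∉ A)
    (hd : 0 < d) (he : 0 < e) (hP : (p1, p2) ∈ A) (hQ : (p1 + d, p2 - e) ∈ A)
    (hc : e * p1 + d * p2 = c) (hle : ∀ v ∈ A, lev e d v ≤ c)
    (h5 : 3 * c ≤ 4 * (d * e)) :
    2 * N ^ 2 - 3 * N ≤ 5 * (#{v ∈ zgrid N | v ∉ A} : ℤ) := by
  have := case5_strict hsub hfree hd he hP hQ hc hle h5
  linarith

end Pool.Agent.Work.MP_0cd883_co.Plane
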