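import Mathlib

namespace Pool.Agent.Work.MP_0cd883_co.Plane

/-- real embedding of a lattice point -/
def toR (v : ℕ × ℕ) : ℝ × ℝ := ((v.1 : ℝ), (v.2 : ℝ))

/-- LINE EXISTENCE. -/
theorem line_exists (A : Finset (ℕ × ℕ)) (hA : A.Nonempty)
    (hpos : ∀ v ∈ A, 1 ≤ v.1 ∧ 1 ≤ v.2) :
    (∃ P ∈ A, ∀ v ∈ A, P.2 * v.1 + P.1 * v.2 ≤ 2 * P.1 * P.2) ∨
    (∃ P ∈ A, ∃ Q ∈ A, ∃ d e c : ℕ, 0 < d ∧ 0 < e ∧ Q.1 = P.1 + d ∧ P.2 = Q.2 + e ∧
      e * P.1 + d * P.2 = c ∧ (∀ v ∈ A, e * v.1 + d * v.2 ≤ c) ∧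
      2 * e * P.1 < c ∧ c < 2 * e * Q.1) := by
  classical
  set S : Set (ℝ × ℝ) := toR '' (A : Set (ℕ × ℕ)) with hS
  have hSfin : S.Finite := A.finite_toSet.image _
  have hK : IsCompact (convexHull ℝ S) := hSfin.isCompact_convexHull (𝕜 := ℝ)
  have hKne : (convexHull ℝ S).Nonempty := by
    obtain ⟨v, hv⟩ := hA
    exact ⟨toR v, subset_convexHull ℝ S ⟨v, hv, rfl⟩⟩
  have hcont : Continuous (fun p : ℝ × ℝ => p.1 * p.2) := continuous_fst.mul continuous_snd
  obtain ⟨M, hM, hmax⟩ := hK.exists_isMaxOn hKne hcont.continuousOn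
  have hmax' : ∀ p ∈ convexHull ℝ S, p.1 * p.2 ≤ M.1 * M.2 := fun p hp => hmax hp
  -- positivity
  have hposK : ∀ p ∈ convexHull ℝ S, 1 ≤ p.1 ∧ 1 ≤ p.2 := by
    have hconv : Convex ℝ {p : ℝ × ℝ | 1 ≤ p.1 ∧ 1 ≤ p.2} := by
      intro p hp q hq a b ha hb hab
      constructor
      · have : a * 1 + b * 1 ≤ a * p.1 + b * q.1 :=
          add_le_add (mul_le_mul_of_nonneg_left hp.1 ha) (mul_le_mul_of_nonneg_left hq.1 hb)
        simp only [Prod.fst_add, Prod.smul_fst, smul_eq_mul]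
        linarith
      · have : a * 1 + b * 1 ≤ a * p.2 + b * q.2 :=
          add_le_add (mul_le_mul_of_nonneg_left hp.2 ha) (mul_le_mul_of_nonneg_left hq.2 hb)
        simp only [Prod.snd_add, Prod.smul_snd, smul_eq_mul]
        linarith
    have hsub : S ⊆ {p : ℝ × ℝ | 1 ≤ p.1 ∧ 1 ≤ p.2} := by
      rintro _ ⟨v, hv, rfl⟩
      obtain ⟨h1, h2⟩ := hpos v hv
      exact ⟨by simpa [toR] using (Nat.one_le_cast (α := ℝ)).2 h1,
        by simpa [toR] using (Nat.one_le_cast (α := ℝ)).2 h2⟩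
    intro p hp
    exact convexHull_min hsub hconv hp
  have hMpos := hposK M hM
  -- tangency
  have htan : ∀ v ∈ A, M.2 * (v.1 : ℝ) + M.1 * (v.2 : ℝ) ≤ 2 * (M.1 * M.2) := by
    intro v hv
    by_contra hcon
    push Not at hcon
    set a : ℝ := (v.1 : ℝ) - M.1 with ha
    set b : ℝ := (v.2 : ℝ) - M.2 with hb
    have hδ : 0 < a * M.2 + b * M.1 := by
      have : a * M.2 + b * M.1 = M.2 * (v.1 : ℝ) + M.1 * (v.2 : ℝ) - 2 * (M.1 * M.2) := by
        rw [ha, hb]; ring
      linarith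
    set δ : ℝ := a * M.2 + b * M.1 with hδd
    -- choose t
    set t : ℝ := δ / (δ + |a * b| + 0) with ht
    have habs : 0 ≤ |a * b| := abs_nonneg _
    have hden : 0 < δ + |a * b| + 0 := by linarith
    have ht0 : 0 < t := div_pos hδ hden
    have ht1 : t ≤ 1 := by rw [ht, div_le_one hden]; linarith
    have hmem : M + (t / 2) • (toR v - M) ∈ convexHull ℝ S := by
      have hvS : toR v ∈ convexHull ℝ S := subset_convexHull ℝ S ⟨v, hv, rfl⟩
      exact (convex_convexHull ℝ S).add_smul_sub_mem hM hvS ⟨by linarith, by linarith⟩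
    have hle := hmax' _ hmem
    simp only [Prod.fst_add, Prod.snd_add, Prod.smul_fst, Prod.smul_snd, Prod.fst_sub,
      Prod.snd_sub, smul_eq_mul, toR] at hle
    rw [← ha, ← hb] at hle
    have h1 : (t / 2) * δ + (t / 2) ^ 2 * (a * b) ≤ 0 := by
      have : (M.1 + t / 2 * a) * (M.2 + t / 2 * b) =
        M.1 * M.2 + ((t / 2) * δ + (t / 2) ^ 2 * (a * b)) := by rw [hδd]; ring
      rw [this] at hle
      linarith
    have h2 : δ + (t / 2) * (a * b) ≤ 0 := by
      by_contra h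
      push Not at h
      have : 0 < (t / 2) * (δ + (t / 2) * (a * b)) := mul_pos (by linarith) h
      nlinarith
    have h3 : t * |a * b| < δ + δ * 0 + δ := by
      have : t * (δ + |a * b| + 0) = δ := by rw [ht]; field_simp
      have h4 : t * δ > 0 := mul_pos ht0 hδ
      nlinarith
    have h5 : -(|a * b|) ≤ a * b := neg_abs_le _
    have h6 : (t / 2) * (-(|a * b|)) ≤ (t / 2) * (a * b) := mul_le_mul_of_nonneg_left h5 (by linarith)
    nlinarith
  -- M as a convex combination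
  have hMc : ∃ w : (ℕ × ℕ) → ℝ, (∀ v ∈ A, 0 ≤ w v) ∧ ∑ v ∈ A, w v = 1 ∧
      ∑ v ∈ A, w v * (v.1 : ℝ) = M.1 ∧ ∑ v ∈ A, w v * (v.2 : ℝ) = M.2 := by
    have hinj : Function.Injective toR := by
      intro u v h
      simp only [toR, Prod.mk.injEq, Nat.cast_inj] at h
      exact Prod.ext h.1 h.2
    have hSeq : S = ((A.image toR : Finset (ℝ × ℝ)) : Set (ℝ × ℝ)) := by
      rw [hS, Finset.coe_image]
    rw [hSeq, Finset.mem_convexHull'] at hM
    obtain ⟨w, hw0, hw1, hw2⟩ := hM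
    refine ⟨fun v => w (toR v), ?_, ?_, ?_, ?_⟩
    · intro v hv
      exact hw0 _ (Finset.mem_image_of_mem _ hv)
    · rw [← hw1, Finset.sum_image (fun _ _ _ _ h => hinj h)]
    · have := congrArg Prod.fst hw2
      rw [Finset.sum_image (fun _ _ _ _ h => hinj h)] at this
      rw [← this, Prod.fst_sum]
      rfl
    · have := congrArg Prod.snd hw2
      rw [Finset.sum_image (fun _ _ _ _ h => hinj h)] at this
      rw [← this, Prod.snd_sum]
      rfl
  obtain ⟨w, hw0, hw1, hwx, hwy⟩ := hMc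
  -- contact
  have hcontact : ∀ v ∈ A, w v ≠ 0 → M.2 * (v.1 : ℝ) + M.1 * (v.2 : ℝ) = 2 * (M.1 * M.2) := by
    have hsum : ∑ v ∈ A, w v * (2 * (M.1 * M.2) - (M.2 * (v.1 : ℝ) + M.1 * (v.2 : ℝ))) = 0 := by
      have : ∑ v ∈ A, w v * (2 * (M.1 * M.2) - (M.2 * (v.1 : ℝ) + M.1 * (v.2 : ℝ))) =
          2 * (M.1 * M.2) * ∑ v ∈ A, w v - (M.2 * ∑ v ∈ A, w v * (v.1 : ℝ) +
            M.1 * ∑ v ∈ A, w v * (v.2 : ℝ)) := by
        rw [Finset.mul_sum, Finset.mul_sum, Finset.mul_sum, ← Finset.sum_add_distrib,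
          ← Finset.sum_sub_distrib]
        refine Finset.sum_congr rfl fun v _ => ?_
        ring
      rw [this, hw1, hwx, hwy]; ring
    intro v hv hne
    have h0 := (Finset.sum_eq_zero_iff_of_nonneg (fun u hu =>
      mul_nonneg (hw0 u hu) (by linarith [htan u hu]))).1 hsum v hv
    rcases mul_eq_zero.1 h0 with h | h
    · exact absurd h hne
    · linarith
  by_cases hMA : ∃ P ∈ A, toR P = M
  · left
    obtain ⟨P, hP, hPM⟩ := hMA
    refine ⟨P, hP, fun v hv => ?_⟩
    have h := htan v hv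
    rw [← hPM] at h
    simp only [toR] at h
    have h' : (P.2 : ℝ) * v.1 + P.1 * v.2 ≤ 2 * P.1 * P.2 := by linarith
    exact_mod_cast h'
  · right
    push Not at hMA
    -- contact point with x < M.1
    have hlow : ∃ P ∈ A, w P ≠ 0 ∧ (P.1 : ℝ) < M.1 := by
      by_contra hcon
      push Not at hcon
      have hs : ∑ v ∈ A, w v * ((v.1 : ℝ) - M.1) = 0 := by
        have : ∑ v ∈ A, w v * ((v.1 : ℝ) - M.1) =
          ∑ v ∈ A, w v * (v.1 : ℝ) - (∑ v ∈ A, w v) * M.1 := by
          rw [Finset.sum_mul, ← Finset.sum_sub_distrib]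
          exact Finset.sum_congr rfl fun v _ => by ring
        rw [this, hw1, hwx]; ring
      have hnn : ∀ v ∈ A, 0 ≤ w v * ((v.1 : ℝ) - M.1) := by
        intro v hv
        by_cases h : w v = 0
        · rw [h]; simp
        · exact mul_nonneg (hw0 v hv) (by linarith [hcon v hv h])
      have hz := (Finset.sum_eq_zero_iff_of_nonneg hnn).1 hs
      obtain ⟨v, hv, hwv⟩ : ∃ v ∈ A, w v ≠ 0 := by
        by_contra h
        push Not at h
        rw [Finset.sum_eq_zero h] at hw1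
        exact zero_ne_one hw1
      have hx : (v.1 : ℝ) = M.1 := by
        rcases mul_eq_zero.1 (hz v hv) with h | h
        · exact absurd h hwv
        · linarith
      have hc := hcontact v hv hwv
      rw [hx] at hc
      have hy : (v.2 : ℝ) = M.2 := by
        have : M.1 * ((v.2 : ℝ) - M.2) = 0 := by linarith
        rcases mul_eq_zero.1 this with h | h
        · linarith [hMpos.1]
        · linarith
      exact hMA v hv (Prod.ext hx hy)
    have hhigh : ∃ Q ∈ A, w Q ≠ 0 ∧ M.1 < (Q.1 : ℝ) := by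
      by_contra hcon
      push Not at hcon
      have hs : ∑ v ∈ A, w v * (M.1 - (v.1 : ℝ)) = 0 := by
        have : ∑ v ∈ A, w v * (M.1 - (v.1 : ℝ)) =
          (∑ v ∈ A, w v) * M.1 - ∑ v ∈ A, w v * (v.1 : ℝ) := by
          rw [Finset.sum_mul, ← Finset.sum_sub_distrib]
          exact Finset.sum_congr rfl fun v _ => by ring
        rw [this, hw1, hwx]; ring
      have hnn : ∀ v ∈ A, 0 ≤ w v * (M.1 - (v.1 : ℝ)) := by
        intro v hv
        by_cases h : w v = 0
        · rw [h]; simp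
        · exact mul_nonneg (hw0 v hv) (by linarith [hcon v hv h])
      have hz := (Finset.sum_eq_zero_iff_of_nonneg hnn).1 hs
      obtain ⟨v, hv, hwv⟩ : ∃ v ∈ A, w v ≠ 0 := by
        by_contra h
        push Not at h
        rw [Finset.sum_eq_zero h] at hw1
        exact zero_ne_one hw1
      have hx : (v.1 : ℝ) = M.1 := by
        rcases mul_eq_zero.1 (hz v hv) with h | h
        · exact absurd h hwv
        · linarith
      have hc := hcontact v hv hwv
      rw [hx] at hc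
      have hy : (v.2 : ℝ) = M.2 := by
        have : M.1 * ((v.2 : ℝ) - M.2) = 0 := by linarith
        rcases mul_eq_zero.1 this with h | h
        · linarith [hMpos.1]
        · linarith
      exact hMA v hv (Prod.ext hx hy)
    obtain ⟨P, hP, hwP, hPx⟩ := hlow
    obtain ⟨Q, hQ, hwQ, hQx⟩ := hhigh
    have hcP := hcontact P hP hwP
    have hcQ := hcontact Q hQ hwQ
    have hM1 : 0 < M.1 := by linarith [hMpos.1]
    have hM2 : 0 < M.2 := by linarith [hMpos.2]
    have hPQ1 : P.1 < Q.1 := by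
      have : (P.1 : ℝ) < Q.1 := by linarith
      exact_mod_cast this
    have hPQ2' : (Q.2 : ℝ) < P.2 := by
      have h1 : M.1 * ((P.2 : ℝ) - Q.2) = M.2 * ((Q.1 : ℝ) - P.1) := by linarith
      have h2 : 0 < M.2 * ((Q.1 : ℝ) - P.1) := mul_pos hM2 (by linarith)
      rw [← h1] at h2
      have := (mul_pos_iff_of_pos_left hM1).1 h2
      linarith
    have hPQ2 : Q.2 < P.2 := by exact_mod_cast hPQ2'
    obtain ⟨d, hd⟩ : ∃ d, Q.1 = P.1 + d := ⟨Q.1 - P.1, by omega⟩
    obtain ⟨e, he⟩ : ∃ e, P.2 = Q.2 + e := ⟨P.2 - Q.2, by omega⟩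
    have hd0 : 0 < d := by omega
    have he0 : 0 < e := by omega
    -- e * M.1 = d * M.2
    have hdR : (Q.1 : ℝ) = P.1 + d := by exact_mod_cast hd
    have heR : (P.2 : ℝ) = Q.2 + e := by exact_mod_cast he
    have hprop : (e : ℝ) * M.1 = d * M.2 := by
      have h1 : M.1 * ((P.2 : ℝ) - Q.2) = M.2 * ((Q.1 : ℝ) - P.1) := by linarith
      rw [hdR, heR] at h1
      linarith
    have hd0R : (0 : ℝ) < d := by exact_mod_cast hd0
    have he0R : (0 : ℝ) < e := by exact_mod_cast he0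
    -- scale : M.2 = e * M.1 / d
    have hscale : ∀ x y : ℝ, M.2 * x + M.1 * y = (M.1 / d) * (e * x + d * y) := by
      intro x y
      have : M.2 = e * M.1 / d := by field_simp; linarith
      rw [this]; field_simp
    have hlam : 0 < M.1 / d := div_pos hM1 hd0R
    have hc : (e : ℝ) * P.1 + d * P.2 = 2 * e * M.1 := by
      have h1 := hscale P.1 P.2
      rw [hcP] at h1
      have h2 : 2 * (M.1 * M.2) = (M.1 / d) * (2 * e * M.1) := by
        have : M.2 = e * M.1 / d := by field_simp; linarith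
        rw [this]; field_simp
      rw [h2] at h1
      exact (mul_left_cancel₀ hlam.ne' h1).symm
    refine ⟨P, hP, Q, hQ, d, e, e * P.1 + d * P.2, hd0, he0, hd, he, rfl, ?_, ?_, ?_⟩
    · intro v hv
      have h1 := htan v hv
      rw [hscale, ← hcP, hscale] at h1
      have h2 := le_of_mul_le_mul_left h1 hlam
      exact_mod_cast h2
    · have : (2 : ℝ) * e * P.1 < e * P.1 + d * P.2 := by
        rw [hc]
        have := mul_lt_mul_of_pos_left hPx (mul_pos (by norm_num : (0:ℝ) < 2) he0R)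
        linarith
      exact_mod_cast this
    · have : (e : ℝ) * P.1 + d * P.2 < 2 * e * Q.1 := by
        rw [hc]
        have := mul_lt_mul_of_pos_left hQx (mul_pos (by norm_num : (0:ℝ) < 2) he0R)
        linarith
      exact_mod_cast this

end Pool.Agent.Work.MP_0cd883_co.Plane
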