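import Mathlib

/-!
The slab `u ≤ x + y ≤ 2 u - 1`, `u = ⌈(4 N + 2) / 5⌉`, is a sum-free subset of `[N]²` with exactly
`⌊3 N (N + 1) / 5⌋` elements.
-/

set_option autoImplicit false

namespace Pool.Agent.Work.MP_0cd883_co.Plane

open Finset

/-- the grid `[N]²` -/
def grid (N : ℕ) : Finset (ℕ × ℕ) := Icc 1 N ×ˢ Icc 1 N

theorem card_grid (N : ℕ) : (grid N).card = N ^ 2 := by
  simp [grid, sq]

/-- the number of points of the grid with `x + y ≤ k` -/
theorem card_low (N k : ℕ) (hk : k ≤ N + 1) :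
    2 * ((grid N).filter fun v => v.1 + v.2 ≤ k).card = k * (k - 1) := by
  induction k with
  | zero =>
    simp only [zero_mul, mul_eq_zero, OfNat.ofNat_ne_zero, false_or, card_eq_zero]
    apply filter_false_of_mem
    intro v hv
    simp only [grid, mem_product, mem_Icc] at hv
    omega
  | succ k ih =>
    have h1 : (grid N).filter (fun v => v.1 + v.2 ≤ k + 1) =
        (grid N).filter (fun v => v.1 + v.2 ≤ k) ∪
          (Icc 1 k).image (fun x => (x, k + 1 - x)) := by
      ext ⟨x, y⟩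
      simp only [grid, mem_filter, mem_product, mem_Icc, mem_union, mem_image, Prod.mk.injEq]
      constructor
      · rintro ⟨h1, h2⟩
        by_cases h : x + y ≤ k
        · exact Or.inl ⟨h1, h⟩
        · exact Or.inr ⟨x, by omega, rfl, by omega⟩
      · rintro (⟨h1, h2⟩ | ⟨z, h1, rfl, rfl⟩)
        · exact ⟨h1, by omega⟩
        · exact ⟨by omega, by omega⟩
    have h2 : Disjoint ((grid N).filter (fun v => v.1 + v.2 ≤ k))
        ((Icc 1 k).image (fun x => (x, k + 1 - x))) := by
      rw [disjoint_left]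
      rintro ⟨x, y⟩ h3 h4
      simp only [mem_filter] at h3
      simp only [mem_image, mem_Icc, Prod.mk.injEq] at h4
      obtain ⟨z, h4, rfl, rfl⟩ := h4
      omega
    have h3 : ((Icc 1 k).image (fun x => (x, k + 1 - x))).card = k := by
      rw [card_image_of_injOn, Nat.card_Icc]
      · omega
      · intro a _ b _ h
        exact (Prod.mk.inj h).1
    rw [h1, card_union_of_disjoint h2, h3, mul_add, ih (by omega)]
    rcases k with _ | k
    · rfl
    · simp only [Nat.add_sub_cancel]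
      ring

/-- the number of points of the grid with `x + y ≥ 2 N + 2 - k` -/
theorem card_high (N k : ℕ) (hk : k ≤ N + 1) :
    2 * ((grid N).filter fun v => 2 * N + 2 ≤ v.1 + v.2 + k).card = k * (k - 1) := by
  rw [← card_low N k hk]
  congr 1
  apply card_bij' (fun v _ => (N + 1 - v.1, N + 1 - v.2)) (fun v _ => (N + 1 - v.1, N + 1 - v.2))
  · rintro ⟨x, y⟩ h
    simp only [grid, mem_filter, mem_product, mem_Icc] at h ⊢
    omega
  · rintro ⟨x, y⟩ h
    simp only [grid, mem_filter, mem_product, mem_Icc] at h ⊢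
    omega
  · rintro ⟨x, y⟩ h
    simp only [grid, mem_filter, mem_product, mem_Icc, Prod.mk.injEq] at h ⊢
    omega
  · rintro ⟨x, y⟩ h
    simp only [grid, mem_filter, mem_product, mem_Icc, Prod.mk.injEq] at h ⊢
    omega

/-- the slab -/
def slab (N : ℕ) : Finset (ℕ × ℕ) :=
  (grid N).filter fun v => (4 * N + 6) / 5 ≤ v.1 + v.2 ∧ v.1 + v.2 < 2 * ((4 * N + 6) / 5)

theorem slab_sub (N : ℕ) : slab N ⊆ grid N := filter_subset _ _

theorem slab_sumFree (N : ℕ) : ∀ x ∈ slab N, ∀ y ∈ slab N, x + y ∉ slab N := by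
  rintro ⟨a, b⟩ h1 ⟨c, d⟩ h2 h3
  simp only [slab, mem_filter, Prod.mk_add_mk] at h1 h2 h3
  omega

theorem card_slab (N : ℕ) : (slab N).card = 3 * N * (N + 1) / 5 := by
  set u := (4 * N + 6) / 5 with hu
  have hsplit : (slab N).card + ((grid N).filter fun v => v.1 + v.2 ≤ u - 1).card +
      ((grid N).filter fun v => 2 * N + 2 ≤ v.1 + v.2 + (2 * N + 2 - 2 * u)).card = N ^ 2 := by
    rw [← card_grid N]
    have h1 : (grid N).filter (fun v => ¬ (u ≤ v.1 + v.2 ∧ v.1 + v.2 < 2 * u)) =
        (grid N).filter (fun v => v.1 + v.2 ≤ u - 1) ∪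
          (grid N).filter (fun v => 2 * N + 2 ≤ v.1 + v.2 + (2 * N + 2 - 2 * u)) := by
      ext ⟨x, y⟩
      simp only [grid, mem_filter, mem_product, mem_Icc, mem_union]
      omega
    have h2 : Disjoint ((grid N).filter (fun v => v.1 + v.2 ≤ u - 1))
        ((grid N).filter (fun v => 2 * N + 2 ≤ v.1 + v.2 + (2 * N + 2 - 2 * u))) := by
      rw [disjoint_left]
      rintro ⟨x, y⟩ h3 h4
      simp only [grid, mem_filter, mem_product, mem_Icc] at h3 h4
      omega
    have h3 := card_filter_add_card_filter_not (s := grid N)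
      (fun v => u ≤ v.1 + v.2 ∧ v.1 + v.2 < 2 * u)
    rw [h1, card_union_of_disjoint h2] at h3
    rw [← h3, ← add_assoc]
    rfl
  have hlow := card_low N (u - 1) (by omega)
  have hhigh := card_high N (2 * N + 2 - 2 * u) (by omega)
  generalize ((grid N).filter fun v => v.1 + v.2 ≤ u - 1).card = a at hsplit hlow
  generalize ((grid N).filter fun v => 2 * N + 2 ≤ v.1 + v.2 + (2 * N + 2 - 2 * u)).card = b
    at hsplit hhigh
  generalize (slab N).card = s at hsplit
  have hsub : ∀ k : ℕ, k * (k - 1) + k = k * k := by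
    intro k
    rcases k with _ | k
    · rfl
    · rw [Nat.add_sub_cancel]; ring
  have hlow' : 2 * a + (u - 1) = (u - 1) * (u - 1) := by rw [hlow, hsub]
  have hhigh' : 2 * b + (2 * N + 2 - 2 * u) = (2 * N + 2 - 2 * u) * (2 * N + 2 - 2 * u) := by
    rw [hhigh, hsub]
  clear hlow hhigh hsub
  obtain ⟨m, r, hr, rfl⟩ : ∃ m r, r < 5 ∧ N = 5 * m + r :=
    ⟨N / 5, N % 5, Nat.mod_lt _ (by norm_num), by omega⟩
  obtain ⟨k, hk⟩ : ∃ k, k = u - 1 := ⟨_, rfl⟩
  obtain ⟨l, hl⟩ : ∃ l, l = 2 * (5 * m + r) + 2 - 2 * u := ⟨_, rfl⟩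
  rw [← hk] at hlow'
  rw [← hl] at hhigh'
  symm
  interval_cases r
  · have h1 : k = 4 * m := by omega
    have h2 : l = 2 * m := by omega
    subst h1 h2
    ring_nf at hlow' hhigh' hsplit ⊢
    generalize m ^ 2 = q at *
    omega
  · have h1 : k = 4 * m + 1 := by omega
    have h2 : l = 2 * m := by omega
    subst h1 h2
    ring_nf at hlow' hhigh' hsplit ⊢
    generalize m ^ 2 = q at *
    omega
  · have h1 : k = 4 * m + 1 := by omega
    have h2 : l = 2 * m + 2 := by omega
    subst h1 h2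
    ring_nf at hlow' hhigh' hsplit ⊢
    generalize m ^ 2 = q at *
    omega
  · have h1 : k = 4 * m + 2 := by omega
    have h2 : l = 2 * m + 2 := by omega
    subst h1 h2
    ring_nf at hlow' hhigh' hsplit ⊢
    generalize m ^ 2 = q at *
    omega
  · have h1 : k = 4 * m + 3 := by omega
    have h2 : l = 2 * m + 2 := by omega
    subst h1 h2
    ring_nf at hlow' hhigh' hsplit ⊢
    generalize m ^ 2 = q at *
    omega

/-- the slab is a sum-free subset of the grid with `⌊3 N (N + 1) / 5⌋` elements -/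
theorem exists_slab (N : ℕ) : ∃ A : Finset (ℕ × ℕ), A ⊆ grid N ∧
    (∀ x ∈ A, ∀ y ∈ A, x + y ∉ A) ∧ A.card = 3 * N * (N + 1) / 5 :=
  ⟨slab N, slab_sub N, slab_sumFree N, card_slab N⟩

end Pool.Agent.Work.MP_0cd883_co.Plane
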