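import Pool.Agent.Work.MP_0cd883_co.Defs
import Pool.Agent.Work.MP_0cd883_co.PlaneSlab
import Pool.Agent.Work.MP_0cd883_co.PlaneLine
import Pool.Agent.Work.MP_0cd883_co.PlaneHalf
import Pool.Agent.Work.MP_0cd883_co.PlaneCase3

/-!
Assembly: `s_2(N) = ⌊3 N (N + 1) / 5⌋`.
-/

set_option autoImplicit false

namespace Pool.Agent.Work.MP_0cd883_co.Plane

open Finset

section swap

variable {N : ℤ}

/-- the set with the coordinates exchanged -/
def sw (A : Finset (ℤ × ℤ)) : Finset (ℤ × ℤ) := A.map (Equiv.prodComm ℤ ℤ).toEmbedding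

theorem mem_sw {A : Finset (ℤ × ℤ)} {v : ℤ × ℤ} : v ∈ sw A ↔ (v.2, v.1) ∈ A := by
  rw [sw, mem_map]
  constructor
  · rintro ⟨u, hu, rfl⟩
    exact hu
  · intro h
    exact ⟨(v.2, v.1), h, rfl⟩

theorem sw_sub {A : Finset (ℤ × ℤ)} (hsub : A ⊆ zgrid N) : sw A ⊆ zgrid N := by
  intro v hv
  have := mem_zgrid.1 (hsub (mem_sw.1 hv))
  simp only at this
  exact mem_zgrid.2 ⟨this.2.2.1, this.2.2.2, this.1, this.2.1⟩

theorem sw_free {A : Finset (ℤ × ℤ)} (hfree : ∀ u ∈ A, ∀ v ∈ A, u + v ∉ A) :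
    ∀ u ∈ sw A, ∀ v ∈ sw A, u + v ∉ sw A := by
  intro u hu v hv h
  exact hfree _ (mem_sw.1 hu) _ (mem_sw.1 hv) (mem_sw.1 h)

theorem sw_le {A : Finset (ℤ × ℤ)} {e d c : ℤ} (hle : ∀ v ∈ A, lev e d v ≤ c) :
    ∀ v ∈ sw A, lev d e v ≤ c := by
  intro v hv
  have := hle _ (mem_sw.1 hv)
  unfold lev at this ⊢
  simp only at this
  linarith

open Classical in
theorem sw_missing (A : Finset (ℤ × ℤ)) :
    #{v ∈ zgrid N | v ∉ sw A} = #{v ∈ zgrid N | v ∉ A} := by
  refine card_bij (fun v _ => (v.2, v.1)) ?_ ?_ ?_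
  · intro v hv
    rw [mem_filter, mem_zgrid] at hv ⊢
    exact ⟨⟨hv.1.2.2.1, hv.1.2.2.2, hv.1.1, hv.1.2.1⟩, fun h => hv.2 (mem_sw.2 h)⟩
  · intro u _ v _ h
    simp only [Prod.mk.injEq] at h
    exact Prod.ext h.2 h.1
  · intro v hv
    rw [mem_filter, mem_zgrid] at hv
    refine ⟨(v.2, v.1), ?_, rfl⟩
    rw [mem_filter, mem_zgrid]
    exact ⟨⟨hv.1.2.2.1, hv.1.2.2.2, hv.1.1, hv.1.2.1⟩, fun h => hv.2 (mem_sw.1 h)⟩

end swap

section main

variable {N : ℤ}

open Classical in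
theorem single_of_le {p1 p2 : ℤ} {A : Finset (ℤ × ℤ)} (hsub : A ⊆ zgrid N)
    (hfree : ∀ u ∈ A, ∀ v ∈ A, u + v ∉ A) (hP : (p1, p2) ∈ A)
    (hle : ∀ v ∈ A, lev p2 p1 v ≤ 2 * (p1 * p2)) (hed : p2 ≤ p1) :
    2 * N ^ 2 - 3 * N ≤ 5 * (#{v ∈ zgrid N | v ∉ A} : ℤ) := by
  have hPz := mem_zgrid.1 (hsub hP)
  simp only at hPz
  by_cases h4 : N ≤ 2 * p2
  · convert case3_single hsub hfree hP hle hed h4
  · have h := case4_gen (d := p1) (e := p2) (c := 2 * (p1 * p2)) hsub hfree (by omega) (by omega)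
      hP (by ring) hle (by linarith [mul_comm p1 p2]) (by
        have : 2 * (p1 * p2) = p1 * (2 * p2) := by ring
        rw [this]
        exact mul_lt_mul_of_pos_left (by omega) (by omega))
    convert h

open Classical in
theorem single_case {p1 p2 : ℤ} {A : Finset (ℤ × ℤ)} (hsub : A ⊆ zgrid N)
    (hfree : ∀ u ∈ A, ∀ v ∈ A, u + v ∉ A) (hP : (p1, p2) ∈ A)
    (hle : ∀ v ∈ A, lev p2 p1 v ≤ 2 * (p1 * p2)) :
    2 * N ^ 2 - 3 * N ≤ 5 * (#{v ∈ zgrid N | v ∉ A} : ℤ) := by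
  rcases le_total p2 p1 with h | h
  · exact single_of_le hsub hfree hP hle h
  · have hP' : (p2, p1) ∈ sw A := mem_sw.2 hP
    have hle' : ∀ v ∈ sw A, lev p1 p2 v ≤ 2 * (p2 * p1) := by
      rw [mul_comm p2 p1]
      exact sw_le hle
    have := single_of_le (sw_sub hsub) (sw_free hfree) hP' hle' h
    rwa [sw_missing] at this

open Classical in
theorem pair_of_le {d e c p1 p2 : ℤ} {A : Finset (ℤ × ℤ)} (hsub : A ⊆ zgrid N)
    (hfree : ∀ u ∈ A, ∀ v ∈ A, u + v ∉ A) (hd : 0 < d) (he : 0 < e)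
    (hP : (p1, p2) ∈ A) (hQ : (p1 + d, p2 - e) ∈ A) (hc : e * p1 + d * p2 = c)
    (hle : ∀ v ∈ A, lev e d v ≤ c) (h1 : 2 * (e * p1) < c) (h2 : c < 2 * (e * (p1 + d)))
    (hed : e ≤ d) :
    2 * N ^ 2 - 3 * N ≤ 5 * (#{v ∈ zgrid N | v ∉ A} : ℤ) := by
  by_cases h4 : c < d * N
  · have := case4 hsub hfree hd he hQ hc hle h2 h4
    convert this
  by_cases h5 : 3 * c ≤ 4 * (d * e)
  · have := case5 hsub hfree hd he hP hQ hc hle h5
    convert this
  · have := case3_pair (N := N) (A := A) ⟨hsub, hfree, hd, he, hP, hQ, hc, h1, h2, by omega⟩ hle hed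
      (by omega)
    convert this

open Classical in
theorem pair_case {d e c p1 p2 : ℤ} {A : Finset (ℤ × ℤ)} (hsub : A ⊆ zgrid N)
    (hfree : ∀ u ∈ A, ∀ v ∈ A, u + v ∉ A) (hd : 0 < d) (he : 0 < e)
    (hP : (p1, p2) ∈ A) (hQ : (p1 + d, p2 - e) ∈ A) (hc : e * p1 + d * p2 = c)
    (hle : ∀ v ∈ A, lev e d v ≤ c) (h1 : 2 * (e * p1) < c) (h2 : c < 2 * (e * (p1 + d))) :
    2 * N ^ 2 - 3 * N ≤ 5 * (#{v ∈ zgrid N | v ∉ A} : ℤ) := by
  rcases le_total e d with h | h
  · exact pair_of_le hsub hfree hd he hP hQ hc hle h1 h2 h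
  · have hP' : (p2 - e, p1 + d) ∈ sw A := mem_sw.2 hQ
    have hQ' : ((p2 - e) + e, (p1 + d) - d) ∈ sw A := by
      rw [mem_sw]
      simpa using hP
    have := pair_of_le (N := N) (d := e) (e := d) (c := c) (sw_sub hsub) (sw_free hfree) he hd hP' hQ'
      (by rw [← hc]; ring) (sw_le hle) (by
        have e1 : 2 * (d * (p2 - e)) = 2 * (d * p2) - 2 * (d * e) := by ring
        have e2 : 2 * (e * (p1 + d)) = 2 * (e * p1) + 2 * (d * e) := by ring
        rw [e2] at h2
        rw [e1]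
        linarith) (by
        have e1 : 2 * (d * (p2 - e + e)) = 2 * (d * p2) := by ring
        rw [e1]
        linarith) h
    rwa [sw_missing] at this

open Classical in
/-- the number of missing points -/
theorem missing_ge {A : Finset (ℤ × ℤ)} (hsub : A ⊆ zgrid N)
    (hfree : ∀ u ∈ A, ∀ v ∈ A, u + v ∉ A) (hne : A.Nonempty) :
    2 * N ^ 2 - 3 * N ≤ 5 * (#{v ∈ zgrid N | v ∉ A} : ℤ) := by
  set A₀ : Finset (ℕ × ℕ) := A.image (fun v => (v.1.toNat, v.2.toNat)) with hA₀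
  have hcast : ∀ v ∈ A, ((v.1.toNat : ℕ) : ℤ) = v.1 ∧ ((v.2.toNat : ℕ) : ℤ) = v.2 := by
    intro v hv
    have := mem_zgrid.1 (hsub hv)
    exact ⟨Int.toNat_of_nonneg (by omega), Int.toNat_of_nonneg (by omega)⟩
  have hmem : ∀ v ∈ A, (v.1.toNat, v.2.toNat) ∈ A₀ := fun v hv =>
    mem_image_of_mem (fun v : ℤ × ℤ => (v.1.toNat, v.2.toNat)) hv
  have hmem' : ∀ w ∈ A₀, ((w.1 : ℤ), (w.2 : ℤ)) ∈ A := by
    intro w hw
    rw [hA₀, mem_image] at hw
    obtain ⟨v, hv, rfl⟩ := hw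
    obtain ⟨e1, e2⟩ := hcast v hv
    simp only
    rw [e1, e2]
    exact hv
  have hne' : A₀.Nonempty := hne.image _
  have hpos : ∀ w ∈ A₀, 1 ≤ w.1 ∧ 1 ≤ w.2 := by
    intro w hw
    have := mem_zgrid.1 (hsub (hmem' w hw))
    simp only at this
    omega
  rcases line_exists A₀ hne' hpos with ⟨P, hP, hle⟩ | ⟨P, hP, Q, hQ, d, e, c, hd, he, hx, hy, hc, hle, h1, h2⟩
  · refine single_case hsub hfree (hmem' P hP) ?_
    intro v hv
    obtain ⟨e1, e2⟩ := hcast v hv
    have h := hle _ (hmem v hv)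
    simp only at h
    have h' : (P.2 : ℤ) * (v.1.toNat : ℤ) + P.1 * (v.2.toNat : ℤ) ≤ 2 * P.1 * P.2 := by
      exact_mod_cast h
    rw [e1, e2] at h'
    unfold lev
    linarith
  · have hQ' : ((P.1 : ℤ) + d, (P.2 : ℤ) - e) ∈ A := by
      have := hmem' Q hQ
      have e1 : (Q.1 : ℤ) = P.1 + d := by exact_mod_cast hx
      have e2 : (Q.2 : ℤ) = P.2 - e := by
        have : (P.2 : ℤ) = Q.2 + e := by exact_mod_cast hy
        linarith
      rwa [e1, e2] at this
    refine pair_case (d := d) (e := e) (c := c) hsub hfree (by exact_mod_cast hd)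
      (by exact_mod_cast he) (hmem' P hP) hQ' (by exact_mod_cast hc) ?_ ?_ ?_
    · intro v hv
      obtain ⟨e1, e2⟩ := hcast v hv
      have h := hle _ (hmem v hv)
      simp only at h
      have h' : (e : ℤ) * (v.1.toNat : ℤ) + d * (v.2.toNat : ℤ) ≤ c := by exact_mod_cast h
      rw [e1, e2] at h'
      exact h'
    · have h' : 2 * (e : ℤ) * P.1 < c := by exact_mod_cast h1
      linarith
    · have h' : (c : ℤ) < 2 * e * Q.1 := by exact_mod_cast h2
      have e1 : (Q.1 : ℤ) = P.1 + d := by exact_mod_cast hx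
      rw [e1] at h'
      linarith

/-- a sum-free subset of `[N]²` has at most `3 N (N + 1) / 5` elements -/
theorem card_le {A : Finset (ℤ × ℤ)} (hN : 0 ≤ N) (hsub : A ⊆ zgrid N)
    (hfree : ∀ u ∈ A, ∀ v ∈ A, u + v ∉ A) : 5 * (A.card : ℤ) ≤ 3 * N * (N + 1) := by
  classical
  rcases A.eq_empty_or_nonempty with h | hne
  · rw [h]
    simp only [card_empty, Nat.cast_zero, mul_zero]
    positivity
  · have h1 := missing_ge hsub hfree hne
    have h2 := card_filter_add_card_filter_not (s := zgrid N) (fun v => v ∈ A)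
    have h3 : (zgrid N).filter (fun v => v ∈ A) = A := by
      ext v
      rw [mem_filter]
      exact ⟨fun h => h.2, fun h => ⟨hsub h, h⟩⟩
    rw [h3] at h2
    have h4 : (A.card : ℤ) + #{v ∈ zgrid N | v ∉ A} = N ^ 2 := by
      rw [← zgrid_card hN]
      exact_mod_cast h2
    linarith

end main

/-- `s_2(N) = ⌊3 N (N + 1) / 5⌋` -/
theorem maxSumFree_two (N : ℕ) : maxSumFree 2 N = 3 * N * (N + 1) / 5 := by
  classical
  apply le_antisymm
  · unfold maxSumFree
    refine Finset.sup_le fun A hA => ?_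
    rw [mem_filter, mem_powerset] at hA
    obtain ⟨hsub, hfree⟩ := hA
    set φ : (Fin 2 → ℕ) → ℤ × ℤ := fun x => ((x 0 : ℤ), (x 1 : ℤ)) with hφ
    have hinj : Function.Injective φ := by
      intro x y h
      simp only [hφ, Prod.mk.injEq, Nat.cast_inj] at h
      funext i
      fin_cases i
      · exact h.1
      · exact h.2
    have hsub' : A.image φ ⊆ zgrid N := by
      intro v hv
      rw [mem_image] at hv
      obtain ⟨x, hx, rfl⟩ := hv
      have h := hsub hx
      rw [MP_0cd883_co.grid, Fintype.mem_piFinset] at h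
      have h0 := mem_Icc.1 (h 0)
      have h1 := mem_Icc.1 (h 1)
      rw [mem_zgrid]
      simp only [hφ]
      omega
    have hfree' : ∀ u ∈ A.image φ, ∀ v ∈ A.image φ, u + v ∉ A.image φ := by
      intro u hu v hv h
      rw [mem_image] at hu hv h
      obtain ⟨x, hx, rfl⟩ := hu
      obtain ⟨y, hy, rfl⟩ := hv
      obtain ⟨z, hz, hxyz⟩ := h
      apply hfree x hx y hy z hz
      apply hinj
      rw [hxyz]
      simp only [hφ, Pi.add_apply, Nat.cast_add, Prod.mk_add_mk]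
    have h := card_le (N := (N : ℤ)) (by positivity) hsub' hfree'
    rw [card_image_of_injective _ hinj] at h
    rw [Nat.le_div_iff_mul_le (by norm_num)]
    have h' : 5 * A.card ≤ 3 * N * (N + 1) := by exact_mod_cast h
    linarith
  · set ψ : ℕ × ℕ → (Fin 2 → ℕ) := fun v => ![v.1, v.2] with hψ
    have hinj : Function.Injective ψ := by
      intro u v h
      have h0 := congrFun h 0
      have h1 := congrFun h 1
      simp only [hψ, Matrix.cons_val_zero, Matrix.cons_val_one] at h0 h1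
      exact Prod.ext h0 h1
    have hmem : (slab N).image ψ ∈ ((MP_0cd883_co.grid 2 N).powerset.filter fun A => SumFree A) := by
      rw [mem_filter, mem_powerset]
      constructor
      · intro x hx
        rw [mem_image] at hx
        obtain ⟨v, hv, rfl⟩ := hx
        have hv' := slab_sub N hv
        simp only [grid, mem_product, mem_Icc] at hv'
        rw [MP_0cd883_co.grid, Fintype.mem_piFinset]
        intro i
        rw [mem_Icc]
        fin_cases i
        · exact hv'.1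
        · exact hv'.2
      · intro x hx y hy z hz h
        rw [mem_image] at hx hy hz
        obtain ⟨u, hu, rfl⟩ := hx
        obtain ⟨v, hv, rfl⟩ := hy
        obtain ⟨w, hw, rfl⟩ := hz
        apply slab_sumFree N u hu v hv
        have : u + v = w := by
          apply hinj
          rw [← h]
          simp only [hψ, Prod.fst_add, Prod.snd_add]
          funext i
          fin_cases i <;> rfl
        rw [this]
        exact hw
    rw [← card_slab N, ← card_image_of_injective (slab N) hinj]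
    exact Finset.le_sup (f := Finset.card) hmem

end Pool.Agent.Work.MP_0cd883_co.Plane
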