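import Pool.Agent.Work.MP_0cd883_co.Disc

/-!
# The symmetric coupling and product weights
-/

namespace Pool.Agent.Work.MP_0cd883_co

open Finset

/-- Rotation of a triple. -/
def rot (m : ℕ) : TT m ≃ TT m where
  toFun τ := ⟨(τ.1.2.1, τ.1.2.2, τ.1.1), by have := τ.2; dsimp only; omega⟩
  invFun τ := ⟨(τ.1.2.2, τ.1.1, τ.1.2.1), by have := τ.2; dsimp only; omega⟩
  left_inv _ := rfl
  right_inv _ := rfl

/-- Existence of a coupling with three equal marginals. -/
theorem exists_coupling {L : ℝ} (hL : Opt L) {m : ℕ} (hm : 1 ≤ m) :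
    ∃ Q : TT m → ℝ, (∀ τ, 0 ≤ Q τ) ∧
      (∀ φ : Fin (m + 1) → ℝ, ∑ τ : TT m, Q τ * φ τ.1.1 = ∑ i : Fin (m + 1), FF L m i * φ i) ∧
      (∀ φ : Fin (m + 1) → ℝ, ∑ τ : TT m, Q τ * φ τ.1.2.1 = ∑ i : Fin (m + 1), FF L m i * φ i) ∧
      (∀ φ : Fin (m + 1) → ℝ, ∑ τ : TT m, Q τ * φ τ.1.2.2 = ∑ i : Fin (m + 1), FF L m i * φ i) := by
  classical
  obtain ⟨w, hw, hwF⟩ := exists_weights hL hm
  have hkey : ∀ φ : Fin (m + 1) → ℝ,
      ∑ τ : TT m, w τ * (φ τ.1.1 + φ τ.1.2.1 + φ τ.1.2.2) = ∑ i : Fin (m + 1), FF L m i * φ i := by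
    intro φ
    have h1 : ∀ i : Fin (m + 1), FF L m i * φ i = ∑ τ : TT m,
      w τ * ((if τ.1.1 = i then φ i else 0) + (if τ.1.2.1 = i then φ i else 0) +
        (if τ.1.2.2 = i then φ i else 0)) := by
      intro i
      rw [← hwF i, Finset.sum_mul]
      refine Finset.sum_congr rfl fun τ _ => ?_
      rw [mul_assoc, add_mul, add_mul, ite_mul, ite_mul, ite_mul]
      simp only [one_mul, zero_mul]
    simp only [h1]
    rw [Finset.sum_comm]
    refine Finset.sum_congr rfl fun τ _ => ?_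
    rw [← Finset.mul_sum, Finset.sum_add_distrib, Finset.sum_add_distrib]
    simp only [Finset.sum_ite_eq, Finset.mem_univ, if_true]
  have hr1 : ∀ f : TT m → ℝ, ∑ τ, f (rot m τ) = ∑ τ, f τ := fun f => (rot m).sum_comp f
  have hr2 : ∀ f : TT m → ℝ, ∑ τ, f (rot m (rot m τ)) = ∑ τ, f τ := fun f => by
    rw [hr1 fun τ => f (rot m τ), hr1]
  refine ⟨fun τ => w τ + w (rot m τ) + w (rot m (rot m τ)),
    fun τ => add_nonneg (add_nonneg (hw _) (hw _)) (hw _), fun φ => ?_, fun φ => ?_, fun φ => ?_⟩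
  · rw [← hkey φ]
    simp only [add_mul, mul_add, Finset.sum_add_distrib]
    have e1 := hr1 fun τ => w τ * φ τ.1.2.2
    have e2 := hr2 fun τ => w τ * φ τ.1.2.1
    change _ + ∑ τ : TT m, w (rot m τ) * φ (rot m τ).1.2.2 +
      ∑ τ : TT m, w (rot m (rot m τ)) * φ (rot m (rot m τ)).1.2.1 = _
    rw [e1, e2]
    ring
  · rw [← hkey φ]
    simp only [add_mul, mul_add, Finset.sum_add_distrib]
    have e1 := hr1 fun τ => w τ * φ τ.1.1
    have e2 := hr2 fun τ => w τ * φ τ.1.2.2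
    change _ + ∑ τ : TT m, w (rot m τ) * φ (rot m τ).1.1 +
      ∑ τ : TT m, w (rot m (rot m τ)) * φ (rot m (rot m τ)).1.2.2 = _
    rw [e1, e2]
    ring
  · rw [← hkey φ]
    simp only [add_mul, mul_add, Finset.sum_add_distrib]
    have e1 := hr1 fun τ => w τ * φ τ.1.2.1
    have e2 := hr2 fun τ => w τ * φ τ.1.1
    change _ + ∑ τ : TT m, w (rot m τ) * φ (rot m τ).1.2.1 +
      ∑ τ : TT m, w (rot m (rot m τ)) * φ (rot m (rot m τ)).1.1 = _
    rw [e1, e2]
    ring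

/-- Product marginals. -/
theorem prod_marginal {T I : Type*} [Fintype T] [Fintype I] [DecidableEq I] {d : ℕ}
    (Q : T → ℝ) (F : I → ℝ) (a : T → I)
    (h : ∀ φ : I → ℝ, ∑ τ, Q τ * φ (a τ) = ∑ i, F i * φ i) (Φ : (Fin d → I) → ℝ) :
    ∑ ω : Fin d → T, (∏ k, Q (ω k)) * Φ (fun k => a (ω k)) =
      ∑ i : Fin d → I, (∏ k, F (i k)) * Φ i := by
  classical
  have h1 : ∀ i : Fin d → I, ∏ k, F (i k) =
      ∑ ω : Fin d → T, ∏ k, (Q (ω k) * if a (ω k) = i k then 1 else 0) := by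
    intro i
    have h2 : ∀ k, F (i k) = ∑ τ, Q τ * (if a τ = i k then 1 else 0) := by
      intro k
      rw [h fun j => if j = i k then 1 else 0]
      simp
    simp only [h2]
    rw [Finset.prod_univ_sum, Fintype.piFinset_univ]
  simp only [h1, Finset.sum_mul]
  rw [Finset.sum_comm]
  refine Finset.sum_congr rfl fun ω _ => ?_
  rw [Finset.sum_eq_single fun k => a (ω k)]
  · simp
  · intro i _ hi
    obtain ⟨k, hk⟩ := Function.ne_iff.1 hi
    rw [Finset.prod_eq_zero (Finset.mem_univ k), zero_mul]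
    rw [if_neg (fun h => hk h.symm), mul_zero]
  · intro h
    exact absurd (Finset.mem_univ _) h

/-- total mass of a product weight -/
theorem prod_total {I : Type*} [Fintype I] [DecidableEq I] {d : ℕ} (F : I → ℝ) (f : I → ℝ) :
    ∑ i : Fin d → I, (∏ k, F (i k)) * ∏ k, f (i k) = (∑ i, F i * f i) ^ d := by
  rw [Finset.sum_congr rfl fun i _ => (Finset.prod_mul_distrib (f := fun k => F (i k))
    (g := fun k => f (i k)) (s := Finset.univ)).symm]
  have h1 := Finset.prod_univ_sum (fun _ : Fin d => (Finset.univ : Finset I))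
    (fun _ i => F i * f i)
  rw [Fintype.piFinset_univ] at h1
  rw [← h1]
  simp

end Pool.Agent.Work.MP_0cd883_co
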