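import Mathlib

/-!
Definitions for the statement: sum-free subsets of the grid `[N]^d`.
-/

namespace Pool.Agent.Work.MP_0cd883_co

/-- `A` is sum-free: no `x, y, z ∈ A` (not necessarily distinct) with `x + y = z`. -/
def SumFree {d : ℕ} (A : Finset (Fin d → ℕ)) : Prop :=
  ∀ x ∈ A, ∀ y ∈ A, ∀ z ∈ A, x + y ≠ z

/-- The grid `[N]^d`, `[N] = {1, …, N}`. -/
def grid (d N : ℕ) : Finset (Fin d → ℕ) := Fintype.piFinset fun _ => Finset.Icc 1 N

open Classical in
/-- `s_d(N)`, the maximum size of a sum-free subset of `[N]^d`. -/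
noncomputable def maxSumFree (d N : ℕ) : ℕ :=
  ((grid d N).powerset.filter fun A => SumFree A).sup Finset.card

end Pool.Agent.Work.MP_0cd883_co
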