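import Pool.Agent.Work.MP_0cd883_co.Expo

/-!
# Discretisation and existence of the coupling
-/

namespace Pool.Agent.Work.MP_0cd883_co

open MeasureTheory intervalIntegral Set

/-- The tent function. -/
noncomputable def tent (u : ℝ) : ℝ := max 0 (1 - |u|)

lemma tent_continuous : Continuous tent := by
  unfold tent
  fun_prop

lemma tent_nonneg (u : ℝ) : 0 ≤ tent u := le_max_left _ _

lemma tent_eq_zero {u : ℝ} (h : 1 ≤ |u|) : tent u = 0 := by
  unfold tent
  exact max_eq_left (by linarith)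

lemma tent_eq {u : ℝ} (h : |u| ≤ 1) : tent u = 1 - |u| := by
  unfold tent
  exact max_eq_right (by linarith)

lemma tent_neg (u : ℝ) : tent (-u) = tent u := by
  unfold tent
  rw [abs_neg]

lemma tent_int_half {u : ℝ} (hu : 0 ≤ u) : ∫ t in (0:ℝ)..u, tent t ≤ 1 / 2 := by
  have h1 : ∀ v, 0 ≤ v → v ≤ 1 → ∫ t in (0:ℝ)..v, tent t = v - v ^ 2 / 2 := by
    intro v h0 h1
    have h2 : ∫ t in (0:ℝ)..v, tent t = ∫ t in (0:ℝ)..v, (1 - t) := by
      apply intervalIntegral.integral_congr
      intro t ht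
      rw [Set.uIcc_of_le h0] at ht
      beta_reduce
      rw [tent_eq (by rw [abs_of_nonneg ht.1]; linarith [ht.2]), abs_of_nonneg ht.1]
    have i1 : IntervalIntegrable (fun _ : ℝ => (1:ℝ)) volume 0 v :=
      continuous_const.intervalIntegrable _ _
    have i2 : IntervalIntegrable (fun t : ℝ => t) volume 0 v :=
      continuous_id.intervalIntegrable _ _
    rw [h2, intervalIntegral.integral_sub i1 i2]
    simp
  rcases le_or_gt u 1 with h | h
  · rw [h1 u hu h]
    nlinarith [sq_nonneg (u - 1)]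
  · rw [← intervalIntegral.integral_add_adjacent_intervals
      (tent_continuous.intervalIntegrable 0 1) (tent_continuous.intervalIntegrable 1 u),
      h1 1 (by norm_num) le_rfl]
    have h2 : ∫ t in (1:ℝ)..u, tent t = 0 := by
      have h3 : ∫ t in (1:ℝ)..u, tent t = ∫ t in (1:ℝ)..u, (0:ℝ) := by
        apply intervalIntegral.integral_congr
        intro t ht
        rw [Set.uIcc_of_le h.le] at ht
        exact tent_eq_zero (ht.1.trans (le_abs_self t))
      rw [h3]
      simp
    rw [h2]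
    norm_num

lemma tent_int {a b : ℝ} (ha : a ≤ 0) (hb : 0 ≤ b) : ∫ t in a..b, tent t ≤ 1 := by
  rw [← intervalIntegral.integral_add_adjacent_intervals
    (tent_continuous.intervalIntegrable a 0) (tent_continuous.intervalIntegrable 0 b)]
  have h1 : ∫ t in a..0, tent t = ∫ t in (0:ℝ)..(-a), tent t := by
    have h2 := intervalIntegral.integral_comp_neg (a := a) (b := 0) tent
    simp only [tent_neg, neg_zero] at h2
    exact h2
  rw [h1]
  have h2 := tent_int_half hb
  have h3 := tent_int_half (by linarith : 0 ≤ -a)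
  linarith

/-- Linear interpolation of `g` on `{0, …, m}`. -/
noncomputable def interp (m : ℕ) (g : ℕ → ℝ) (s : ℝ) : ℝ :=
  ∑ i ∈ Finset.range (m + 1), g i * tent (s - i)

lemma interp_continuous (m : ℕ) (g : ℕ → ℝ) : Continuous (interp m g) := by
  unfold interp
  have := tent_continuous
  fun_prop

lemma interp_add {m n : ℕ} (g : ℕ → ℝ) (hn : n + 1 ≤ m) {α : ℝ} (h0 : 0 ≤ α) (h1 : α ≤ 1) :
    interp m g (n + α) = (1 - α) * g n + α * g (n + 1) := by
  unfold interp
  have hsub : ({n, n + 1} : Finset ℕ) ⊆ Finset.range (m + 1) := by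
    intro i hi
    simp only [Finset.mem_insert, Finset.mem_singleton] at hi
    rw [Finset.mem_range]
    omega
  rw [← Finset.sum_subset hsub, Finset.sum_pair (by omega)]
  · have e1 : ((n:ℝ) + α - n) = α := by ring
    have e2 : ((n:ℝ) + α - ((n + 1 : ℕ) : ℝ)) = -(1 - α) := by push_cast; ring
    rw [e1, e2, tent_neg, tent_eq (by rw [abs_of_nonneg h0]; exact h1),
      tent_eq (by rw [abs_of_nonneg (by linarith)]; linarith), abs_of_nonneg h0,
      abs_of_nonneg (by linarith : (0:ℝ) ≤ 1 - α)]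
    ring
  · intro i _ hi
    simp only [Finset.mem_insert, Finset.mem_singleton, not_or] at hi
    rw [tent_eq_zero, mul_zero]
    rcases lt_or_gt_of_ne hi.1 with h | h
    · have h2 : (i:ℝ) + 1 ≤ n := by exact_mod_cast h
      exact le_trans (by linarith) (le_abs_self _)
    · have h2 : (n:ℝ) + 2 ≤ i := by
        have : n + 2 ≤ i := by omega
        exact_mod_cast this
      exact le_trans (by linarith) (neg_le_abs _)

lemma interp_nat {m n : ℕ} (g : ℕ → ℝ) (hn : n ≤ m) : interp m g n = g n := by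
  unfold interp
  rw [Finset.sum_eq_single n]
  · simp [tent]
  · intro i _ hi
    rw [tent_eq_zero, mul_zero]
    rcases lt_or_gt_of_ne hi with h | h
    · have h2 : (i:ℝ) + 1 ≤ n := by exact_mod_cast h
      exact le_trans (by linarith) (le_abs_self _)
    · have h2 : (n:ℝ) + 1 ≤ i := by exact_mod_cast h
      exact le_trans (by linarith) (neg_le_abs _)
  · intro h
    exact absurd (Finset.mem_range.2 (Nat.lt_succ_of_le hn)) h

lemma interp_triple {m : ℕ} {g : ℕ → ℝ} (hg : ∀ a b c, a + b + c = m → 0 ≤ g a + g b + g c)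
    {x y w : ℝ} (hx : 0 ≤ x) (hy : 0 ≤ y) (hw : 0 ≤ w) (h : x + y + w = m) :
    0 ≤ interp m g x + interp m g y + interp m g w := by
  obtain ⟨i, α, hα0, hα1, rfl⟩ : ∃ (i : ℕ) (α : ℝ), 0 ≤ α ∧ α < 1 ∧ x = i + α :=
    ⟨⌊x⌋₊, x - ⌊x⌋₊, by linarith [Nat.floor_le hx], by linarith [Nat.lt_floor_add_one x], by ring⟩
  obtain ⟨j, β, hβ0, hβ1, rfl⟩ : ∃ (i : ℕ) (α : ℝ), 0 ≤ α ∧ α < 1 ∧ y = i + α :=
    ⟨⌊y⌋₊, y - ⌊y⌋₊, by linarith [Nat.floor_le hy], by linarith [Nat.lt_floor_add_one y], by ring⟩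
  obtain ⟨k, γ, hγ0, hγ1, rfl⟩ : ∃ (i : ℕ) (α : ℝ), 0 ≤ α ∧ α < 1 ∧ w = i + α :=
    ⟨⌊w⌋₊, w - ⌊w⌋₊, by linarith [Nat.floor_le hw], by linarith [Nat.lt_floor_add_one w], by ring⟩
  have h1 : i + j + k ≤ m := by
    have : ((i + j + k : ℕ) : ℝ) ≤ m := by push_cast; linarith
    exact_mod_cast this
  have h2 : m < i + j + k + 3 := by
    have : ((m : ℕ) : ℝ) < ((i + j + k + 3 : ℕ) : ℝ) := by push_cast; linarith
    exact_mod_cast this
  obtain ⟨r, hr, hr3⟩ : ∃ r, m = i + j + k + r ∧ r < 3 := ⟨m - (i + j + k), by omega, by omega⟩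
  have h3 : α + β + γ = r := by
    rw [hr] at h
    push_cast at h
    linarith
  interval_cases r
  · have hα : α = 0 := by push_cast at h3; linarith
    have hβ : β = 0 := by push_cast at h3; linarith
    have hγ : γ = 0 := by push_cast at h3; linarith
    rw [hα, hβ, hγ, add_zero, add_zero, add_zero, interp_nat g (by omega), interp_nat g (by omega),
      interp_nat g (by omega)]
    exact hg i j k (by omega)
  · rw [interp_add g (by omega) hα0 hα1.le, interp_add g (by omega) hβ0 hβ1.le,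
      interp_add g (by omega) hγ0 hγ1.le]
    have e1 := mul_nonneg hα0 (hg (i + 1) j k (by omega))
    have e2 := mul_nonneg hβ0 (hg i (j + 1) k (by omega))
    have e3 := mul_nonneg hγ0 (hg i j (k + 1) (by omega))
    have hγ : γ = 1 - α - β := by push_cast at h3; linarith
    rw [hγ] at e3 ⊢
    linarith
  · rw [interp_add g (by omega) hα0 hα1.le, interp_add g (by omega) hβ0 hβ1.le,
      interp_add g (by omega) hγ0 hγ1.le]
    have e1 := mul_nonneg (by linarith : 0 ≤ 1 - α) (hg i (j + 1) (k + 1) (by omega))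
    have e2 := mul_nonneg (by linarith : 0 ≤ 1 - β) (hg (i + 1) j (k + 1) (by omega))
    have e3 := mul_nonneg (by linarith : 0 ≤ 1 - γ) (hg (i + 1) (j + 1) k (by omega))
    have hγ : γ = 2 - α - β := by push_cast at h3; linarith
    rw [hγ] at e3 ⊢
    linarith

/-- normalising constant -/
noncomputable def nrm (L : ℝ) : ℝ := L / (1 - Real.exp (-L))

lemma nrm_pos {L : ℝ} (h : 0 < L) : 0 < nrm L := by
  have : Real.exp (-L) < 1 := Real.exp_lt_one_iff.2 (by linarith)
  exact div_pos h (by linarith)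

/-- Discretised truncated exponential law. -/
noncomputable def FF (L : ℝ) (m : ℕ) (i : ℕ) : ℝ :=
  ∫ t in (0:ℝ)..1, nrm L * Real.exp (-(L * t)) * tent (m * t - i)

lemma FF_cont (L : ℝ) (m i : ℕ) :
    Continuous fun t : ℝ => nrm L * Real.exp (-(L * t)) * tent (m * t - i) := by
  have := tent_continuous
  fun_prop

lemma FF_nonneg {L : ℝ} (hL : 0 < L) (m i : ℕ) : 0 ≤ FF L m i := by
  unfold FF
  apply intervalIntegral.integral_nonneg (by norm_num)
  intro t _
  exact mul_nonneg (mul_nonneg (nrm_pos hL).le (Real.exp_pos _).le) (tent_nonneg _)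

lemma FF_sum_mul (L : ℝ) (m : ℕ) (g : ℕ → ℝ) :
    ∑ i ∈ Finset.range (m + 1), FF L m i * g i =
      nrm L * ∫ t in (0:ℝ)..1, Real.exp (-(L * t)) * interp m g (m * t) := by
  unfold FF interp
  have h1 : ∀ i ∈ Finset.range (m + 1),
      (∫ t in (0:ℝ)..1, nrm L * Real.exp (-(L * t)) * tent (m * t - i)) * g i =
      ∫ t in (0:ℝ)..1, nrm L * Real.exp (-(L * t)) * tent (m * t - i) * g i := by
    intro i _
    rw [intervalIntegral.integral_mul_const]
  rw [Finset.sum_congr rfl h1, ← intervalIntegral.integral_finsetSum,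
    ← intervalIntegral.integral_const_mul]
  · congr 1
    ext t
    rw [Finset.mul_sum, Finset.mul_sum]
    refine Finset.sum_congr rfl fun i _ => ?_
    ring
  · intro i _
    exact ((FF_cont L m i).mul continuous_const).intervalIntegrable _ _

lemma FF_sum {L : ℝ} (hL : 0 < L) {m : ℕ} (hm : 1 ≤ m) :
    ∑ i ∈ Finset.range (m + 1), FF L m i = 1 := by
  have h0 := FF_sum_mul L m (fun _ => 1)
  simp only [mul_one] at h0
  rw [h0]
  have h1 : ∫ t in (0:ℝ)..1, Real.exp (-(L * t)) * interp m (fun _ => 1) (m * t) =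
      ∫ t in (0:ℝ)..1, Real.exp (-(L * t)) := by
    apply intervalIntegral.integral_congr
    intro t ht
    rw [Set.uIcc_of_le (by norm_num)] at ht
    beta_reduce
    have hmt : 0 ≤ (m:ℝ) * t := mul_nonneg (Nat.cast_nonneg _) ht.1
    have hmt1 : (m:ℝ) * t ≤ m := by
      calc (m:ℝ) * t ≤ m * 1 := by gcongr; exact ht.2
        _ = m := mul_one _
    have h2 : interp m (fun _ => 1) (m * t) = 1 := by
      have h3 := Nat.floor_le hmt
      have h4 := Nat.lt_floor_add_one ((m:ℝ) * t)
      have h5 : ⌊(m:ℝ) * t⌋₊ ≤ m := by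
        have := Nat.floor_le_floor hmt1
        rwa [Nat.floor_natCast] at this
      rcases h5.lt_or_eq with h6 | h6
      · have e : (m:ℝ) * t = (⌊(m:ℝ) * t⌋₊ : ℝ) + ((m:ℝ) * t - ⌊(m:ℝ) * t⌋₊) := by ring
        rw [e, interp_add _ h6 (by linarith) (by linarith)]
        ring
      · have e : (m:ℝ) * t = (m:ℝ) := by
          rw [h6] at h3
          linarith
        rw [e, interp_nat _ le_rfl]
    rw [h2, mul_one]
  have h2 : ∫ t in (0:ℝ)..1, Real.exp (-(L * t)) = (1 - Real.exp (-L)) / L := by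
    have h3 : ∀ t ∈ Set.uIcc (0:ℝ) 1, HasDerivAt (fun t : ℝ => -1 / L * Real.exp (-(L * t)))
        (Real.exp (-(L * t))) t := by
      intro t _
      have h4 := (hasDerivAt_exp_neg L t).const_mul (-1 / L)
      have h5 : -1 / L * (-L * Real.exp (-(L * t))) = Real.exp (-(L * t)) := by
        field_simp
      rw [h5] at h4
      exact h4
    rw [intervalIntegral.integral_eq_sub_of_hasDerivAt h3
      ((by fun_prop : Continuous fun t : ℝ => Real.exp (-(L * t))).intervalIntegrable _ _)]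
    simp
    field_simp
    ring
  rw [h1, h2, nrm]
  have : Real.exp (-L) < 1 := Real.exp_lt_one_iff.2 (by linarith)
  have h6 : 1 - Real.exp (-L) ≠ 0 := by linarith
  field_simp

lemma FF_le {L : ℝ} (hL : 0 < L) {m : ℕ} (hm : 1 ≤ m) {i : ℕ} (hi : i ≤ m) :
    FF L m i ≤ nrm L / m * Real.exp (L / m) * Real.exp (-(L * (i / m))) := by
  have hm0 : (0:ℝ) < m := by exact_mod_cast hm
  have hn := nrm_pos hL
  have h1 : FF L m i ≤ ∫ t in (0:ℝ)..1,
      nrm L * (Real.exp (L / m) * Real.exp (-(L * (i / m)))) * tent (m * t - i) := by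
    unfold FF
    apply intervalIntegral.integral_mono_on (by norm_num)
      ((FF_cont L m i).intervalIntegrable _ _)
    · have := tent_continuous
      exact (by fun_prop : Continuous fun t : ℝ =>
        nrm L * (Real.exp (L / m) * Real.exp (-(L * (i / m)))) *
          tent (m * t - i)).intervalIntegrable _ _
    · intro t ht
      rcases le_or_gt 1 |(m:ℝ) * t - i| with h | h
      · rw [tent_eq_zero h, mul_zero, mul_zero]
      · apply mul_le_mul_of_nonneg_right _ (tent_nonneg _)
        apply mul_le_mul_of_nonneg_left _ hn.le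
        rw [← Real.exp_add]
        apply Real.exp_le_exp.2
        have h2 : (i:ℝ) - 1 < m * t := by linarith [(abs_lt.1 h).1]
        have h3 : ((i:ℝ) - 1) / m ≤ t := by
          rw [div_le_iff₀ hm0]
          linarith
        have h4 : L * (((i:ℝ) - 1) / m) ≤ L * t := by gcongr
        have h5 : L * (((i:ℝ) - 1) / m) = L * (i / m) - L / m := by ring
        linarith
  refine h1.trans ?_
  rw [intervalIntegral.integral_const_mul]
  have h2 : ∫ t in (0:ℝ)..1, tent (m * t - i) ≤ 1 / m := by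
    rw [intervalIntegral.integral_comp_mul_sub tent hm0.ne']
    simp only [mul_zero, zero_sub, mul_one, smul_eq_mul]
    rw [one_div]
    have h3 : ∫ t in (-(i:ℝ))..((m:ℝ) - i), tent t ≤ 1 :=
      tent_int (by simp) (by
        have : (i:ℝ) ≤ m := by exact_mod_cast hi
        linarith)
    calc (m:ℝ)⁻¹ * ∫ t in (-(i:ℝ))..((m:ℝ) - i), tent t ≤ (m:ℝ)⁻¹ * 1 := by gcongr
      _ = (m:ℝ)⁻¹ := mul_one _
  calc nrm L * (Real.exp (L / m) * Real.exp (-(L * (i / m)))) *
        ∫ t in (0:ℝ)..1, tent (m * t - i)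
      ≤ nrm L * (Real.exp (L / m) * Real.exp (-(L * (i / m)))) * (1 / m) := by gcongr
    _ = nrm L / m * Real.exp (L / m) * Real.exp (-(L * (i / m))) := by ring

/-- positivity of the law against the triple cone -/
theorem FF_pos {L : ℝ} (hL : Opt L) {m : ℕ} {g : ℕ → ℝ}
    (hg : ∀ a b c, a + b + c = m → 0 ≤ g a + g b + g c) :
    0 ≤ ∑ i ∈ Finset.range (m + 1), FF L m i * g i := by
  rw [FF_sum_mul]
  apply mul_nonneg (nrm_pos hL.1).le
  apply exp_int_nonneg hL
  · exact (interp_continuous m g).comp (continuous_const.mul continuous_id)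
  · intro a b c ha hb hc habc
    have hm : (0:ℝ) ≤ m := Nat.cast_nonneg _
    apply interp_triple hg (mul_nonneg hm ha) (mul_nonneg hm hb) (mul_nonneg hm hc)
    rw [← mul_add, ← mul_add, habc, mul_one]

/-- Triples of `{0, …, m}` with sum `m`. -/
abbrev TT (m : ℕ) : Type :=
  {p : Fin (m + 1) × Fin (m + 1) × Fin (m + 1) // (p.1 : ℕ) + p.2.1 + p.2.2 = m}

/-- **Existence of the coupling.** -/
theorem exists_weights {L : ℝ} (hL : Opt L) {m : ℕ} (hm : 1 ≤ m) :
    ∃ w : TT m → ℝ, (∀ τ, 0 ≤ w τ) ∧ ∀ i : Fin (m + 1), ∑ τ : TT m,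
      w τ * ((if τ.1.1 = i then 1 else 0) + (if τ.1.2.1 = i then 1 else 0) +
        (if τ.1.2.2 = i then 1 else 0)) = FF L m i := by
  classical
  -- the linear map
  let v : TT m → (Fin (m + 1) → ℝ) := fun τ i =>
    ((if τ.1.1 = i then 1 else 0) + (if τ.1.2.1 = i then 1 else 0) +
      (if τ.1.2.2 = i then 1 else 0))
  let Φ : (TT m → ℝ) →ₗ[ℝ] (Fin (m + 1) → ℝ) :=
    ∑ τ : TT m, (LinearMap.proj τ : (TT m → ℝ) →ₗ[ℝ] ℝ).smulRight ((1 / 3 : ℝ) • v τ)
  have hΦ : ∀ w, Φ w = ∑ τ : TT m, w τ • ((1 / 3 : ℝ) • v τ) := by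
    intro w
    simp [Φ]
  have hΦc : Continuous Φ := Φ.continuous_of_finiteDimensional
  set P : Set (Fin (m + 1) → ℝ) := Φ '' stdSimplex ℝ (TT m) with hP
  have hPc : Convex ℝ P := (convex_stdSimplex ℝ (TT m)).linear_image Φ
  have hPcl : IsClosed P := ((isCompact_stdSimplex ℝ (TT m)).image hΦc).isClosed
  have hmem : (fun i : Fin (m + 1) => FF L m i) ∈ P := by
    by_contra hnot
    obtain ⟨f, u, hfu, hfP⟩ := geometric_hahn_banach_point_closed hPc hPcl hnot
    let g : ℕ → ℝ := fun n => if h : n < m + 1 then f (Pi.single ⟨n, h⟩ 1) - u else 0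
    have hgi : ∀ i : Fin (m + 1), g i = f (Pi.single i 1) - u := by
      intro i
      simp only [g]
      rw [dif_pos i.2]
    have hfx : ∀ x : Fin (m + 1) → ℝ, f x = ∑ i, x i * f (Pi.single i 1) := by
      intro x
      conv_lhs => rw [← Finset.univ_sum_single x]
      rw [map_sum]
      refine Finset.sum_congr rfl fun i _ => ?_
      have : (Pi.single i (x i) : Fin (m + 1) → ℝ) = x i • Pi.single i 1 := by
        rw [← Pi.single_smul]
        simp
      rw [this, map_smul, smul_eq_mul]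
    have hg : ∀ a b c, a + b + c = m → 0 ≤ g a + g b + g c := by
      intro a b c habc
      let τ : TT m := ⟨(⟨a, by omega⟩, ⟨b, by omega⟩, ⟨c, by omega⟩), habc⟩
      have h1 : Φ (Pi.single τ 1) ∈ P := ⟨_, single_mem_stdSimplex ℝ τ, rfl⟩
      have h2 := hfP _ h1
      have h3 : Φ (Pi.single τ 1) = (1 / 3 : ℝ) • v τ := by
        rw [hΦ, Finset.sum_eq_single τ]
        · simp
        · intro b _ hb
          simp [hb]
        · intro h
          exact absurd (Finset.mem_univ _) h
      rw [h3, map_smul, hfx] at h2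
      have h4 : ∑ i, v τ i * f (Pi.single i 1) =
          f (Pi.single ⟨a, by omega⟩ 1) + f (Pi.single ⟨b, by omega⟩ 1) +
            f (Pi.single ⟨c, by omega⟩ 1) := by
        simp only [v, add_mul, Finset.sum_add_distrib, ite_mul, one_mul, zero_mul,
          Finset.sum_ite_eq, Finset.mem_univ, if_true]
        rfl
      rw [h4, smul_eq_mul] at h2
      have ha : g a = f (Pi.single ⟨a, by omega⟩ 1) - u := hgi ⟨a, by omega⟩
      have hb : g b = f (Pi.single ⟨b, by omega⟩ 1) - u := hgi ⟨b, by omega⟩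
      have hc : g c = f (Pi.single ⟨c, by omega⟩ 1) - u := hgi ⟨c, by omega⟩
      rw [ha, hb, hc]
      linarith
    have h5 := FF_pos hL hg
    have h6 : ∑ i ∈ Finset.range (m + 1), FF L m i * g i =
        f (fun i : Fin (m + 1) => FF L m i) - u := by
      rw [hfx, ← Fin.sum_univ_eq_sum_range (fun i => FF L m i * g i)]
      simp only [hgi, mul_sub, Finset.sum_sub_distrib]
      rw [← Finset.sum_mul, Fin.sum_univ_eq_sum_range (fun i => FF L m i), FF_sum hL.1 hm, one_mul]
    linarith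
  obtain ⟨w, hw, hwF⟩ := hmem
  refine ⟨fun τ => w τ / 3, fun τ => div_nonneg (hw.1 τ) (by norm_num), fun i => ?_⟩
  have h1 := congrFun hwF i
  rw [hΦ, Finset.sum_apply] at h1
  beta_reduce at h1
  rw [← h1]
  refine Finset.sum_congr rfl fun τ _ => ?_
  simp only [Pi.smul_apply, smul_eq_mul, v]
  ring

end Pool.Agent.Work.MP_0cd883_co
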