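import Pool.Agent.Work.MP_0cd883_co.PlaneSmall

/-!
The largest sum-free subsets of `[N]²`: value and extremal sets.
-/

set_option autoImplicit false

namespace Pool.Agent.Work.MP_0cd883_co.Plane

open Finset

/-- the band `a ≤ x + y ≤ b` in `[N]²` -/
def band (N a b : ℕ) : Finset (Fin 2 → ℕ) :=
  (MP_0cd883_co.grid 2 N).filter fun x => a ≤ x 0 + x 1 ∧ x 0 + x 1 ≤ b

/-- the slab `u ≤ x + y ≤ 2 u - 1` in `[N]²` -/
def slabF (N u : ℕ) : Finset (Fin 2 → ℕ) := band N u (2 * u - 1)

/-- embedding in the plane of integers -/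
def toZ (x : Fin 2 → ℕ) : ℤ × ℤ := ((x 0 : ℤ), (x 1 : ℤ))

theorem toZ_injective : Function.Injective toZ := by
  intro x y h
  simp only [toZ, Prod.mk.injEq, Nat.cast_inj] at h
  funext i
  fin_cases i
  · exact h.1
  · exact h.2

theorem mem_gridF {N : ℕ} {x : Fin 2 → ℕ} :
    x ∈ MP_0cd883_co.grid 2 N ↔ 1 ≤ x 0 ∧ x 0 ≤ N ∧ 1 ≤ x 1 ∧ x 1 ≤ N := by
  rw [MP_0cd883_co.grid, Fintype.mem_piFinset]
  constructor
  · intro h
    have h0 := mem_Icc.1 (h 0)
    have h1 := mem_Icc.1 (h 1)
    exact ⟨h0.1, h0.2, h1.1, h1.2⟩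
  · rintro ⟨a, b, c, d⟩ i
    rw [mem_Icc]
    fin_cases i
    · exact ⟨a, b⟩
    · exact ⟨c, d⟩

theorem toZ_mem_zgrid {N : ℕ} {x : Fin 2 → ℕ} :
    toZ x ∈ zgrid N ↔ x ∈ MP_0cd883_co.grid 2 N := by
  rw [mem_zgrid, mem_gridF]
  simp only [toZ]
  omega

theorem slabF_sumFree (N u : ℕ) : SumFree (slabF N u) := by
  intro x hx y hy z hz h
  rw [slabF, band, mem_filter] at hx hy hz
  have h0 : x 0 + y 0 = z 0 := congrFun h 0
  have h1 : x 1 + y 1 = z 1 := congrFun h 1
  have g := mem_gridF.1 hz.1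
  omega

/-- a set of the right shape is a slab -/
theorem eq_slabF {N u : ℕ} {A : Finset (Fin 2 → ℕ)} (hsub : A ⊆ MP_0cd883_co.grid 2 N)
    (hu : 1 ≤ u) (h : A.image toZ = zslab N u) : A = slabF N u := by
  ext x
  have h1 : toZ x ∈ A.image toZ ↔ x ∈ A := by
    rw [mem_image]
    constructor
    · rintro ⟨y, hy, hxy⟩
      rwa [← toZ_injective hxy]
    · intro hx
      exact ⟨x, hx, rfl⟩
  rw [← h1, h, zslab, mem_filter, slabF, band, mem_filter, toZ_mem_zgrid]
  simp only [toZ]
  constructor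
  · rintro ⟨a, b, c⟩
    exact ⟨a, by omega, by omega⟩
  · rintro ⟨a, b, c⟩
    exact ⟨a, by omega, by omega⟩

/-- the cardinality of a slab -/
theorem card_slabF (N u : ℕ) (h1 : 1 ≤ u) (h2 : u ≤ N + 1) (h3 : N + 1 ≤ 2 * u) :
    2 * (slabF N u).card + (u - 1) * (u - 1 - 1) + (2 * N + 2 - 2 * u) * (2 * N + 2 - 2 * u - 1) =
      2 * N ^ 2 := by
  classical
  have hcard : (slabF N u).card = ((grid N).filter fun v => u ≤ v.1 + v.2 ∧ v.1 + v.2 < 2 * u).card := by
    refine card_bij (fun x _ => (x 0, x 1)) ?_ ?_ ?_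
    · intro x hx
      rw [slabF, band, mem_filter, mem_gridF] at hx
      simp only [grid, mem_filter, mem_product, mem_Icc]
      omega
    · intro x _ y _ h
      simp only [Prod.mk.injEq] at h
      funext i
      fin_cases i
      · exact h.1
      · exact h.2
    · intro v hv
      simp only [grid, mem_filter, mem_product, mem_Icc] at hv
      refine ⟨![v.1, v.2], ?_, rfl⟩
      rw [slabF, band, mem_filter, mem_gridF]
      simp only [Matrix.cons_val_zero, Matrix.cons_val_one]
      omega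
  have hsplit : ((grid N).filter fun v => u ≤ v.1 + v.2 ∧ v.1 + v.2 < 2 * u).card +
      ((grid N).filter fun v => v.1 + v.2 ≤ u - 1).card +
      ((grid N).filter fun v => 2 * N + 2 ≤ v.1 + v.2 + (2 * N + 2 - 2 * u)).card = N ^ 2 := by
    rw [← card_grid N]
    have h1 : (grid N).filter (fun v => ¬ (u ≤ v.1 + v.2 ∧ v.1 + v.2 < 2 * u)) =
        (grid N).filter (fun v => v.1 + v.2 ≤ u - 1) ∪
          (grid N).filter (fun v => 2 * N + 2 ≤ v.1 + v.2 + (2 * N + 2 - 2 * u)) := by
      ext ⟨x, y⟩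
      simp only [grid, mem_filter, mem_product, mem_Icc, mem_union]
      omega
    have h2 : Disjoint ((grid N).filter (fun v => v.1 + v.2 ≤ u - 1))
        ((grid N).filter (fun v => 2 * N + 2 ≤ v.1 + v.2 + (2 * N + 2 - 2 * u))) := by
      rw [disjoint_left]
      rintro ⟨x, y⟩ h3 h4
      simp only [grid, mem_filter, mem_product, mem_Icc] at h3 h4
      omega
    have h3 := card_filter_add_card_filter_not (s := grid N)
      (fun v => u ≤ v.1 + v.2 ∧ v.1 + v.2 < 2 * u)
    rw [h1, card_union_of_disjoint h2] at h3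
    rw [← h3, ← add_assoc]
  have hlow := card_low N (u - 1) (by omega)
  have hhigh := card_high N (2 * N + 2 - 2 * u) (by omega)
  rw [hcard]
  linarith

theorem card_slab_one (N : ℕ) : (slabF N ((4 * N + 6) / 5)).card = 3 * N * (N + 1) / 5 := by
  have h := card_slabF N ((4 * N + 6) / 5) (by omega) (by omega) (by omega)
  have h' := card_slab N
  have hcard : (slabF N ((4 * N + 6) / 5)).card = (slab N).card := by
    refine card_bij (fun x _ => (x 0, x 1)) ?_ ?_ ?_
    · intro x hx
      rw [slabF, band, mem_filter, mem_gridF] at hx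
      simp only [slab, grid, mem_filter, mem_product, mem_Icc]
      omega
    · intro x _ y _ h
      simp only [Prod.mk.injEq] at h
      funext i
      fin_cases i
      · exact h.1
      · exact h.2
    · intro v hv
      simp only [slab, grid, mem_filter, mem_product, mem_Icc] at hv
      refine ⟨![v.1, v.2], ?_, rfl⟩
      rw [slabF, band, mem_filter, mem_gridF]
      simp only [Matrix.cons_val_zero, Matrix.cons_val_one]
      omega
  rw [hcard, h']

theorem card_slab_two (N : ℕ) (hN : N % 5 = 2) :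
    (slabF N ((4 * N + 7) / 5)).card = 3 * N * (N + 1) / 5 := by
  have h := card_slabF N ((4 * N + 7) / 5) (by omega) (by omega) (by omega)
  obtain ⟨k, rfl⟩ : ∃ k, N = 5 * k + 2 := ⟨N / 5, by omega⟩
  obtain ⟨u, hu⟩ : ∃ u, u = (4 * (5 * k + 2) + 7) / 5 := ⟨_, rfl⟩
  rw [← hu] at h ⊢
  have hu' : u = 4 * k + 3 := by omega
  subst hu'
  generalize (slabF (5 * k + 2) (4 * k + 3)).card = s at *
  have e1 : 4 * k + 3 - 1 = 4 * k + 2 := by omega
  have e2 : 4 * k + 2 - 1 = 4 * k + 1 := by omega
  have e3 : 2 * (5 * k + 2) + 2 - 2 * (4 * k + 3) = 2 * k := by omega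
  rw [e1, e2, e3] at h
  have h2 : 2 * k * (2 * k - 1) + 2 * k = 2 * k * (2 * k) := by
    rcases k with _ | k
    · rfl
    · have : 2 * (k + 1) - 1 = 2 * k + 1 := by omega
      rw [this]; ring
  generalize 2 * k * (2 * k - 1) = p at *
  ring_nf at h h2 ⊢
  generalize k ^ 2 = q at *
  omega

theorem toZ_eq {x : Fin 2 → ℕ} {a b : ℕ} : toZ x = ((a : ℤ), (b : ℤ)) ↔ x = ![a, b] := by
  constructor
  · intro h
    simp only [toZ, Prod.mk.injEq, Nat.cast_inj] at h
    funext i
    fin_cases i
    · exact h.1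
    · exact h.2
  · rintro rfl
    rfl

theorem toZ_band {N a b : ℕ} {x : Fin 2 → ℕ} : toZ x ∈ zband N a b ↔ x ∈ band N a b := by
  rw [zband, band, mem_filter, mem_filter, toZ_mem_zgrid]
  simp only [toZ]
  constructor
  · rintro ⟨h1, h2, h3⟩
    exact ⟨h1, by exact_mod_cast h2, by exact_mod_cast h3⟩
  · rintro ⟨h1, h2, h3⟩
    exact ⟨h1, by exact_mod_cast h2, by exact_mod_cast h3⟩

theorem eq_of_image {A B : Finset (Fin 2 → ℕ)} {B' : Finset (ℤ × ℤ)} (h : A.image toZ = B')
    (hB : ∀ x, toZ x ∈ B' ↔ x ∈ B) : A = B := by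
  ext x
  rw [← hB, ← h, mem_image]
  constructor
  · intro hx
    exact ⟨x, hx, rfl⟩
  · rintro ⟨y, hy, hxy⟩
    rwa [← toZ_injective hxy]

theorem card_three_a : (band 3 4 6 ∪ {![1, 2]}).card = 7 := by decide

theorem card_three_b : (band 3 4 6 ∪ {![2, 1]}).card = 7 := by decide

theorem card_seven_a : (band 7 7 12 ∪ {![1, 5], ![2, 4]}).card = 33 := by decide

theorem card_seven_b : (band 7 7 12 ∪ {![5, 1], ![4, 2]}).card = 33 := by decide

theorem card_seven_c :
    ((band 7 7 12 \ {![6, 6]}) ∪ {![1, 5], ![3, 3], ![5, 1]}).card = 33 := by decide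

/-- the largest sum-free subsets of `[N]²` -/
theorem extremal_two (N : ℕ) (A : Finset (Fin 2 → ℕ)) (hsub : A ⊆ MP_0cd883_co.grid 2 N)
    (hfree : SumFree A) : A.card = maxSumFree 2 N ↔
      A = band N ((4 * N + 6) / 5) (2 * ((4 * N + 6) / 5) - 1) ∨
      (N % 5 = 2 ∧ A = band N ((4 * N + 7) / 5) (2 * ((4 * N + 7) / 5) - 1)) ∨
      (N = 3 ∧ (A = band 3 4 6 ∪ {![1, 2]} ∨ A = band 3 4 6 ∪ {![2, 1]})) ∨
      (N = 7 ∧ (A = band 7 7 12 ∪ {![1, 5], ![2, 4]} ∨ A = band 7 7 12 ∪ {![5, 1], ![4, 2]} ∨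
        A = (band 7 7 12 \ {![6, 6]}) ∪ {![1, 5], ![3, 3], ![5, 1]})) := by
  constructor
  · intro hcard
    have hsub' : A.image toZ ⊆ zgrid N := by
      intro v hv
      rw [mem_image] at hv
      obtain ⟨x, hx, rfl⟩ := hv
      exact toZ_mem_zgrid.2 (hsub hx)
    have hfree' : ∀ u ∈ A.image toZ, ∀ v ∈ A.image toZ, u + v ∉ A.image toZ := by
      intro u hu v hv h
      rw [mem_image] at hu hv h
      obtain ⟨x, hx, rfl⟩ := hu
      obtain ⟨y, hy, rfl⟩ := hv
      obtain ⟨z, hz, hxyz⟩ := h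
      apply hfree x hx y hy z hz
      apply toZ_injective
      rw [hxyz]
      simp only [toZ, Pi.add_apply, Nat.cast_add, Prod.mk_add_mk]
    have hE : 5 * (((zgrid (N : ℤ)).filter fun v => v ∉ A.image toZ).card : ℤ)
        ≤ 2 * (N : ℤ) ^ 2 - 3 * N + 4 := by
      have h2 := card_filter_add_card_filter_not (s := zgrid (N : ℤ)) (fun v => v ∈ A.image toZ)
      have h3 : (zgrid (N : ℤ)).filter (fun v => v ∈ A.image toZ) = A.image toZ := by
        ext v
        rw [mem_filter]
        exact ⟨fun h => h.2, fun h => ⟨hsub' h, h⟩⟩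
      rw [h3, card_image_of_injective _ toZ_injective, hcard, maxSumFree_two] at h2
      have h4 : ((3 * N * (N + 1) / 5 : ℕ) : ℤ)
          + ((zgrid (N : ℤ)).filter fun v => v ∉ A.image toZ).card = (N : ℤ) ^ 2 := by
        rw [← zgrid_card (N := (N : ℤ)) (by positivity)]
        exact_mod_cast h2
      have h5 : 3 * N * (N + 1) ≤ 5 * (3 * N * (N + 1) / 5) + 4 := by omega
      have h6 : 3 * (N : ℤ) * (N + 1) ≤ 5 * ((3 * N * (N + 1) / 5 : ℕ) : ℤ) + 4 := by
        exact_mod_cast h5
      linarith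
    rcases extremal_int (N := (N : ℤ)) (by positivity) hsub' hfree' hE with
      h | ⟨h5, h⟩ | ⟨h5, h⟩ | ⟨h5, h⟩
    · left
      change A = slabF N ((4 * N + 6) / 5)
      apply eq_slabF hsub (by omega)
      rw [h]
      push_cast
      rfl
    · right; left
      refine ⟨by exact_mod_cast h5, ?_⟩
      change A = slabF N ((4 * N + 7) / 5)
      apply eq_slabF hsub (by omega)
      rw [h]
      push_cast
      rfl
    · right; right; left
      refine ⟨by exact_mod_cast h5, ?_⟩
      rcases h with h | h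
      · left
        refine eq_of_image h fun x => ?_
        rw [mem_union, mem_union, mem_singleton, mem_singleton]
        exact or_congr (toZ_band (N := 3) (a := 4) (b := 6)) (toZ_eq (a := 1) (b := 2))
      · right
        refine eq_of_image h fun x => ?_
        rw [mem_union, mem_union, mem_singleton, mem_singleton]
        exact or_congr (toZ_band (N := 3) (a := 4) (b := 6)) (toZ_eq (a := 2) (b := 1))
    · right; right; right
      refine ⟨by exact_mod_cast h5, ?_⟩
      rcases h with h | h | h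
      · left
        refine eq_of_image h fun x => ?_
        rw [mem_union, mem_union, mem_insert, mem_insert, mem_singleton, mem_singleton]
        exact or_congr (toZ_band (N := 7) (a := 7) (b := 12))
          (or_congr (toZ_eq (a := 1) (b := 5)) (toZ_eq (a := 2) (b := 4)))
      · right; left
        refine eq_of_image h fun x => ?_
        rw [mem_union, mem_union, mem_insert, mem_insert, mem_singleton, mem_singleton]
        exact or_congr (toZ_band (N := 7) (a := 7) (b := 12))
          (or_congr (toZ_eq (a := 5) (b := 1)) (toZ_eq (a := 4) (b := 2)))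
      · right; right
        refine eq_of_image h fun x => ?_
        rw [mem_union, mem_union, mem_insert, mem_insert, mem_singleton, mem_insert, mem_insert,
          mem_singleton, mem_sdiff, mem_sdiff, mem_singleton, mem_singleton]
        exact or_congr (and_congr (toZ_band (N := 7) (a := 7) (b := 12))
          (not_congr (toZ_eq (a := 6) (b := 6))))
          (or_congr (toZ_eq (a := 1) (b := 5)) (or_congr (toZ_eq (a := 3) (b := 3))
            (toZ_eq (a := 5) (b := 1))))
  · rw [maxSumFree_two]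
    rintro (rfl | ⟨h5, rfl⟩ | ⟨rfl, rfl | rfl⟩ | ⟨rfl, rfl | rfl | rfl⟩)
    · exact card_slab_one N
    · exact card_slab_two N h5
    · exact card_three_a
    · exact card_three_b
    · exact card_seven_a
    · exact card_seven_b
    · exact card_seven_c

end Pool.Agent.Work.MP_0cd883_co.Plane
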