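import Pool.Agent.Work.MP_0cd883_co.Key

/-!
# The exponential weight

If `1/L - 1/(e^L - 1) = 1/3` then `∫₀¹ e^{-Lt} g(t) dt ≥ 0` for every continuous `g` satisfying the
triple condition.
-/

namespace Pool.Agent.Work.MP_0cd883_co

open MeasureTheory intervalIntegral Set

/-- The equation of the optimal parameter: the truncated exponential law has mean `1/3`. -/
def Opt (L : ℝ) : Prop := 0 < L ∧ 1 / L - 1 / (Real.exp L - 1) = 1 / 3

lemma Opt.exp_neg {L : ℝ} (h : Opt L) : Real.exp (-L) * (3 + 2 * L) = 3 - L := by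
  obtain ⟨hL, h⟩ := h
  have h1 : Real.exp L - 1 ≠ 0 := by
    have := Real.add_one_lt_exp hL.ne'
    intro h0
    linarith
  have h2 : 3 * (Real.exp L - 1) - 3 * L = L * (Real.exp L - 1) := by
    field_simp at h
    linarith
  have h3 : Real.exp (-L) * Real.exp L = 1 := by
    rw [← Real.exp_add]
    simp
  linear_combination (-Real.exp (-L)) * h2 + (3 - L) * h3

lemma hasDerivAt_exp_neg (L t : ℝ) :
    HasDerivAt (fun t : ℝ => Real.exp (-(L * t))) (-L * Real.exp (-(L * t))) t := by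
  have h1 : HasDerivAt (fun t : ℝ => -(L * t)) (-(L * 1)) t :=
    ((hasDerivAt_id t).const_mul L).neg
  have h2 := h1.exp
  have h3 : -L * Real.exp (-(L * t)) = Real.exp (-(L * t)) * (-(L * 1)) := by ring
  rw [h3]
  exact h2

lemma null_exp {L : ℝ} (h : Opt L) (K : ℝ) :
    ∫ t in (0:ℝ)..1, Real.exp (-(L * t)) * (K * (2 / 3 - 2 * t)) = 0 := by
  have hL := h.1
  have h1 : ∀ t ∈ Set.uIcc (0:ℝ) 1, HasDerivAt
      (fun t : ℝ => K * (Real.exp (-(L * t)) * (2 / L * t + (2 / L - 2 / 3) / L)))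
      (Real.exp (-(L * t)) * (K * (2 / 3 - 2 * t))) t := by
    intro t _
    have h3 : HasDerivAt (fun t : ℝ => 2 / L * t + (2 / L - 2 / 3) / L) (2 / L * 1) t :=
      ((hasDerivAt_id t).const_mul (2 / L)).add_const _
    have h4 := ((hasDerivAt_exp_neg L t).mul h3).const_mul K
    have h5 : Real.exp (-(L * t)) * (K * (2 / 3 - 2 * t)) =
        K * (-L * Real.exp (-(L * t)) * (2 / L * t + (2 / L - 2 / 3) / L) +
          Real.exp (-(L * t)) * (2 / L * 1)) := by
      field_simp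
      ring
    rw [h5]
    exact h4
  rw [intervalIntegral.integral_eq_sub_of_hasDerivAt h1
    ((by fun_prop : Continuous fun t : ℝ =>
      Real.exp (-(L * t)) * (K * (2 / 3 - 2 * t))).intervalIntegrable _ _)]
  have h2 := h.exp_neg
  simp only [mul_one, mul_zero, neg_zero, Real.exp_zero, zero_add, one_mul]
  have h3 : Real.exp (-L) * (2 / L + (2 / L - 2 / 3) / L) - (2 / L - 2 / 3) / L = 0 := by
    field_simp
    linear_combination 2 * h2
  linear_combination K * h3

theorem exp_int_nonneg {L : ℝ} (hL : Opt L) {g : ℝ → ℝ} (hc : Continuous g) (hT : Triple g) :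
    0 ≤ ∫ t in (0:ℝ)..1, Real.exp (-(L * t)) * g t := by
  obtain ⟨K, hK⟩ := key hc hT
  set h : ℝ → ℝ := fun t => g t - K * (2 / 3 - 2 * t) with hh
  have hnc : Continuous fun t : ℝ => K * (2 / 3 - 2 * t) := by fun_prop
  have hhc : Continuous h := hc.sub hnc
  set H : ℝ → ℝ := fun x => ∫ t in (0:ℝ)..x, h t with hH
  have hHd : ∀ x, HasDerivAt H (h x) x := fun x =>
    intervalIntegral.integral_hasDerivAt_right (hhc.intervalIntegrable _ _)
      (hhc.stronglyMeasurableAtFilter _ _) hhc.continuousAt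
  have hHc : Continuous H := continuous_iff_continuousAt.2 fun x => (hHd x).continuousAt
  have hHpos : ∀ x, 0 ≤ x → x ≤ 1 → 0 ≤ H x := by
    intro x h0 h1
    have h2 : H x = (∫ t in (0:ℝ)..x, g t) - K * (x * (2 / 3 - x)) := by
      rw [← null_int K x, ← intervalIntegral.integral_sub (hc.intervalIntegrable _ _)
        (hnc.intervalIntegrable _ _)]
    rw [h2]
    linarith [hK x h0 h1]
  have hec : Continuous fun t : ℝ => Real.exp (-(L * t)) := by fun_prop
  have h1 : ∀ t ∈ Set.uIcc (0:ℝ) 1, HasDerivAt (fun t : ℝ => Real.exp (-(L * t)) * H t)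
      (-L * Real.exp (-(L * t)) * H t + Real.exp (-(L * t)) * h t) t := fun t _ =>
    (hasDerivAt_exp_neg L t).mul (hHd t)
  have hi1 : IntervalIntegrable (fun t : ℝ => -L * Real.exp (-(L * t)) * H t) volume 0 1 :=
    ((continuous_const.mul hec).mul hHc).intervalIntegrable _ _
  have hi2 : IntervalIntegrable (fun t : ℝ => Real.exp (-(L * t)) * h t) volume 0 1 :=
    (hec.mul hhc).intervalIntegrable _ _
  have h2 := intervalIntegral.integral_eq_sub_of_hasDerivAt h1 (hi1.add hi2)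
  rw [intervalIntegral.integral_add hi1 hi2] at h2
  have hH0 : H 0 = 0 := by simp [hH]
  rw [hH0] at h2
  have h3 : (∫ t in (0:ℝ)..1, -L * Real.exp (-(L * t)) * H t) ≤ 0 := by
    have h4 : 0 ≤ ∫ t in (0:ℝ)..1, L * Real.exp (-(L * t)) * H t := by
      apply intervalIntegral.integral_nonneg (by norm_num)
      intro t ht
      exact mul_nonneg (mul_nonneg hL.1.le (Real.exp_pos _).le) (hHpos t ht.1 ht.2)
    have h5 : (∫ t in (0:ℝ)..1, -L * Real.exp (-(L * t)) * H t) =
        -∫ t in (0:ℝ)..1, L * Real.exp (-(L * t)) * H t := by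
      rw [← intervalIntegral.integral_neg]
      congr 1
      ext t
      ring
    rw [h5]
    linarith
  have h6 : 0 ≤ Real.exp (-(L * 1)) * H 1 :=
    mul_nonneg (Real.exp_pos _).le (hHpos 1 (by norm_num) le_rfl)
  have h7 : 0 ≤ ∫ t in (0:ℝ)..1, Real.exp (-(L * t)) * h t := by linarith
  have h8 : (∫ t in (0:ℝ)..1, Real.exp (-(L * t)) * h t) =
      (∫ t in (0:ℝ)..1, Real.exp (-(L * t)) * g t) -
        ∫ t in (0:ℝ)..1, Real.exp (-(L * t)) * (K * (2 / 3 - 2 * t)) := by
    have i1 : IntervalIntegrable (fun t : ℝ => Real.exp (-(L * t)) * g t) volume 0 1 :=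
      (hec.mul hc).intervalIntegrable _ _
    have i2 : IntervalIntegrable (fun t : ℝ => Real.exp (-(L * t)) * (K * (2 / 3 - 2 * t)))
        volume 0 1 := (hec.mul hnc).intervalIntegrable _ _
    rw [← intervalIntegral.integral_sub i1 i2]
    congr 1
    ext t
    simp only [hh]
    ring
  rw [h8, null_exp hL, sub_zero] at h7
  exact h7

/-- Existence of the optimal parameter, with numerical bounds. -/
theorem exists_opt : ∃ L : ℝ, 15 / 7 < L ∧ L < 13 / 6 ∧ Opt L := by
  have hcont : ContinuousOn (fun L : ℝ => Real.exp L * (3 - L) - (3 + 2 * L))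
      (Set.Icc (15 / 7) (13 / 6)) := by
    apply Continuous.continuousOn
    fun_prop
  have h1 : (0:ℝ) < Real.exp (15 / 7) * (3 - 15 / 7) - (3 + 2 * (15 / 7)) := by
    have h2 : (8.5 : ℝ) < Real.exp (15 / 7) := by
      have h3 : (8.5 : ℝ) ^ 7 < Real.exp (15 / 7) ^ 7 := by
        rw [← Real.exp_nat_mul]
        have h4 : ((7 : ℕ) : ℝ) * (15 / 7) = ((15 : ℕ) : ℝ) * 1 := by norm_num
        rw [h4, Real.exp_nat_mul]
        calc (8.5 : ℝ) ^ 7 < 2.7182818283 ^ 15 := by norm_num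
          _ < Real.exp 1 ^ 15 := by
            gcongr
            exact Real.exp_one_gt_d9
      exact lt_of_pow_lt_pow_left₀ 7 (Real.exp_pos _).le h3
    linarith
  have h2 : Real.exp (13 / 6) * (3 - 13 / 6) - (3 + 2 * (13 / 6)) < (0:ℝ) := by
    have h2 : Real.exp (13 / 6) < (8.8 : ℝ) := by
      have h3 : Real.exp (13 / 6) ^ 6 < (8.8 : ℝ) ^ 6 := by
        rw [← Real.exp_nat_mul]
        have h4 : ((6 : ℕ) : ℝ) * (13 / 6) = ((13 : ℕ) : ℝ) * 1 := by norm_num
        rw [h4, Real.exp_nat_mul]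
        calc Real.exp 1 ^ 13 < 2.7182818286 ^ 13 := by
              gcongr
              exact Real.exp_one_lt_d9
          _ < (8.8 : ℝ) ^ 6 := by norm_num
      exact lt_of_pow_lt_pow_left₀ 6 (by norm_num) h3
    linarith
  have h3 := intermediate_value_Ioo' (by norm_num : (15 / 7:ℝ) ≤ 13 / 6) hcont
  obtain ⟨L, hL, hL0⟩ := h3 (show (0:ℝ) ∈ _ from ⟨h2, h1⟩)
  refine ⟨L, hL.1, hL.2, by linarith [hL.1], ?_⟩
  have h4 : 0 < Real.exp L - 1 := by
    have := Real.add_one_lt_exp (x := L) (by linarith [hL.1])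
    linarith [hL.1]
  have h5 : 0 < L := by linarith [hL.1]
  beta_reduce at hL0
  field_simp
  linarith

/-- The base `ρ = (1 - e^{-L}) e^{L/3} / L`. -/
noncomputable def rho (L : ℝ) : ℝ := (1 - Real.exp (-L)) * Real.exp (L / 3) / L

theorem rho_pos {L : ℝ} (h : 0 < L) : 0 < rho L := by
  have : Real.exp (-L) < 1 := Real.exp_lt_one_iff.2 (by linarith)
  unfold rho
  have h1 := Real.exp_pos (L / 3)
  have h2 : 0 < 1 - Real.exp (-L) := by linarith
  positivity

theorem rho_cube {L : ℝ} (h : Opt L) :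
    rho L ^ 3 * ((3 + 2 * L) ^ 2 * (3 - L)) = 27 := by
  have h1 := h.exp_neg
  have hL := h.1
  have h2 : Real.exp (L / 3) ^ 3 = Real.exp L := by
    rw [← Real.exp_nat_mul]
    congr 1
    push_cast
    ring
  have h4 : Real.exp L * (3 - L) = 3 + 2 * L := by
    have h5 : Real.exp (-L) * Real.exp L = 1 := by
      rw [← Real.exp_add]
      simp
    linear_combination (-Real.exp L) * h1 + (3 + 2 * L) * h5
  have h5 : (1 - Real.exp (-L)) * (3 + 2 * L) = 3 * L := by linear_combination -h1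
  unfold rho
  rw [div_pow, mul_pow, h2, div_mul_eq_mul_div, div_eq_iff (by positivity)]
  have h6 : ((1 - Real.exp (-L)) * (3 + 2 * L)) ^ 3 = (3 * L) ^ 3 := by rw [h5]
  have h7 : (3 + 2 * L) ≠ 0 := by positivity
  apply mul_left_cancel₀ h7
  calc (3 + 2 * L) * ((1 - Real.exp (-L)) ^ 3 * Real.exp L * ((3 + 2 * L) ^ 2 * (3 - L)))
      = ((1 - Real.exp (-L)) * (3 + 2 * L)) ^ 3 * (Real.exp L * (3 - L)) := by ring
    _ = (3 + 2 * L) * (27 * L ^ 3) := by rw [h5, h4]; ring

theorem rho_bounds {L : ℝ} (h : Opt L) (h1 : 15 / 7 < L) (h2 : L < 13 / 6) :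
    0.84 < rho L ∧ rho L < 0.845 := by
  have h3 := rho_cube h
  have hp := rho_pos h.1
  constructor
  · by_contra hcon
    push Not at hcon
    have h4 : rho L ^ 3 ≤ 0.84 ^ 3 := by gcongr
    have h5 : (3 + 2 * L) ^ 2 * (3 - L) ≤ 45.5 := by
      have h7 : 0 ≤ (L - 15 / 7) * (4 * (L ^ 2 + 15 / 7 * L + (15 / 7) ^ 2) - 27) :=
        mul_nonneg (by linarith) (by nlinarith)
      nlinarith
    have h6 : 0 ≤ (3 + 2 * L) ^ 2 * (3 - L) := mul_nonneg (by positivity) (by linarith)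
    have : rho L ^ 3 * ((3 + 2 * L) ^ 2 * (3 - L)) ≤ 0.84 ^ 3 * 45.5 := by gcongr
    norm_num at this
    linarith
  · by_contra hcon
    push Not at hcon
    have h4 : (0.845:ℝ) ^ 3 ≤ rho L ^ 3 := by gcongr
    have h5 : 44.8 ≤ (3 + 2 * L) ^ 2 * (3 - L) := by
      have h7 : 0 ≤ (13 / 6 - L) * (4 * (L ^ 2 + 13 / 6 * L + (13 / 6) ^ 2) - 27) :=
        mul_nonneg (by linarith) (by nlinarith)
      nlinarith
    have : 0.845 ^ 3 * 44.8 ≤ rho L ^ 3 * ((3 + 2 * L) ^ 2 * (3 - L)) := by gcongr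
    norm_num at this
    linarith

end Pool.Agent.Work.MP_0cd883_co
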