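import Mathlib

/-!
# A one-variable lemma

If `g` is continuous and `g a + g b + g c ≥ 0` whenever `a + b + c = 1`, `a, b, c ≥ 0`, then some
`K` satisfies `∫₀ˣ g ≥ K x (2/3 - x)` for all `x ∈ [0,1]`.
-/

namespace Pool.Agent.Work.MP_0cd883_co

open MeasureTheory intervalIntegral Set

/-- The triple condition. -/
def Triple (g : ℝ → ℝ) : Prop :=
  ∀ a b c : ℝ, 0 ≤ a → 0 ≤ b → 0 ≤ c → a + b + c = 1 → 0 ≤ g a + g b + g c

lemma mean_eq (g : ℝ → ℝ) (s : ℝ) :
    ∫ t in (0:ℝ)..s, g t = s * ∫ u in (0:ℝ)..1, g (s * u) := by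
  rcases eq_or_ne s 0 with rfl | hs
  · simp
  · rw [intervalIntegral.integral_comp_mul_left g hs]
    simp [hs]

lemma pair_int {h : ℝ → ℝ} (hc : Continuous h) {c a : ℝ} (ha : a ≤ c - a)
    (hp : ∀ y, a ≤ y → y ≤ c - a → 0 ≤ h y + h (c - y)) :
    0 ≤ ∫ y in a..(c - a), h y := by
  have h1 : ∫ y in a..(c - a), h (c - y) = ∫ y in a..(c - a), h y := by
    rw [intervalIntegral.integral_comp_sub_left h c]
    congr 1
    ring
  have h2 : 0 ≤ ∫ y in a..(c - a), (h y + h (c - y)) := by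
    apply intervalIntegral.integral_nonneg ha
    intro y hy
    exact hp y hy.1 hy.2
  have hc2 : Continuous fun y : ℝ => h (c - y) := by fun_prop
  rw [intervalIntegral.integral_add (hc.intervalIntegrable _ _)
    (hc2.intervalIntegrable _ _), h1] at h2
  linarith

lemma diag_int {h : ℝ → ℝ} (hc : Continuous h) (hT : Triple h) {a t : ℝ} (ha : 0 ≤ a)
    (hat : a ≤ t) (ht : t ≤ 1) :
    0 ≤ (∫ w in a..t, h w) + 4 * ∫ x in ((1 - t) / 2)..((1 - a) / 2), h x := by
  have h1 : ∫ w in a..t, h ((1 - w) / 2) = 2 * ∫ x in ((1 - t) / 2)..((1 - a) / 2), h x := by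
    have e : ∀ w : ℝ, (1 - w) / 2 = 1 / 2 - w / 2 := fun w => by ring
    have := intervalIntegral.integral_comp_sub_div h (a := a) (b := t)
      (c := (2:ℝ)) (by norm_num) (1 / 2)
    simp only [e]
    rw [this]
    simp
  have h2 : 0 ≤ ∫ w in a..t, (h w + 2 * h ((1 - w) / 2)) := by
    apply intervalIntegral.integral_nonneg hat
    intro w hw
    have := hT w ((1 - w) / 2) ((1 - w) / 2) (by linarith [hw.1]) (by linarith [hw.2])
      (by linarith [hw.2]) (by ring)
    linarith
  have hc2 : Continuous fun w : ℝ => 2 * h ((1 - w) / 2) := by fun_prop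
  rw [intervalIntegral.integral_add (hc.intervalIntegrable _ _)
    (hc2.intervalIntegrable _ _),
    intervalIntegral.integral_const_mul, h1] at h2
  linarith

/-- Core step: `H ≥ 0` on `[0,1/2]` with an extremal point `s₀` gives `H ≥ 0` on `[1/2,1]`. -/
lemma core {h : ℝ → ℝ} (hc : Continuous h) (hT : Triple h)
    (hpos : ∀ s, 0 ≤ s → s ≤ 1 / 2 → 0 ≤ ∫ t in (0:ℝ)..s, h t)
    {s₀ : ℝ} (h0 : 0 ≤ s₀) (h0' : s₀ ≤ 1 / 2)
    (hs₀ : (s₀ = 0 ∧ h 0 = 0) ∨ (0 < s₀ ∧ ∫ t in (0:ℝ)..s₀, h t = 0))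
    {t : ℝ} (ht : 1 / 2 ≤ t) (ht1 : t ≤ 1) :
    0 ≤ ∫ x in (0:ℝ)..t, h x := by
  have hii : ∀ a b : ℝ, IntervalIntegrable h volume a b := fun a b => hc.intervalIntegrable a b
  have hadd : ∀ a b : ℝ, (∫ x in (0:ℝ)..b, h x) = (∫ x in (0:ℝ)..a, h x) + ∫ x in a..b, h x :=
    fun a b => (intervalIntegral.integral_add_adjacent_intervals (hii _ _) (hii _ _)).symm
  rcases hs₀ with ⟨rfl, hh0⟩ | ⟨hs0, hH0⟩
  · have h1 := pair_int hc (c := 1) (a := 1 - t) (by linarith) (fun y hy1 hy2 => by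
      have := hT 0 y (1 - y) le_rfl (by linarith) (by linarith) (by ring)
      linarith)
    have h2 := hpos (1 - t) (by linarith) (by linarith)
    have h3 := hadd (1 - t) t
    have e : (1:ℝ) - (1 - t) = t := by ring
    rw [e] at h1
    linarith
  · rcases le_or_gt s₀ (1 / 3) with hs3 | hs3
    · have hh : h s₀ = 0 := by
        have hmin : IsLocalMin (fun s => ∫ t in (0:ℝ)..s, h t) s₀ := by
          have : Set.Ioo (0:ℝ) (1 / 2) ∈ nhds s₀ := Ioo_mem_nhds hs0 (by linarith)
          filter_upwards [this] with s hs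
          rw [hH0]
          exact hpos s hs.1.le hs.2.le
        have hd : HasDerivAt (fun s => ∫ t in (0:ℝ)..s, h t) (h s₀) s₀ :=
          intervalIntegral.integral_hasDerivAt_right (hii _ _)
            (hc.stronglyMeasurableAtFilter _ _) hc.continuousAt
        exact hmin.hasDerivAt_eq_zero hd
      rcases le_or_gt t (1 - 2 * s₀) with ht2 | ht2
      · have h1 := pair_int hc (c := 1 - s₀) (a := 1 - s₀ - t) (by linarith)
          (fun y hy1 hy2 => by
            have := hT s₀ y (1 - s₀ - y) h0 (by linarith) (by linarith) (by ring)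
            linarith)
        have h2 := hpos (1 - s₀ - t) (by linarith) (by linarith)
        have h3 := hadd (1 - s₀ - t) t
        have e : (1:ℝ) - s₀ - (1 - s₀ - t) = t := by ring
        rw [e] at h1
        linarith
      · have h1 := pair_int hc (c := 1 - s₀) (a := s₀) (by linarith)
          (fun y hy1 hy2 => by
            have := hT s₀ y (1 - s₀ - y) h0 (by linarith) (by linarith) (by ring)
            linarith)
        have h2 := diag_int hc hT (a := 1 - 2 * s₀) (t := t) (by linarith) ht2.le ht1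
        have e1 : (1 - (1 - 2 * s₀)) / 2 = s₀ := by ring
        have e2 : (1:ℝ) - s₀ - s₀ = 1 - 2 * s₀ := by ring
        rw [e1] at h2
        rw [e2] at h1
        have h3 := hadd s₀ (1 - 2 * s₀)
        have h4 := hadd (1 - 2 * s₀) t
        have h5 := hadd ((1 - t) / 2) s₀
        have h6 := hpos ((1 - t) / 2) (by linarith) (by linarith)
        linarith
    · have h2 := diag_int hc hT (a := 1 - 2 * s₀) (t := t) (by linarith) (by linarith) ht1
      have e1 : (1 - (1 - 2 * s₀)) / 2 = s₀ := by ring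
      rw [e1] at h2
      have h4 := hadd (1 - 2 * s₀) t
      have h5 := hadd ((1 - t) / 2) s₀
      have h6 := hpos ((1 - t) / 2) (by linarith) (by linarith)
      have h7 := hpos (1 - 2 * s₀) (by linarith) (by linarith)
      linarith

lemma null_int (K x : ℝ) : ∫ t in (0:ℝ)..x, K * (2 / 3 - 2 * t) = K * (x * (2 / 3 - x)) := by
  have h1 : ∀ t ∈ Set.uIcc (0:ℝ) x, HasDerivAt (fun t : ℝ => K * (t * (2 / 3 - t)))
      (K * (2 / 3 - 2 * t)) t := by
    intro t _
    have h2 : HasDerivAt (fun t : ℝ => t * (2 / 3 - t)) (1 * (2 / 3 - t) + t * (0 - 1)) t :=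
      (hasDerivAt_id t).mul ((hasDerivAt_const t (2 / 3 : ℝ)).sub (hasDerivAt_id t))
    have h3 := h2.const_mul K
    have h4 : K * (2 / 3 - 2 * t) = K * (1 * (2 / 3 - t) + t * (0 - 1)) := by ring
    rw [h4]
    exact h3
  rw [intervalIntegral.integral_eq_sub_of_hasDerivAt h1
    ((by fun_prop : Continuous fun t : ℝ => K * (2 / 3 - 2 * t)).intervalIntegrable _ _)]
  ring

/-- **Key lemma.** -/
theorem key {g : ℝ → ℝ} (hc : Continuous g) (hT : Triple g) :
    ∃ K : ℝ, ∀ x, 0 ≤ x → x ≤ 1 → K * (x * (2 / 3 - x)) ≤ ∫ t in (0:ℝ)..x, g t := by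
  -- mean value function
  set M : ℝ → ℝ := fun s => ∫ u in (0:ℝ)..1, g (s * u) with hM
  have hMc : Continuous M := by
    have h2 : Continuous (Function.uncurry fun s u : ℝ => g (s * u)) := by
      unfold Function.uncurry
      fun_prop
    exact intervalIntegral.continuous_parametric_intervalIntegral_of_continuous' h2 0 1
  have hcont : ContinuousOn (fun s => M s / (2 / 3 - s)) (Set.Icc 0 (1 / 2)) := by
    apply ContinuousOn.div hMc.continuousOn
      (by fun_prop : Continuous fun s : ℝ => 2 / 3 - s).continuousOn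
    intro s hs
    have := hs.2
    intro h
    linarith
  obtain ⟨s₀, hs₀, hmin⟩ := isCompact_Icc.exists_isMinOn (⟨0, by norm_num, by norm_num⟩ :
    (Set.Icc (0:ℝ) (1 / 2)).Nonempty) hcont
  set K := M s₀ / (2 / 3 - s₀) with hK
  have hKs : M s₀ = K * (2 / 3 - s₀) := by
    rw [hK, div_mul_cancel₀]
    have := hs₀.2
    intro h
    linarith
  set h : ℝ → ℝ := fun t => g t - K * (2 / 3 - 2 * t) with hh
  have hnc : Continuous fun t : ℝ => K * (2 / 3 - 2 * t) := by fun_prop
  have hhc : Continuous h := hc.sub hnc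
  have hhT : Triple h := by
    intro a b c ha hb hcc habc
    have := hT a b c ha hb hcc habc
    have e : h a + h b + h c = g a + g b + g c - K * (2 - 2 * (a + b + c)) := by
      simp only [hh]; ring
    rw [e, habc]
    linarith
  have hH : ∀ x, ∫ t in (0:ℝ)..x, h t = (∫ t in (0:ℝ)..x, g t) - K * (x * (2 / 3 - x)) := by
    intro x
    rw [← null_int K x, ← intervalIntegral.integral_sub (hc.intervalIntegrable _ _)
      (hnc.intervalIntegrable _ _)]
  have hpos : ∀ s, 0 ≤ s → s ≤ 1 / 2 → 0 ≤ ∫ t in (0:ℝ)..s, h t := by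
    intro s h1 h2
    rw [hH, mean_eq]
    have h3 : K ≤ M s / (2 / 3 - s) := hmin (⟨h1, h2⟩ : s ∈ Set.Icc (0:ℝ) (1 / 2))
    rw [le_div_iff₀ (by linarith)] at h3
    have h4 : s * (K * (2 / 3 - s)) ≤ s * M s := mul_le_mul_of_nonneg_left h3 h1
    simp only [hM] at h4
    linarith
  have hex : (s₀ = 0 ∧ h 0 = 0) ∨ (0 < s₀ ∧ ∫ t in (0:ℝ)..s₀, h t = 0) := by
    rcases eq_or_lt_of_le hs₀.1 with h0 | h0
    · left
      refine ⟨h0.symm, ?_⟩
      rw [← h0] at hKs
      simp only [hM, zero_mul, intervalIntegral.integral_const, sub_zero, one_smul] at hKs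
      simp only [hh]
      linarith
    · right
      refine ⟨h0, ?_⟩
      rw [hH, mean_eq]
      have : (∫ u in (0:ℝ)..1, g (s₀ * u)) = K * (2 / 3 - s₀) := hKs
      rw [this]
      ring
  refine ⟨K, fun x hx0 hx1 => ?_⟩
  have : 0 ≤ ∫ t in (0:ℝ)..x, h t := by
    rcases le_or_gt x (1 / 2) with hx | hx
    · exact hpos x hx0 hx
    · exact core hhc hhT hpos hs₀.1 hs₀.2 hex hx.le hx1
  rw [hH] at this
  linarith

end Pool.Agent.Work.MP_0cd883_co
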