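import Pool.Agent.Work.MP_0cd883_co.Tail
import Pool.Agent.Work.MP_0cd883_co.Defs

/-!
# Lower bound for the complement of a sum-free set
-/

namespace Pool.Agent.Work.MP_0cd883_co

open Finset

/-- a set of weight at least `1/3` is large -/
lemma card_of_weight {L : ℝ} (hL : Opt L) {m : ℕ} (hm : 1 ≤ m) {d : ℕ} (hd : 1 ≤ d)
    (B : Finset (Fin d → Fin (m + 1))) (hB : 1 / 3 ≤ ∑ i ∈ B, ∏ k, FF L m (i k)) :
    1 / 6 * (m * rho L) ^ d * Real.exp (-(L * d / m)) * Real.exp (-(5 / 2 * L * √d)) ≤
      (B.card : ℝ) := by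
  classical
  have hm0 : (0 : ℝ) < m := by exact_mod_cast hm
  have hr := rho_pos hL.1
  have hn := nrm_pos hL.1
  set Q : (Fin d → Fin (m + 1)) → Prop :=
    fun i => ∑ k, (((i k : ℕ) : ℝ) / m - 1 / 3) ≤ -(5 / 2 * √d) with hQ
  have h1 : ∑ i ∈ B with Q i, ∏ k, FF L m (i k) ≤ 1 / 6 := by
    apply tail hL hm hd
    intro i hi
    exact (Finset.mem_filter.1 hi).2
  have h2 : ∀ i ∈ B.filter (fun i => ¬ Q i), ∏ k, FF L m (i k) ≤
      (m * rho L)⁻¹ ^ d * Real.exp (L * d / m) * Real.exp (5 / 2 * L * √d) := by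
    intro i hi
    have h3 : ¬ Q i := (Finset.mem_filter.1 hi).2
    simp only [hQ, not_le] at h3
    calc ∏ k, FF L m (i k) ≤ ∏ k, (nrm L / m * Real.exp (L / m) *
          Real.exp (-(L * (((i k : ℕ) : ℝ) / m)))) := by
          apply Finset.prod_le_prod
          · intro k _
            exact FF_nonneg hL.1 m _
          · intro k _
            exact FF_le hL.1 hm (Nat.lt_succ_iff.1 (i k).2)
      _ = ∏ k, ((m * rho L)⁻¹ * Real.exp (L / m) *
          Real.exp (-(L * (((i k : ℕ) : ℝ) / m - 1 / 3)))) := by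
          apply Finset.prod_congr rfl
          intro k _
          have h4 : Real.exp (-(L * (((i k : ℕ) : ℝ) / m))) =
              Real.exp (-(L / 3)) * Real.exp (-(L * (((i k : ℕ) : ℝ) / m - 1 / 3))) := by
            rw [← Real.exp_add]
            congr 1
            ring
          rw [h4, mul_inv, ← exp_neg_third_nrm hL.1]
          ring
      _ = (m * rho L)⁻¹ ^ d * Real.exp (L * d / m) *
          Real.exp (-(L * ∑ k, (((i k : ℕ) : ℝ) / m - 1 / 3))) := by
          rw [Finset.prod_mul_distrib, Finset.prod_const, Finset.card_univ, Fintype.card_fin,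
            mul_pow, ← Real.exp_nat_mul, ← Real.exp_sum, Finset.sum_neg_distrib, ← Finset.mul_sum]
          congr 3
          ring
      _ ≤ (m * rho L)⁻¹ ^ d * Real.exp (L * d / m) * Real.exp (5 / 2 * L * √d) := by
          apply mul_le_mul_of_nonneg_left _ (by positivity)
          apply Real.exp_le_exp.2
          have := hL.1
          nlinarith
  have h3 : ∑ i ∈ B with ¬ Q i, ∏ k, FF L m (i k) ≤
      (B.card : ℝ) * ((m * rho L)⁻¹ ^ d * Real.exp (L * d / m) * Real.exp (5 / 2 * L * √d)) := by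
    refine (Finset.sum_le_card_nsmul _ _ _ h2).trans ?_
    rw [nsmul_eq_mul]
    apply mul_le_mul_of_nonneg_right _ (by positivity)
    exact_mod_cast Finset.card_filter_le _ _
  have h4 := Finset.sum_filter_add_sum_filter_not B Q (fun i => ∏ k, FF L m (i k))
  have h5 : (1 : ℝ) / 6 ≤
      (B.card : ℝ) * ((m * rho L)⁻¹ ^ d * Real.exp (L * d / m) * Real.exp (5 / 2 * L * √d)) := by
    linarith
  have h6 : (0 : ℝ) < (m * rho L) ^ d * Real.exp (-(L * d / m)) * Real.exp (-(5 / 2 * L * √d)) := by
    positivity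
  have h7 := mul_le_mul_of_nonneg_right h5 h6.le
  have h8 : (B.card : ℝ) * ((m * rho L)⁻¹ ^ d * Real.exp (L * d / m) *
      Real.exp (5 / 2 * L * √d)) * ((m * rho L) ^ d * Real.exp (-(L * d / m)) *
      Real.exp (-(5 / 2 * L * √d))) = B.card := by
    have e1 : Real.exp (L * d / m) * Real.exp (-(L * d / m)) = 1 := by
      rw [← Real.exp_add]; simp
    have e2 : Real.exp (5 / 2 * L * √d) * Real.exp (-(5 / 2 * L * √d)) = 1 := by
      rw [← Real.exp_add]; simp
    have e3 : (m * rho L)⁻¹ ^ d * (m * rho L) ^ d = 1 := by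
      rw [← mul_pow, inv_mul_cancel₀ (by positivity), one_pow]
    calc _ = (B.card : ℝ) * ((m * rho L)⁻¹ ^ d * (m * rho L) ^ d) *
          (Real.exp (L * d / m) * Real.exp (-(L * d / m))) *
          (Real.exp (5 / 2 * L * √d) * Real.exp (-(5 / 2 * L * √d))) := by ring
      _ = _ := by rw [e1, e2, e3]; ring
  rw [h8] at h7
  calc _ = 1 / 6 * ((m * rho L) ^ d * Real.exp (-(L * d / m)) * Real.exp (-(5 / 2 * L * √d))) := by
        ring
    _ ≤ _ := h7

/-- Lower bound for the size of the complement of a sum-free set. -/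
theorem lower {L : ℝ} (hL : Opt L) {m : ℕ} (hm : 1 ≤ m) {d : ℕ} (hd : 1 ≤ d)
    {A : Finset (Fin d → ℕ)} (hsf : SumFree A) :
    1 / 6 * (m * rho L) ^ d * Real.exp (-(L * d / m)) * Real.exp (-(5 / 2 * L * √d)) ≤
      ((grid d (m + 2) \ A).card : ℝ) := by
  classical
  obtain ⟨Q, hQ0, hQ1, hQ2, hQ3⟩ := exists_coupling hL hm
  let F : Fin (m + 1) → ℝ := fun i => FF L m i
  let X : (Fin d → Fin (m + 1)) → (Fin d → ℕ) := fun i k => i k + 1
  let Z : (Fin d → Fin (m + 1)) → (Fin d → ℕ) := fun i k => m + 2 - i k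
  let p1 : (Fin d → Fin (m + 1)) → ℝ := fun i => if X i ∈ A then 0 else 1
  let p2 : (Fin d → Fin (m + 1)) → ℝ := fun i => if Z i ∈ A then 0 else 1
  have e1 := prod_marginal (d := d) Q F (fun τ : TT m => τ.1.1) hQ1 p1
  have e2 := prod_marginal (d := d) Q F (fun τ : TT m => τ.1.2.1) hQ2 p1
  have e3 := prod_marginal (d := d) Q F (fun τ : TT m => τ.1.2.2) hQ3 p2
  have e4 := prod_marginal (d := d) Q F (fun τ : TT m => τ.1.1) hQ1 (fun _ => 1)
  have e5 : ∑ i : Fin d → Fin (m + 1), (∏ k, F (i k)) * 1 = 1 := by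
    have h1 := prod_total (d := d) F (fun _ => 1)
    simp only [Finset.prod_const_one, mul_one] at h1 ⊢
    rw [h1]
    simp only [F]
    rw [FF_total hL hm, one_pow]
  rw [e5] at e4
  have h1 : ∑ ω : Fin d → TT m, (∏ k, Q (ω k)) * 1 ≤
      ∑ ω : Fin d → TT m, ((∏ k, Q (ω k)) * p1 (fun k => (ω k).1.1) +
        (∏ k, Q (ω k)) * p1 (fun k => (ω k).1.2.1) +
        (∏ k, Q (ω k)) * p2 (fun k => (ω k).1.2.2)) := by
    apply Finset.sum_le_sum
    intro ω _
    rw [← mul_add, ← mul_add]
    apply mul_le_mul_of_nonneg_left _ (Finset.prod_nonneg fun k _ => hQ0 _)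
    have h2 : X (fun k => (ω k).1.1) + X (fun k => (ω k).1.2.1) = Z (fun k => (ω k).1.2.2) := by
      funext k
      have h3 := (ω k).2
      have h4 := (ω k).1.2.2.2
      simp only [X, Z, Pi.add_apply]
      omega
    have h3 := fun hx hy hz => hsf _ hx _ hy _ hz h2
    simp only [p1, p2]
    split_ifs with hx hy hz <;> first | exact absurd hz (fun h => h3 hx hy h) | norm_num
  rw [Finset.sum_add_distrib, Finset.sum_add_distrib, e1, e2, e3, e4] at h1
  have hcase : 1 / 3 ≤ ∑ i, (∏ k, F (i k)) * p1 i ∨ 1 / 3 ≤ ∑ i, (∏ k, F (i k)) * p2 i := by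
    by_contra hcon
    push Not at hcon
    linarith [hcon.1, hcon.2]
  rcases hcase with h | h
  · have h2 : 1 / 3 ≤ ∑ i ∈ Finset.univ.filter (fun i => X i ∉ A), ∏ k, FF L m (i k) := by
      rw [Finset.sum_filter]
      refine h.trans (le_of_eq (Finset.sum_congr rfl fun i _ => ?_))
      simp only [p1, F]
      split_ifs <;> simp
    refine (card_of_weight hL hm hd _ h2).trans ?_
    have h3 : (Finset.univ.filter (fun i => X i ∉ A)).card ≤ (grid d (m + 2) \ A).card := by
      apply Finset.card_le_card_of_injOn X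
      · intro i hi
        have hi' : X i ∉ A := (Finset.mem_filter.1 (Finset.mem_coe.1 hi)).2
        rw [Finset.mem_coe, Finset.mem_sdiff]
        refine ⟨?_, hi'⟩
        rw [grid, Fintype.mem_piFinset]
        intro k
        have := (i k).2
        rw [Finset.mem_Icc]
        simp only [X]
        omega
      · intro i _ j _ hij
        funext k
        have := congrFun hij k
        simp only [X] at this
        exact Fin.ext (by omega)
    exact_mod_cast h3
  · have h2 : 1 / 3 ≤ ∑ i ∈ Finset.univ.filter (fun i => Z i ∉ A), ∏ k, FF L m (i k) := by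
      rw [Finset.sum_filter]
      refine h.trans (le_of_eq (Finset.sum_congr rfl fun i _ => ?_))
      simp only [p2, F]
      split_ifs <;> simp
    refine (card_of_weight hL hm hd _ h2).trans ?_
    have h3 : (Finset.univ.filter (fun i => Z i ∉ A)).card ≤ (grid d (m + 2) \ A).card := by
      apply Finset.card_le_card_of_injOn Z
      · intro i hi
        have hi' : Z i ∉ A := (Finset.mem_filter.1 (Finset.mem_coe.1 hi)).2
        rw [Finset.mem_coe, Finset.mem_sdiff]
        refine ⟨?_, hi'⟩
        rw [grid, Fintype.mem_piFinset]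
        intro k
        have := (i k).2
        rw [Finset.mem_Icc]
        simp only [Z]
        omega
      · intro i _ j _ hij
        funext k
        have := congrFun hij k
        have h5 := (i k).2
        have h6 := (j k).2
        simp only [Z] at this
        exact Fin.ext (by omega)
    exact_mod_cast h3

end Pool.Agent.Work.MP_0cd883_co
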