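import Mathlib

/-!
The chain lemma: missing points below a line with two contact points.
-/

set_option autoImplicit false

namespace Pool.Agent.Work.MP_0cd883_co.Plane

open Finset

/-- the integer grid `[N]²` -/
noncomputable def zgrid (N : ℤ) : Finset (ℤ × ℤ) := Icc 1 N ×ˢ Icc 1 N

theorem mem_zgrid {N : ℤ} {v : ℤ × ℤ} :
    v ∈ zgrid N ↔ 1 ≤ v.1 ∧ v.1 ≤ N ∧ 1 ≤ v.2 ∧ v.2 ≤ N := by
  simp only [zgrid, mem_product, mem_Icc]
  tauto

/-- the level of a point -/
def lev (e d : ℤ) (v : ℤ × ℤ) : ℤ := e * v.1 + d * v.2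

section Pair

variable {N d e c p1 p2 : ℤ} {A : Finset (ℤ × ℤ)}

/-- the number of steps to the left end of the chain -/
def steps (d : ℤ) (v : ℤ × ℤ) : ℤ := (v.1 - 1) / d

/-- the part of the chain to the left of `v` ends well -/
def Good (d e p2 : ℤ) (A : Finset (ℤ × ℤ)) (v : ℤ × ℤ) : Prop :=
  (∃ i : ℤ, 1 ≤ i ∧ i ≤ steps d v ∧ (v.1 - i * d, v.2 + i * e) ∉ A) ∨
    v.2 + steps d v * e < p2 - e

open Classical in
/-- the missing partner of a point of the chain -/
noncomputable def partner (d e p1 p2 : ℤ) (A : Finset (ℤ × ℤ)) (v : ℤ × ℤ) : ℤ × ℤ :=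
  if Good d e p2 A v then (p1 + d - v.1, p2 - e - v.2)
  else if v.1 < p1 then (p1 - v.1, p2 - v.2)
  else (2 * v.1 - steps d v * d, 2 * v.2 + steps d v * e)

theorem steps_spec (hd : 0 < d) {v : ℤ × ℤ} (hv : 1 ≤ v.1) :
    0 ≤ steps d v ∧ 1 ≤ v.1 - steps d v * d ∧ v.1 - steps d v * d ≤ d := by
  have h1 := Int.mul_ediv_add_emod (v.1 - 1) d
  have h2 := Int.emod_nonneg (v.1 - 1) hd.ne'
  have h3 := Int.emod_lt_of_pos (v.1 - 1) hd
  refine ⟨Int.ediv_nonneg (by omega) hd.le, ?_, ?_⟩
  · unfold steps; nlinarith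
  · unfold steps; nlinarith

/-- the hypotheses on the two contact points -/
structure Contact (N d e c p1 p2 : ℤ) (A : Finset (ℤ × ℤ)) : Prop where
  sub : A ⊆ zgrid N
  free : ∀ u ∈ A, ∀ v ∈ A, u + v ∉ A
  hd : 0 < d
  he : 0 < e
  hP : (p1, p2) ∈ A
  hQ : (p1 + d, p2 - e) ∈ A
  hc : e * p1 + d * p2 = c
  h1 : 2 * (e * p1) < c
  h2 : c < 2 * (e * (p1 + d))
  h3 : 4 * (d * e) < 3 * c

variable (h : Contact N d e c p1 p2 A)

include h

theorem Contact.P_pos : 1 ≤ p1 ∧ p1 ≤ N ∧ 1 ≤ p2 ∧ p2 ≤ N := mem_zgrid.1 (h.sub h.hP)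

theorem Contact.Q_pos : 1 ≤ p1 + d ∧ p1 + d ≤ N ∧ 1 ≤ p2 - e ∧ p2 - e ≤ N :=
  mem_zgrid.1 (h.sub h.hQ)

theorem Contact.c_pos : 0 < c := by
  have := h.P_pos
  have := h.he
  nlinarith [h.h1, mul_pos h.he (by omega : 0 < p1)]

theorem Contact.x_lt {v : ℤ × ℤ} (hy : 1 ≤ v.2) (hv : 2 * lev e d v ≤ c) : v.1 < p1 + d := by
  have h1 : 2 * (e * v.1) < 2 * (e * (p1 + d)) := by
    unfold lev at hv
    nlinarith [h.h2, mul_le_mul_of_nonneg_left hy h.hd.le, h.hd]
  exact lt_of_mul_lt_mul_left (by linarith : e * v.1 < e * (p1 + d)) h.he.le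

theorem Contact.y_lt {v : ℤ × ℤ} (hx : 1 ≤ v.1) (hv : 2 * lev e d v ≤ c) : v.2 < p2 := by
  have h1 : d * v.2 < d * p2 := by
    unfold lev at hv
    nlinarith [h.h1, h.hc, mul_le_mul_of_nonneg_left hx h.he.le, h.he]
  exact lt_of_mul_lt_mul_left h1 h.hd.le

/-- if `v` is not the left end of its chain, then `Q - v` is positive -/
theorem Contact.y_lt' {v : ℤ × ℤ} (hx : 1 ≤ v.1) (hv : 2 * lev e d v ≤ c)
    (hk : 1 ≤ steps d v) : v.2 < p2 - e := by
  obtain ⟨-, h1, -⟩ := steps_spec h.hd hx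
  have h2 : d ≤ steps d v * d := by nlinarith [h.hd]
  have h3 : 1 ≤ (v.1 - d, v.2 + e).1 := by
    show 1 ≤ v.1 - d
    linarith
  have h4 : 2 * lev e d (v.1 - d, v.2 + e) ≤ c := by
    unfold lev at hv ⊢
    show 2 * (e * (v.1 - d) + d * (v.2 + e)) ≤ c
    linarith
  have := h.y_lt h3 h4
  have h5 : (v.1 - d, v.2 + e).2 = v.2 + e := rfl
  rw [h5] at this
  linarith

theorem Contact.good_y {v : ℤ × ℤ} (hx : 1 ≤ v.1) (hv : 2 * lev e d v ≤ c)
    (hg : Good d e p2 A v) : v.2 < p2 - e := by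
  rcases hg with ⟨i, h1, h2, -⟩ | h1
  · exact h.y_lt' hx hv (h1.trans h2)
  · obtain ⟨h2, -, -⟩ := steps_spec h.hd hx
    nlinarith [mul_nonneg h2 h.he.le]

/-- the last case: the whole chain is in `A` -/
theorem Contact.bad {v : ℤ × ℤ} (hvA : v ∈ A) (hv : 2 * lev e d v ≤ c)
    (hg : ¬ Good d e p2 A v) (hx : p1 ≤ v.1) :
    c - (steps d v + 1) * (d * e) ≤ lev e d v ∧ steps d v * (d * e) < lev e d v ∧
      c < 4 * lev e d v ∧ (v.1 - steps d v * d, v.2 + steps d v * e) ∈ A ∧
      p2 - e ≤ v.2 + steps d v * e := by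
  have hvg := mem_zgrid.1 (h.sub hvA)
  obtain ⟨hk, h1, h2⟩ := steps_spec h.hd hvg.1
  unfold Good at hg
  push Not at hg
  obtain ⟨hg1, hg2⟩ := hg
  have h3 : (v.1 - steps d v * d, v.2 + steps d v * e) ∈ A := by
    rcases eq_or_lt_of_le hk with h4 | h4
    · rw [← h4]; simpa using hvA
    · exact hg1 _ (by omega) le_rfl
  have h4 : c - (steps d v + 1) * (d * e) ≤ lev e d v := by
    unfold lev
    nlinarith [mul_le_mul_of_nonneg_left hx h.he.le, mul_le_mul_of_nonneg_left hg2 h.hd.le, h.hc]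
  have h5 : steps d v * (d * e) < lev e d v := by
    unfold lev
    nlinarith [mul_le_mul_of_nonneg_left h1 h.he.le, mul_le_mul_of_nonneg_left hvg.2.2.1 h.hd.le,
      h.he, h.hd]
  refine ⟨h4, h5, ?_, h3, hg2⟩
  have hde : 0 < d * e := mul_pos h.hd h.he
  rcases eq_or_lt_of_le hk with h6 | h6
  · rw [← h6] at h4
    linarith [h.h3]
  · have h7 : d * e ≤ steps d v * (d * e) := by nlinarith
    nlinarith

/-- the partner is missing, in the grid, and its level -/
theorem Contact.partner_spec {v : ℤ × ℤ} (hvA : v ∈ A) (hv : 2 * lev e d v ≤ c) :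
    partner d e p1 p2 A v ∈ zgrid N ∧ partner d e p1 p2 A v ∉ A ∧
      (lev e d (partner d e p1 p2 A v) = c - lev e d v ∨
        (lev e d (partner d e p1 p2 A v) = 2 * lev e d v ∧ c < 4 * lev e d v)) := by
  have hvg := mem_zgrid.1 (h.sub hvA)
  have hP := h.P_pos
  have hQ := h.Q_pos
  by_cases hg : Good d e p2 A v
  · have h1 := h.good_y hvg.1 hv hg
    have h2 := h.x_lt hvg.2.2.1 hv
    have h3 : partner d e p1 p2 A v = (p1 + d - v.1, p2 - e - v.2) := by
      unfold partner; rw [if_pos hg]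
    rw [h3]
    refine ⟨mem_zgrid.2 ⟨by show 1 ≤ p1 + d - v.1; omega, by show p1 + d - v.1 ≤ N; omega,
      by show 1 ≤ p2 - e - v.2; omega, by show p2 - e - v.2 ≤ N; omega⟩, ?_, Or.inl ?_⟩
    · intro h4
      refine h.free _ h4 _ hvA ?_
      have h5 : (p1 + d - v.1, p2 - e - v.2) + v = (p1 + d, p2 - e) := by
        ext <;> simp
      rw [h5]; exact h.hQ
    · unfold lev
      show e * (p1 + d - v.1) + d * (p2 - e - v.2) = _
      linarith [h.hc]
  · by_cases hx : v.1 < p1
    · have h1 := h.y_lt hvg.1 hv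
      have h3 : partner d e p1 p2 A v = (p1 - v.1, p2 - v.2) := by
        unfold partner; rw [if_neg hg, if_pos hx]
      rw [h3]
      refine ⟨mem_zgrid.2 ⟨by show 1 ≤ p1 - v.1; omega, by show p1 - v.1 ≤ N; omega,
        by show 1 ≤ p2 - v.2; omega, by show p2 - v.2 ≤ N; omega⟩, ?_, Or.inl ?_⟩
      · intro h4
        refine h.free _ h4 _ hvA ?_
        have h5 : (p1 - v.1, p2 - v.2) + v = (p1, p2) := by
          ext <;> simp
        rw [h5]; exact h.hP
      · unfold lev
        show e * (p1 - v.1) + d * (p2 - v.2) = _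
        linarith [h.hc]
    · push Not at hx
      obtain ⟨h1, h2, h3, h4, h5⟩ := h.bad hvA hv hg hx
      obtain ⟨hk, h6, h7⟩ := steps_spec h.hd hvg.1
      have h8 : partner d e p1 p2 A v = (2 * v.1 - steps d v * d, 2 * v.2 + steps d v * e) := by
        unfold partner; rw [if_neg hg, if_neg (not_lt.2 hx)]
      have hlev : lev e d (2 * v.1 - steps d v * d, 2 * v.2 + steps d v * e) = 2 * lev e d v := by
        unfold lev
        show e * (2 * v.1 - steps d v * d) + d * (2 * v.2 + steps d v * e) = _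
        ring
      have h9 : p1 + 1 ≤ 2 * v.1 - steps d v * d := by linarith
      have h10 : p2 - e + 1 ≤ 2 * v.2 + steps d v * e := by linarith
      have h11 : 2 * v.1 - steps d v * d < p1 + d := by
        have h12 : e * (2 * v.1 - steps d v * d) < e * (p1 + d) := by
          have h13 : e * (2 * v.1 - steps d v * d) + d * (2 * v.2 + steps d v * e) =
            2 * lev e d v := hlev
          nlinarith [mul_le_mul_of_nonneg_left h10 h.hd.le, h.hc, h.hd]
        exact lt_of_mul_lt_mul_left h12 h.he.le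
      have h14 : 2 * v.2 + steps d v * e < p2 := by
        have h12 : d * (2 * v.2 + steps d v * e) < d * p2 := by
          have h13 : e * (2 * v.1 - steps d v * d) + d * (2 * v.2 + steps d v * e) =
            2 * lev e d v := hlev
          nlinarith [mul_le_mul_of_nonneg_left h9 h.he.le, h.hc, h.he]
        exact lt_of_mul_lt_mul_left h12 h.hd.le
      rw [h8]
      refine ⟨mem_zgrid.2 ⟨by show 1 ≤ 2 * v.1 - steps d v * d; omega,
        by show 2 * v.1 - steps d v * d ≤ N; omega, by show 1 ≤ 2 * v.2 + steps d v * e; omega,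
        by show 2 * v.2 + steps d v * e ≤ N; omega⟩, ?_, Or.inr ⟨hlev, h3⟩⟩
      intro h15
      refine h.free _ h4 _ hvA ?_
      have h16 : (v.1 - steps d v * d, v.2 + steps d v * e) + v =
          (2 * v.1 - steps d v * d, 2 * v.2 + steps d v * e) := by
        ext
        · show v.1 - steps d v * d + v.1 = _
          ring
        · show v.2 + steps d v * e + v.2 = _
          ring
      rw [h16]; exact h15

omit h in
theorem steps_add (hd : 0 < d) (v : ℤ × ℤ) : steps d (v.1 + d, v.2 - e) = steps d v + 1 := by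
  unfold steps
  have : (v.1 + d, v.2 - e).1 - 1 = (v.1 - 1) + 1 * d := by
    show v.1 + d - 1 = _
    ring
  rw [this, Int.add_mul_ediv_right _ _ hd.ne']

/-- the right neighbour of a bad point of `A` is bad -/
theorem Contact.not_good_next {w : ℤ × ℤ} (hwA : w ∈ A) (hw : ¬ Good d e p2 A w) :
    ¬ Good d e p2 A (w.1 + d, w.2 - e) := by
  intro hg
  apply hw
  rcases hg with ⟨i, h1, h2, h3⟩ | h1
  · rw [steps_add h.hd] at h2
    have h4 : ((w.1 + d, w.2 - e).1 - i * d, (w.1 + d, w.2 - e).2 + i * e) =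
        (w.1 - (i - 1) * d, w.2 + (i - 1) * e) := by
      ext
      · show w.1 + d - i * d = w.1 - (i - 1) * d
        ring
      · show w.2 - e + i * e = w.2 + (i - 1) * e
        ring
    rw [h4] at h3
    rcases eq_or_lt_of_le h1 with h5 | h5
    · rw [← h5] at h3
      exfalso
      apply h3
      have : (w.1 - (1 - 1) * d, w.2 + (1 - 1) * e) = w := by ext <;> simp
      rw [this]; exact hwA
    · exact Or.inl ⟨i - 1, by omega, by omega, h3⟩
  · rw [steps_add h.hd] at h1
    right
    have : (w.1 + d, w.2 - e).2 + (steps d w + 1) * e = w.2 + steps d w * e := by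
      show w.2 - e + (steps d w + 1) * e = _
      ring
    rw [this] at h1
    exact h1

theorem Contact.partner_inj {v w : ℤ × ℤ} (hvA : v ∈ A) (hwA : w ∈ A) (hv : 2 * lev e d v ≤ c)
    (hw : 2 * lev e d w ≤ c) (heq : partner d e p1 p2 A v = partner d e p1 p2 A w) : v = w := by
  have hvg := mem_zgrid.1 (h.sub hvA)
  have hwg := mem_zgrid.1 (h.sub hwA)
  -- the description of the partners
  have cases3 : ∀ u : ℤ × ℤ, (Good d e p2 A u ∧
      partner d e p1 p2 A u = (p1 + d - u.1, p2 - e - u.2)) ∨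
      (¬ Good d e p2 A u ∧ u.1 < p1 ∧ partner d e p1 p2 A u = (p1 - u.1, p2 - u.2)) ∨
      (¬ Good d e p2 A u ∧ p1 ≤ u.1 ∧
        partner d e p1 p2 A u = (2 * u.1 - steps d u * d, 2 * u.2 + steps d u * e)) := by
    intro u
    unfold partner
    by_cases hg : Good d e p2 A u
    · left; exact ⟨hg, by rw [if_pos hg]⟩
    · by_cases hx : u.1 < p1
      · right; left; exact ⟨hg, hx, by rw [if_neg hg, if_pos hx]⟩
      · right; right; exact ⟨hg, not_lt.1 hx, by rw [if_neg hg, if_neg hx]⟩
  have hGP : ∀ u t : ℤ × ℤ, t ∈ A → Good d e p2 A u → ¬ Good d e p2 A t →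
      (p1 + d - u.1, p2 - e - u.2) = (p1 - t.1, p2 - t.2) → False := by
    intro u t htA hu ht h1
    have h2 := (Prod.mk.inj h1).1
    have h3 := (Prod.mk.inj h1).2
    have h4 : u = (t.1 + d, t.2 - e) := by
      ext
      · show u.1 = t.1 + d
        omega
      · show u.2 = t.2 - e
        omega
    rw [h4] at hu
    exact h.not_good_next htA ht hu
  have hzG : ∀ u t : ℤ × ℤ, u ∈ A → 2 * lev e d u ≤ c → ¬ Good d e p2 A u → p1 ≤ u.1 →
      1 ≤ t.2 → (2 * u.1 - steps d u * d, 2 * u.2 + steps d u * e) =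
        (p1 + d - t.1, p2 - e - t.2) → False := by
    intro u t huA hu hg hx ht h1
    have hug := mem_zgrid.1 (h.sub huA)
    obtain ⟨-, -, -, -, h5⟩ := h.bad huA hu hg hx
    have h3 := (Prod.mk.inj h1).2
    linarith [hug.2.2.1]
  have hzP : ∀ u t : ℤ × ℤ, u ∈ A → p1 ≤ u.1 → 1 ≤ t.1 →
      (2 * u.1 - steps d u * d, 2 * u.2 + steps d u * e) = (p1 - t.1, p2 - t.2) → False := by
    intro u t huA hx ht h1
    have hug := mem_zgrid.1 (h.sub huA)
    obtain ⟨-, h6, -⟩ := steps_spec h.hd hug.1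
    have h3 := (Prod.mk.inj h1).1
    linarith
  rcases cases3 v with ⟨g1, e1⟩ | ⟨g1, x1, e1⟩ | ⟨g1, x1, e1⟩ <;>
    rcases cases3 w with ⟨g2, e2⟩ | ⟨g2, x2, e2⟩ | ⟨g2, x2, e2⟩ <;>
    rw [e1, e2] at heq
  · have h2 := (Prod.mk.inj heq).1
    have h3 := (Prod.mk.inj heq).2
    ext
    · omega
    · omega
  · exact (hGP v w hwA g1 g2 heq).elim
  · exact (hzG w v hwA hw g2 x2 hvg.2.2.1 heq.symm).elim
  · exact (hGP w v hvA g2 g1 heq.symm).elim
  · have h2 := (Prod.mk.inj heq).1
    have h3 := (Prod.mk.inj heq).2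
    ext
    · omega
    · omega
  · exact (hzP w v hwA x2 hvg.1 heq.symm).elim
  · exact (hzG v w hvA hv g1 x1 hwg.2.2.1 heq).elim
  · exact (hzP v w hvA x1 hwg.1 heq).elim
  · obtain ⟨a1, a2, -, -, -⟩ := h.bad hvA hv g1 x1
    obtain ⟨b1, b2, -, -, -⟩ := h.bad hwA hw g2 x2
    have h2 := (Prod.mk.inj heq).1
    have h3 := (Prod.mk.inj heq).2
    have hlev : lev e d v = lev e d w := by
      have h4 : e * (2 * v.1 - steps d v * d) + d * (2 * v.2 + steps d v * e) =
          e * (2 * w.1 - steps d w * d) + d * (2 * w.2 + steps d w * e) := by rw [h2, h3]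
      unfold lev
      linarith
    have hde : 0 < d * e := mul_pos h.hd h.he
    have hk1 : steps d w < steps d v + 1 := by
      have : steps d w * (d * e) < (steps d v + 1) * (d * e) := by linarith
      exact lt_of_mul_lt_mul_right this hde.le
    have hk2 : steps d v < steps d w + 1 := by
      have : steps d v * (d * e) < (steps d w + 1) * (d * e) := by linarith
      exact lt_of_mul_lt_mul_right this hde.le
    have hk : steps d v = steps d w := by omega
    rw [hk] at h2 h3
    ext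
    · omega
    · omega

omit h in
/-- the counting part of the chain lemma, from a partner map -/
theorem chain_of_partner (hsub : A ⊆ zgrid N) (hcpos : 0 < c)
    (hlevpos : ∀ v ∈ A, 0 < lev e d v) (φ : ℤ × ℤ → ℤ × ℤ)
    (hφ : ∀ v ∈ A, 2 * lev e d v ≤ c → φ v ∈ zgrid N ∧ φ v ∉ A ∧
      (lev e d (φ v) = c - lev e d v ∨ (lev e d (φ v) = 2 * lev e d v ∧ c < 4 * lev e d v)))
    (hinj : ∀ v ∈ A, ∀ w ∈ A, 2 * lev e d v ≤ c → 2 * lev e d w ≤ c → φ v = φ w → v = w) :
    2 * ((zgrid N).filter fun v => 2 * lev e d v < c).card +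
      ((zgrid N).filter fun v => 2 * lev e d v = c).card ≤
    2 * ((zgrid N).filter fun v => v ∉ A ∧ lev e d v ≤ c).card := by
  classical
  -- the six sets
  have hlow : ((zgrid N).filter fun v => 2 * lev e d v < c).card =
      ((zgrid N).filter fun v => v ∉ A ∧ 2 * lev e d v < c).card +
        (A.filter fun v => 2 * lev e d v < c).card := by
    rw [← card_filter_add_card_filter_not (s := (zgrid N).filter fun v => 2 * lev e d v < c)
      (fun v => v ∉ A), filter_filter, filter_filter]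
    congr 2
    · ext v; simp only [mem_filter]; tauto
    · ext v
      simp only [mem_filter, not_not]
      constructor
      · rintro ⟨-, h1, h2⟩; exact ⟨h2, h1⟩
      · rintro ⟨h1, h2⟩; exact ⟨hsub h1, h2, h1⟩
  have heq : ((zgrid N).filter fun v => 2 * lev e d v = c).card =
      ((zgrid N).filter fun v => v ∉ A ∧ 2 * lev e d v = c).card +
        (A.filter fun v => 2 * lev e d v = c).card := by
    rw [← card_filter_add_card_filter_not (s := (zgrid N).filter fun v => 2 * lev e d v = c)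
      (fun v => v ∉ A), filter_filter, filter_filter]
    congr 2
    · ext v; simp only [mem_filter]; tauto
    · ext v
      simp only [mem_filter, not_not]
      constructor
      · rintro ⟨-, h1, h2⟩; exact ⟨h2, h1⟩
      · rintro ⟨h1, h2⟩; exact ⟨hsub h1, h2, h1⟩
  -- the injections
  have hinj1 : (A.filter fun v => 2 * lev e d v < c).card ≤
      ((zgrid N).filter fun v => v ∉ A ∧ c < 2 * lev e d v ∧ lev e d v < c).card := by
    apply card_le_card_of_injOn φ
    · intro v hv
      simp only [coe_filter, Set.mem_ofPred_eq] at hv ⊢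
      obtain ⟨h1, h2, h3⟩ := hφ v hv.1 hv.2.le
      have hpos : 0 < lev e d v := hlevpos v hv.1
      refine ⟨h1, h2, ?_⟩
      rcases h3 with h3 | ⟨h3, h4⟩
      · rw [h3]; constructor <;> linarith [hv.2]
      · rw [h3]; constructor <;> linarith [hv.2]
    · intro v hv w hw hvw
      simp only [coe_filter, Set.mem_ofPred_eq] at hv hw
      exact hinj v hv.1 w hw.1 hv.2.le hw.2.le hvw
  have hinj2 : (A.filter fun v => 2 * lev e d v = c).card ≤
      ((zgrid N).filter fun v => v ∉ A ∧ (2 * lev e d v = c ∨ lev e d v = c)).card := by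
    apply card_le_card_of_injOn φ
    · intro v hv
      simp only [coe_filter, Set.mem_ofPred_eq] at hv ⊢
      obtain ⟨h1, h2, h3⟩ := hφ v hv.1 hv.2.le
      refine ⟨h1, h2, ?_⟩
      rcases h3 with h3 | ⟨h3, h4⟩
      · left; rw [h3]; linarith [hv.2]
      · right; rw [h3]; linarith [hv.2]
    · intro v hv w hw hvw
      simp only [coe_filter, Set.mem_ofPred_eq] at hv hw
      exact hinj v hv.1 w hw.1 hv.2.le hw.2.le hvw
  -- disjoint pieces of the missing set
  set B := (zgrid N).filter fun v => v ∉ A with hB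
  have r1 : ((zgrid N).filter fun v => v ∉ A ∧ 2 * lev e d v < c) =
      B.filter fun v => 2 * lev e d v < c := by rw [hB, filter_filter]
  have r2 : ((zgrid N).filter fun v => v ∉ A ∧ 2 * lev e d v = c) =
      B.filter fun v => 2 * lev e d v = c := by rw [hB, filter_filter]
  have r3 : ((zgrid N).filter fun v => v ∉ A ∧ c < 2 * lev e d v ∧ lev e d v < c) =
      B.filter fun v => c < 2 * lev e d v ∧ lev e d v < c := by rw [hB, filter_filter]
  have r4 : ((zgrid N).filter fun v => v ∉ A ∧ (2 * lev e d v = c ∨ lev e d v = c)) =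
      B.filter fun v => 2 * lev e d v = c ∨ lev e d v = c := by rw [hB, filter_filter]
  have r5 : ((zgrid N).filter fun v => v ∉ A ∧ lev e d v ≤ c) =
      B.filter fun v => lev e d v ≤ c := by rw [hB, filter_filter]
  have r6 : (B.filter fun v => 2 * lev e d v = c ∨ lev e d v = c).card =
      (B.filter fun v => 2 * lev e d v = c).card + (B.filter fun v => lev e d v = c).card := by
    rw [filter_or, card_union_of_disjoint]
    rw [disjoint_left]
    intro v h1 h2
    simp only [mem_filter] at h1 h2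
    linarith [h1.2, h2.2]
  have r7 : (B.filter fun v => lev e d v ≤ c).card =
      (B.filter fun v => 2 * lev e d v < c).card + (B.filter fun v => 2 * lev e d v = c).card +
        (B.filter fun v => c < 2 * lev e d v ∧ lev e d v < c).card +
        (B.filter fun v => lev e d v = c).card := by
    have : (B.filter fun v => lev e d v ≤ c) =
        (((B.filter fun v => 2 * lev e d v < c) ∪ (B.filter fun v => 2 * lev e d v = c)) ∪
          (B.filter fun v => c < 2 * lev e d v ∧ lev e d v < c)) ∪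
          (B.filter fun v => lev e d v = c) := by
      ext v
      simp only [mem_filter, mem_union]
      constructor
      · rintro ⟨h1, h2⟩
        rcases lt_trichotomy (2 * lev e d v) c with h3 | h3 | h3
        · exact Or.inl (Or.inl (Or.inl ⟨h1, h3⟩))
        · exact Or.inl (Or.inl (Or.inr ⟨h1, h3⟩))
        · rcases eq_or_lt_of_le h2 with h4 | h4
          · exact Or.inr ⟨h1, h4⟩
          · exact Or.inl (Or.inr ⟨h1, h3, h4⟩)
      · rintro (((⟨h1, h2⟩ | ⟨h1, h2⟩) | ⟨h1, h2, h3⟩) | ⟨h1, h2⟩)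
        · exact ⟨h1, by linarith⟩
        · exact ⟨h1, by linarith⟩
        · exact ⟨h1, h3.le⟩
        · exact ⟨h1, h2.le⟩
    rw [this, card_union_of_disjoint, card_union_of_disjoint, card_union_of_disjoint]
    · rw [disjoint_left]
      intro v h1 h2
      simp only [mem_filter] at h1 h2
      linarith [h1.2, h2.2]
    · rw [disjoint_left]
      intro v h1 h2
      simp only [mem_filter, mem_union] at h1 h2
      rcases h1 with h1 | h1 <;> linarith [h1.2, h2.2.1, h2.2.2]
    · rw [disjoint_left]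
      intro v h1 h2
      simp only [mem_filter, mem_union] at h1 h2
      rcases h1 with (h1 | h1) | h1
      · linarith [h1.2, h2.2]
      · linarith [h1.2, h2.2]
      · linarith [h1.2.1, h1.2.2, h2.2]
  rw [hlow, heq, r5, r7]
  rw [r1] at *
  rw [r2] at *
  rw [r3] at hinj1
  rw [r4, r6] at hinj2
  omega

/-- THE CHAIN LEMMA (two contact points) -/
theorem Contact.chain :
    2 * ((zgrid N).filter fun v => 2 * lev e d v < c).card +
      ((zgrid N).filter fun v => 2 * lev e d v = c).card ≤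
    2 * ((zgrid N).filter fun v => v ∉ A ∧ lev e d v ≤ c).card := by
  refine chain_of_partner h.sub h.c_pos ?_ (partner d e p1 p2 A)
    (fun v hv hv2 => h.partner_spec hv hv2) (fun v hv w hw hv2 hw2 => h.partner_inj hv hw hv2 hw2)
  intro v hv
  have hvg := mem_zgrid.1 (h.sub hv)
  unfold lev
  nlinarith [mul_pos h.he (by omega : 0 < v.1), mul_pos h.hd (by omega : 0 < v.2)]

end Pair

/-- THE CHAIN LEMMA (one contact point `(p1, p2)`, line `p2 x + p1 y = 2 p1 p2`) -/
theorem chain_single {N p1 p2 : ℤ} {A : Finset (ℤ × ℤ)} (hsub : A ⊆ zgrid N)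
    (hfree : ∀ u ∈ A, ∀ v ∈ A, u + v ∉ A) (hP : (p1, p2) ∈ A) :
    2 * ((zgrid N).filter fun v => 2 * lev p2 p1 v < 2 * (p1 * p2)).card +
      ((zgrid N).filter fun v => 2 * lev p2 p1 v = 2 * (p1 * p2)).card ≤
    2 * ((zgrid N).filter fun v => v ∉ A ∧ lev p2 p1 v ≤ 2 * (p1 * p2)).card := by
  obtain ⟨hp1, hp1N, hp2, hp2N⟩ := mem_zgrid.1 (hsub hP)
  simp only at hp1 hp1N hp2 hp2N
  refine chain_of_partner hsub (by positivity) ?_ (fun v => (p1 - v.1, p2 - v.2)) ?_ ?_
  · intro v hv
    have hvg := mem_zgrid.1 (hsub hv)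
    unfold lev
    nlinarith [mul_pos (by omega : 0 < p2) (by omega : 0 < v.1),
      mul_pos (by omega : 0 < p1) (by omega : 0 < v.2)]
  · intro v hv hv2
    have hvg := mem_zgrid.1 (hsub hv)
    have hx : v.1 < p1 := by
      have : p2 * v.1 < p2 * p1 := by
        unfold lev at hv2
        nlinarith [mul_pos (by omega : 0 < p1) (by omega : 0 < v.2)]
      exact lt_of_mul_lt_mul_left this (by omega)
    have hy : v.2 < p2 := by
      have : p1 * v.2 < p1 * p2 := by
        unfold lev at hv2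
        nlinarith [mul_pos (by omega : 0 < p2) (by omega : 0 < v.1)]
      exact lt_of_mul_lt_mul_left this (by omega)
    refine ⟨mem_zgrid.2 ⟨by show 1 ≤ p1 - v.1; omega, by show p1 - v.1 ≤ N; omega,
      by show 1 ≤ p2 - v.2; omega, by show p2 - v.2 ≤ N; omega⟩, ?_, Or.inl ?_⟩
    · intro h4
      refine hfree _ h4 _ hv ?_
      have h5 : (p1 - v.1, p2 - v.2) + v = (p1, p2) := by
        ext <;> simp
      rw [h5]; exact hP
    · unfold lev
      show p2 * (p1 - v.1) + p1 * (p2 - v.2) = _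
      ring
  · intro v _ w _ _ _ heq
    have h2 := (Prod.mk.inj heq).1
    have h3 := (Prod.mk.inj heq).2
    ext
    · omega
    · omega

end Pool.Agent.Work.MP_0cd883_co.Plane
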