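import Mathlib
import Pool.Agent.Work.MP_0cd883_co.PlaneChain

/-!
The lower count for lines of slope `-1`.
-/

set_option autoImplicit false

namespace Pool.Agent.Work.MP_0cd883_co.Plane

open Finset

/-- the number of points of the grid with `x + y ≤ k` -/
theorem card_diag (N : ℤ) (k : ℕ) (hk : (k : ℤ) ≤ N + 1) :
    2 * (((zgrid N).filter fun v => v.1 + v.2 ≤ (k : ℤ)).card : ℤ) = k * (k - 1) := by
  induction k with
  | zero =>
    have : (zgrid N).filter (fun v => v.1 + v.2 ≤ ((0 : ℕ) : ℤ)) = ∅ := by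
      apply filter_false_of_mem
      intro v hv
      rw [mem_zgrid] at hv
      push_cast
      omega
    rw [this]
    simp
  | succ k ih =>
    have h1 : (zgrid N).filter (fun v => v.1 + v.2 ≤ ((k + 1 : ℕ) : ℤ)) =
        (zgrid N).filter (fun v => v.1 + v.2 ≤ (k : ℤ)) ∪
          (Icc 1 (k : ℤ)).image (fun x => (x, (k : ℤ) + 1 - x)) := by
      ext ⟨x, y⟩
      simp only [mem_filter, mem_zgrid, mem_Icc, mem_union, mem_image, Prod.mk.injEq]
      push_cast at hk ⊢
      constructor
      · rintro ⟨h1, h2⟩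
        by_cases h : x + y ≤ k
        · exact Or.inl ⟨h1, h⟩
        · exact Or.inr ⟨⟨by omega, by omega⟩, by omega⟩
      · rintro (⟨h1, h2⟩ | ⟨z, h1, h2, h3⟩)
        · exact ⟨h1, by omega⟩
        · exact ⟨by omega, by omega⟩
    have h2 : Disjoint ((zgrid N).filter (fun v => v.1 + v.2 ≤ (k : ℤ)))
        ((Icc 1 (k : ℤ)).image (fun x => (x, (k : ℤ) + 1 - x))) := by
      rw [disjoint_left]
      rintro ⟨x, y⟩ h3 h4
      simp only [mem_filter] at h3
      simp only [mem_image, mem_Icc, Prod.mk.injEq] at h4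
      obtain ⟨z, h4, h5, h6⟩ := h4
      have := h3.2
      omega
    have h3 : ((Icc 1 (k : ℤ)).image (fun x => (x, (k : ℤ) + 1 - x))).card = k := by
      rw [card_image_of_injOn, Int.card_Icc]
      · omega
      · intro a _ b _ h
        exact (Prod.mk.inj h).1
    rw [h1, card_union_of_disjoint h2, h3]
    push_cast
    rw [mul_add, ih (by push_cast at hk; omega)]
    ring

/-- THE LOWER COUNT for lines of slope `-1` -/
theorem low_diag {N s : ℤ} (hs : 2 ≤ s) (hsN : s ≤ 2 * N) :
    (s - 2) ^ 2 - 1 ≤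
      4 * ((((zgrid N).filter fun v => 2 * (v.1 + v.2) < s).card : ℤ) +
        ((zgrid N).filter fun v => 2 * (v.1 + v.2) ≤ s).card) := by
  obtain ⟨a, ha⟩ : ∃ a : ℕ, (a : ℤ) = (s - 1) / 2 := ⟨((s - 1) / 2).toNat, by omega⟩
  obtain ⟨b, hb⟩ : ∃ b : ℕ, (b : ℤ) = s / 2 := ⟨(s / 2).toNat, by omega⟩
  have h1 : (zgrid N).filter (fun v => 2 * (v.1 + v.2) < s) =
      (zgrid N).filter (fun v => v.1 + v.2 ≤ (a : ℤ)) := by
    apply filter_congr
    intro v _
    rw [ha]
    omega
  have h2 : (zgrid N).filter (fun v => 2 * (v.1 + v.2) ≤ s) =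
      (zgrid N).filter (fun v => v.1 + v.2 ≤ (b : ℤ)) := by
    apply filter_congr
    intro v _
    rw [hb]
    omega
  have h3 := card_diag N a (by omega)
  have h4 := card_diag N b (by omega)
  rw [h1, h2]
  rcases Int.even_or_odd' s with ⟨m, rfl | rfl⟩
  · have h5 : (a : ℤ) = m - 1 := by omega
    have h6 : (b : ℤ) = m := by omega
    rw [h5] at h3
    rw [h6] at h4
    rw [h5, h6]
    nlinarith
  · have h5 : (a : ℤ) = m := by omega
    have h6 : (b : ℤ) = m := by omega
    rw [h5] at h3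
    rw [h6] at h4
    rw [h5, h6]
    nlinarith

/-- the same in terms of levels -/
theorem low_diag_lev {N d s : ℤ} (hd : 0 < d) (hs : 2 ≤ s) (hsN : s ≤ 2 * N) :
    (s - 2) ^ 2 - 1 ≤
      4 * ((((zgrid N).filter fun v => 2 * lev d d v < d * s).card : ℤ) +
        ((zgrid N).filter fun v => 2 * lev d d v ≤ d * s).card) := by
  have h1 : (zgrid N).filter (fun v => 2 * lev d d v < d * s) =
      (zgrid N).filter (fun v => 2 * (v.1 + v.2) < s) := by
    apply filter_congr
    intro v _
    have : 2 * lev d d v = d * (2 * (v.1 + v.2)) := by unfold lev; ring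
    rw [this]
    exact mul_lt_mul_iff_right₀ hd
  have h2 : (zgrid N).filter (fun v => 2 * lev d d v ≤ d * s) =
      (zgrid N).filter (fun v => 2 * (v.1 + v.2) ≤ s) := by
    apply filter_congr
    intro v _
    have : 2 * lev d d v = d * (2 * (v.1 + v.2)) := by unfold lev; ring
    rw [this]
    exact mul_le_mul_iff_right₀ hd
  rw [h1, h2]
  exact low_diag hs hsN

end Pool.Agent.Work.MP_0cd883_co.Plane
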