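import Pool.Agent.Work.MP_0cd883_co.PlaneFlatR
import Pool.Agent.Work.MP_0cd883_co.PlaneMain

/-!
Extremal sets have a supporting line of slope `-1`.
-/

namespace Pool.Agent.Work.MP_0cd883_co.Plane

open Finset

/-- the data used by the structure theorem -/
def FlatData (N : ℤ) (A : Finset (ℤ × ℤ)) (s : ℤ) : Prop :=
  N ≤ s ∧ s ≤ 2 * N ∧ (∀ v ∈ A, v.1 + v.2 ≤ s) ∧
    ((A.filter fun v => 2 * (v.1 + v.2) < s).card ≤
      ((zgrid N).filter fun v => v ∉ A ∧ s < 2 * (v.1 + v.2) ∧ v.1 + v.2 < s).card) ∧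
    ((A.filter fun v => 2 * (v.1 + v.2) = s).card ≤
      ((zgrid N).filter fun v => v ∉ A ∧ (2 * (v.1 + v.2) = s ∨ v.1 + v.2 = s)).card)

theorem sw_missing' {N : ℤ} (A : Finset (ℤ × ℤ)) :
    ((zgrid N).filter fun v => v ∉ sw A).card = ((zgrid N).filter fun v => v ∉ A).card := by
  refine card_bij (fun v _ => (v.2, v.1)) ?_ ?_ ?_
  · intro v hv
    rw [mem_filter, mem_zgrid] at hv ⊢
    exact ⟨⟨hv.1.2.2.1, hv.1.2.2.2, hv.1.1, hv.1.2.1⟩, fun h => hv.2 (mem_sw.2 h)⟩
  · intro u _ v _ h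
    simp only [Prod.mk.injEq] at h
    exact Prod.ext h.2 h.1
  · intro v hv
    rw [mem_filter, mem_zgrid] at hv
    refine ⟨(v.2, v.1), ?_, rfl⟩
    rw [mem_filter, mem_zgrid]
    exact ⟨⟨hv.1.2.2.1, hv.1.2.2.2, hv.1.1, hv.1.2.1⟩, fun h => hv.2 (mem_sw.1 h)⟩

theorem single_false {N p1 p2 : ℤ} {A : Finset (ℤ × ℤ)} (hN : 4 ≤ N) (hsub : A ⊆ zgrid N)
    (hfree : ∀ u ∈ A, ∀ v ∈ A, u + v ∉ A) (hP : (p1, p2) ∈ A)
    (hle : ∀ v ∈ A, lev p2 p1 v ≤ 2 * (p1 * p2)) (hed : p2 < p1)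
    (hE : 5 * (((zgrid N).filter fun v => v ∉ A).card : ℤ) ≤ 2 * N ^ 2 - 3 * N + 4) : False := by
  have hPz := mem_zgrid.1 (hsub hP)
  simp only at hPz
  by_cases h4 : N ≤ 2 * p2
  · exact single_strict hsub hfree hP hle hed h4 (by omega) (by omega) hE
  · have h := case4_gen_strict (d := p1) (e := p2) (c := 2 * (p1 * p2)) hsub hfree (by omega)
      (by omega) hP (by ring) hle (by linarith [mul_comm p1 p2]) (by
        have : 2 * (p1 * p2) = p1 * (2 * p2) := by ring
        rw [this]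
        exact mul_lt_mul_of_pos_left (by omega) (by omega))
    linarith

theorem pair_false {N d e c p1 p2 : ℤ} {A : Finset (ℤ × ℤ)} (hN : 4 ≤ N) (hsub : A ⊆ zgrid N)
    (hfree : ∀ u ∈ A, ∀ v ∈ A, u + v ∉ A) (hd : 0 < d) (he : 0 < e)
    (hP : (p1, p2) ∈ A) (hQ : (p1 + d, p2 - e) ∈ A) (hc : e * p1 + d * p2 = c)
    (hle : ∀ v ∈ A, lev e d v ≤ c) (h1 : 2 * (e * p1) < c) (h2 : c < 2 * (e * (p1 + d)))
    (hed : e < d)
    (hE : 5 * (((zgrid N).filter fun v => v ∉ A).card : ℤ) ≤ 2 * N ^ 2 - 3 * N + 4) : False := by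
  by_cases h4 : c < d * N
  · have := case4_strict hsub hfree hd he hQ hc hle h2 h4
    linarith
  by_cases h5 : 3 * c ≤ 4 * (d * e)
  · have := case5_strict hsub hfree hd he hP hQ hc hle h5
    linarith
  · exact pair_strict (N := N) (A := A) ⟨hsub, hfree, hd, he, hP, hQ, hc, h1, h2, by omega⟩ hle hed
      (by omega) (by omega) hE

theorem flat_data {N : ℤ} {A : Finset (ℤ × ℤ)} (hN : 4 ≤ N) (hsub : A ⊆ zgrid N)
    (hfree : ∀ u ∈ A, ∀ v ∈ A, u + v ∉ A)
    (hE : 5 * (((zgrid N).filter fun v => v ∉ A).card : ℤ) ≤ 2 * N ^ 2 - 3 * N + 4) :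
    ∃ s, FlatData N A s := by
  have hne : A.Nonempty := by
    by_contra hcon
    rw [not_nonempty_iff_eq_empty] at hcon
    subst hcon
    have h1 : ((zgrid N).filter fun v => v ∉ (∅ : Finset (ℤ × ℤ))) = zgrid N :=
      filter_true_of_mem fun v _ => notMem_empty v
    rw [h1, zgrid_card (by omega)] at hE
    nlinarith
  set A₀ : Finset (ℕ × ℕ) := A.image (fun v => (v.1.toNat, v.2.toNat)) with hA₀
  have hcast : ∀ v ∈ A, ((v.1.toNat : ℕ) : ℤ) = v.1 ∧ ((v.2.toNat : ℕ) : ℤ) = v.2 := by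
    intro v hv
    have := mem_zgrid.1 (hsub hv)
    exact ⟨Int.toNat_of_nonneg (by omega), Int.toNat_of_nonneg (by omega)⟩
  have hmem : ∀ v ∈ A, (v.1.toNat, v.2.toNat) ∈ A₀ := fun v hv =>
    mem_image_of_mem (fun v : ℤ × ℤ => (v.1.toNat, v.2.toNat)) hv
  have hmem' : ∀ w ∈ A₀, ((w.1 : ℤ), (w.2 : ℤ)) ∈ A := by
    intro w hw
    rw [hA₀, mem_image] at hw
    obtain ⟨v, hv, rfl⟩ := hw
    obtain ⟨e1, e2⟩ := hcast v hv
    simp only
    rw [e1, e2]
    exact hv
  have hne' : A₀.Nonempty := hne.image _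
  have hpos : ∀ w ∈ A₀, 1 ≤ w.1 ∧ 1 ≤ w.2 := by
    intro w hw
    have := mem_zgrid.1 (hsub (hmem' w hw))
    simp only at this
    omega
  rcases line_exists A₀ hne' hpos with ⟨P, hP, hle⟩ | ⟨P, hP, Q, hQ, d, e, c, hd, he, hx, hy, hc, hle, h1, h2⟩
  · obtain ⟨p1, hp1⟩ : ∃ p1 : ℤ, p1 = P.1 := ⟨_, rfl⟩
    obtain ⟨p2, hp2⟩ : ∃ p2 : ℤ, p2 = P.2 := ⟨_, rfl⟩
    have hPA : (p1, p2) ∈ A := by rw [hp1, hp2]; exact hmem' P hP
    have hle' : ∀ v ∈ A, lev p2 p1 v ≤ 2 * (p1 * p2) := by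
      intro v hv
      obtain ⟨e1, e2⟩ := hcast v hv
      have h := hle _ (hmem v hv)
      simp only at h
      have h' : (P.2 : ℤ) * (v.1.toNat : ℤ) + P.1 * (v.2.toNat : ℤ) ≤ 2 * P.1 * P.2 := by
        exact_mod_cast h
      rw [e1, e2, ← hp1, ← hp2] at h'
      unfold lev
      linarith
    have hPz := mem_zgrid.1 (hsub hPA)
    simp only at hPz
    rcases lt_trichotomy p2 p1 with hlt | heq | hgt
    · exact (single_false hN hsub hfree hPA hle' hlt hE).elim
    · subst heq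
      have hle2 : ∀ v ∈ A, v.1 + v.2 ≤ 2 * p2 := by
        intro v hv
        have h := hle' v hv
        unfold lev at h
        have h3 : p2 * (v.1 + v.2) ≤ p2 * (2 * p2) := by linarith
        exact le_of_mul_le_mul_left h3 (by omega)
      have hR := R_single hsub hfree hPA
      refine ⟨2 * p2, ?_, by omega, hle2, hR.1, hR.2⟩
      by_contra hcon
      have h := case4_gen_strict (d := p2) (e := p2) (c := 2 * (p2 * p2)) hsub hfree (by omega)
        (by omega) hPA (by ring) hle' (by linarith) (by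
          have : 2 * (p2 * p2) = p2 * (2 * p2) := by ring
          rw [this]
          exact mul_lt_mul_of_pos_left (by omega) (by omega))
      linarith
    · have hP' : (p2, p1) ∈ sw A := mem_sw.2 hPA
      have hle2 : ∀ v ∈ sw A, lev p1 p2 v ≤ 2 * (p2 * p1) := by
        rw [mul_comm p2 p1]
        exact sw_le hle'
      exact (single_false hN (sw_sub hsub) (sw_free hfree) hP' hle2 hgt
        (by rw [sw_missing']; exact hE)).elim
  · obtain ⟨p1, hp1⟩ : ∃ p1 : ℤ, p1 = P.1 := ⟨_, rfl⟩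
    obtain ⟨p2, hp2⟩ : ∃ p2 : ℤ, p2 = P.2 := ⟨_, rfl⟩
    obtain ⟨d', hd'⟩ : ∃ d' : ℤ, d' = d := ⟨_, rfl⟩
    obtain ⟨e', he'⟩ : ∃ e' : ℤ, e' = e := ⟨_, rfl⟩
    obtain ⟨c', hc'⟩ : ∃ c' : ℤ, c' = c := ⟨_, rfl⟩
    have hd0 : 0 < d' := by rw [hd']; exact_mod_cast hd
    have he0 : 0 < e' := by rw [he']; exact_mod_cast he
    have hPA : (p1, p2) ∈ A := by rw [hp1, hp2]; exact hmem' P hP
    have hQA : (p1 + d', p2 - e') ∈ A := by
      have := hmem' Q hQ
      have e1 : (Q.1 : ℤ) = p1 + d' := by rw [hp1, hd']; exact_mod_cast hx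
      have e2 : (Q.2 : ℤ) = p2 - e' := by
        have : (P.2 : ℤ) = Q.2 + e := by exact_mod_cast hy
        rw [hp2, he']
        linarith
      rwa [e1, e2] at this
    have hcc : e' * p1 + d' * p2 = c' := by
      rw [he', hp1, hd', hp2, hc']; exact_mod_cast hc
    have hle' : ∀ v ∈ A, lev e' d' v ≤ c' := by
      intro v hv
      obtain ⟨e1, e2⟩ := hcast v hv
      have h := hle _ (hmem v hv)
      simp only at h
      have h' : (e : ℤ) * (v.1.toNat : ℤ) + d * (v.2.toNat : ℤ) ≤ c := by exact_mod_cast h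
      rw [e1, e2, ← he', ← hd', ← hc'] at h'
      exact h'
    have h1' : 2 * (e' * p1) < c' := by
      have h' : 2 * (e : ℤ) * P.1 < c := by exact_mod_cast h1
      rw [he', hp1, hc']
      linarith
    have h2' : c' < 2 * (e' * (p1 + d')) := by
      have h' : (c : ℤ) < 2 * e * Q.1 := by exact_mod_cast h2
      have e1 : (Q.1 : ℤ) = P.1 + d := by exact_mod_cast hx
      rw [e1] at h'
      rw [he', hp1, hc', hd']
      linarith
    clear hle h1 h2 hc hx hy
    rcases lt_trichotomy e' d' with hlt | heq | hgt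
    · exact (pair_false hN hsub hfree hd0 he0 hPA hQA hcc hle' h1' h2' hlt hE).elim
    · subst heq
      obtain ⟨s, hs⟩ : ∃ s, s = p1 + p2 := ⟨_, rfl⟩
      have hcs : c' = e' * s := by rw [hs, ← hcc]; ring
      have hPz := mem_zgrid.1 (hsub hPA)
      simp only at hPz
      have hle2 : ∀ v ∈ A, v.1 + v.2 ≤ s := by
        intro v hv
        have h := hle' v hv
        unfold lev at h
        have h3 : e' * (v.1 + v.2) ≤ e' * s := by linarith
        exact le_of_mul_le_mul_left h3 he0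
      have h4 : ¬ c' < e' * N := by
        intro h4
        have := case4_strict hsub hfree hd0 he0 hQA hcc hle' h2' h4
        linarith
      have h5 : ¬ 3 * c' ≤ 4 * (e' * e') := by
        intro h5
        have := case5_strict hsub hfree hd0 he0 hPA hQA hcc hle' h5
        linarith
      have hsN : N ≤ s := by
        by_contra hcon
        apply h4
        rw [hcs]
        exact mul_lt_mul_of_pos_left (by omega) he0
      have hR := R_pair (N := N) (d := e') (s := s) (p1 := p1) (p2 := p2) (A := A)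
        (by rw [← hcs]; exact ⟨hsub, hfree, hd0, he0, hPA, hQA, hcc, h1', h2', by omega⟩)
      exact ⟨s, hsN, by omega, hle2, hR.1, hR.2⟩
    · have hP' : (p2 - e', p1 + d') ∈ sw A := mem_sw.2 hQA
      have hQ' : ((p2 - e') + e', (p1 + d') - d') ∈ sw A := by
        rw [mem_sw]
        simpa using hPA
      exact (pair_false (N := N) (d := e') (e := d') (c := c') hN (sw_sub hsub) (sw_free hfree)
        he0 hd0 hP' hQ' (by rw [← hcc]; ring) (sw_le hle') (by
          have e1 : 2 * (d' * (p2 - e')) = 2 * (d' * p2) - 2 * (d' * e') := by ring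
          have e2 : 2 * (e' * (p1 + d')) = 2 * (e' * p1) + 2 * (d' * e') := by ring
          rw [e2] at h2'
          rw [e1]
          linarith) (by
          have e1 : 2 * (d' * (p2 - e' + e')) = 2 * (d' * p2) := by ring
          rw [e1]
          linarith) hgt (by rw [sw_missing']; exact hE)).elim

end Pool.Agent.Work.MP_0cd883_co.Plane
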