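import Pool.Agent.Work.MP_0cd883_co.PlaneStrict

/-!
The structure of extremal sets when the line has slope `-1`.
-/

namespace Pool.Agent.Work.MP_0cd883_co.Plane

open Finset

/-- the slab `u ≤ x + y ≤ 2 u - 1` -/
noncomputable def zslab (N u : ℤ) : Finset (ℤ × ℤ) :=
  (zgrid N).filter fun v => u ≤ v.1 + v.2 ∧ v.1 + v.2 ≤ 2 * u - 1

theorem split5 (B : Finset (ℤ × ℤ)) {s : ℤ} (hs : 0 < s) :
    (B.card : ℤ) = (B.filter fun v => 2 * (v.1 + v.2) < s).card
      + (B.filter fun v => 2 * (v.1 + v.2) = s).card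
      + (B.filter fun v => s < 2 * (v.1 + v.2) ∧ v.1 + v.2 < s).card
      + (B.filter fun v => v.1 + v.2 = s).card
      + (B.filter fun v => s < v.1 + v.2).card := by
  have h1 : (B.card : ℤ) = ∑ v ∈ B, ((if 2 * (v.1 + v.2) < s then (1 : ℤ) else 0)
      + (if 2 * (v.1 + v.2) = s then 1 else 0)
      + (if s < 2 * (v.1 + v.2) ∧ v.1 + v.2 < s then 1 else 0)
      + (if v.1 + v.2 = s then 1 else 0) + (if s < v.1 + v.2 then 1 else 0)) := by
    rw [card_eq_sum_ones]
    push_cast
    refine sum_congr rfl fun v _ => ?_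
    split_ifs <;> omega
  rw [h1, sum_add_distrib, sum_add_distrib, sum_add_distrib, sum_add_distrib, sum_boole,
    sum_boole, sum_boole, sum_boole, sum_boole]

theorem split_grid {N : ℤ} {A : Finset (ℤ × ℤ)} (hsub : A ⊆ zgrid N) (p : ℤ × ℤ → Prop)
    [DecidablePred p] : (((zgrid N).filter p).card : ℤ)
      = (((zgrid N).filter fun v => v ∉ A).filter p).card + (A.filter p).card := by
  have h : (zgrid N).filter p = (((zgrid N).filter fun v => v ∉ A).filter p) ∪ A.filter p := by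
    ext v
    simp only [mem_filter, mem_union]
    constructor
    · rintro ⟨h1, h2⟩
      by_cases h3 : v ∈ A
      · exact Or.inr ⟨h3, h2⟩
      · exact Or.inl ⟨⟨h1, h3⟩, h2⟩
    · rintro (⟨⟨h1, -⟩, h2⟩ | ⟨h1, h2⟩)
      · exact ⟨h1, h2⟩
      · exact ⟨hsub h1, h2⟩
  rw [h, card_union_of_disjoint]
  · push_cast
    ring
  · rw [disjoint_left]
    intro v h1 h2
    exact (mem_filter.1 (mem_filter.1 h1).1).2 (mem_filter.1 h2).1

/-- the middle level has at least `u - 1` points -/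
theorem mid_level {N u : ℤ} (huN : u ≤ N + 1) :
    u - 1 ≤ (((zgrid N).filter fun v => 2 * (v.1 + v.2) = 2 * u).card : ℤ) := by
  have h : ((Icc 1 (u - 1)).image fun x => (x, u - x)) ⊆
      (zgrid N).filter fun v => 2 * (v.1 + v.2) = 2 * u := by
    intro v hv
    rw [mem_image] at hv
    obtain ⟨x, hx, rfl⟩ := hv
    rw [mem_Icc] at hx
    rw [mem_filter, mem_zgrid]
    simp only
    omega
  have h2 := card_le_card h
  rw [card_image_of_injOn (by
    intro a _ b _ hab
    exact (Prod.mk.inj hab).1), Int.card_Icc] at h2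
  omega

/-- two central points give one more missing point -/
theorem two_points {N s : ℤ} {A : Finset (ℤ × ℤ)} (hsub : A ⊆ zgrid N)
    (hfree : ∀ u ∈ A, ∀ v ∈ A, u + v ∉ A) {a b : ℤ} (ha : (a, s - a) ∈ A) (hb : (b, s - b) ∈ A)
    (hab : b < a) (h1 : 2 * a ≤ s + 2) (h2 : s - 2 ≤ 2 * b)
    (hne : 0 < (A.filter fun v => 2 * (v.1 + v.2) < s).card) :
    (A.filter fun v => 2 * (v.1 + v.2) < s).card + 1 ≤
      (((zgrid N).filter fun v => v ∉ A).filter
        fun v => s < 2 * (v.1 + v.2) ∧ v.1 + v.2 < s).card := by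
  classical
  set S := A.filter fun v => 2 * (v.1 + v.2) < s with hS
  have hSne : S.Nonempty := card_pos.1 hne
  obtain ⟨w, hw, hmax⟩ := exists_max_image S Prod.fst hSne
  have haz := mem_zgrid.1 (hsub ha)
  have hbz := mem_zgrid.1 (hsub hb)
  simp only at haz hbz
  have hmem : ∀ k : ℤ, (k, s - k) ∈ A → 2 * k ≤ s + 2 → s - 2 ≤ 2 * k → ∀ v ∈ S,
      (k - v.1, s - k - v.2) ∈ (((zgrid N).filter fun v => v ∉ A).filter
        fun v => s < 2 * (v.1 + v.2) ∧ v.1 + v.2 < s) := by
    intro k hk hk1 hk2 v hv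
    obtain ⟨hvA, hv2⟩ := mem_filter.1 hv
    have hvz := mem_zgrid.1 (hsub hvA)
    have hkz := mem_zgrid.1 (hsub hk)
    simp only at hkz
    rw [mem_filter, mem_filter, mem_zgrid]
    refine ⟨⟨?_, fun hcon => ?_⟩, ?_⟩
    · simp only; omega
    · refine hfree _ hcon _ hvA ?_
      have : (k - v.1, s - k - v.2) + v = (k, s - k) := by ext <;> simp
      rw [this]
      exact hk
    · simp only; omega
  have hsub2 : insert (b - w.1, s - b - w.2) (S.image fun v => (a - v.1, s - a - v.2)) ⊆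
      (((zgrid N).filter fun v => v ∉ A).filter
        fun v => s < 2 * (v.1 + v.2) ∧ v.1 + v.2 < s) := by
    intro v hv
    rw [mem_insert] at hv
    rcases hv with rfl | hv
    · exact hmem b hb (by omega) h2 w hw
    · rw [mem_image] at hv
      obtain ⟨t, ht, rfl⟩ := hv
      exact hmem a ha h1 (by omega) t ht
  have hc := card_le_card hsub2
  rw [card_insert_of_notMem, card_image_of_injOn] at hc
  · exact hc
  · intro x _ y _ hxy
    simp only [Prod.mk.injEq] at hxy
    ext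
    · linarith [hxy.1]
    · linarith [hxy.2]
  · rw [mem_image]
    rintro ⟨t, ht, hte⟩
    have := hmax t ht
    have h3 := (Prod.mk.inj hte).1
    omega

/-- number of points above the line `x + y = s` -/
theorem top_flat {N s : ℤ} (hN : 0 ≤ N) (hs1 : N ≤ s) (hs2 : s ≤ 2 * N) :
    (2 * N - s) ^ 2 + (2 * N - s) ≤ 2 * ((zgrid N).filter fun v => s < v.1 + v.2).card := by
  obtain ⟨n, rfl⟩ : ∃ n : ℕ, N = n := ⟨N.toNat, by rw [Int.toNat_of_nonneg hN]⟩
  have h := top_main n (e := 1) (d := 1) (c := s) (by norm_num) (by norm_num) (by linarith)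
    (by linarith) (by linarith)
  unfold Top at h
  simp only [one_mul] at h
  have e1 : ((1 : ℤ) + 1) * n - s = 2 * n - s := by ring
  rw [e1] at h
  linarith

theorem card_le_Icc {M : Finset ℤ} {a b : ℤ} (h : M ⊆ Icc a b) :
    (M.card : ℤ) ≤ max 0 (b + 1 - a) := by
  have h1 := card_le_card h
  rw [Int.card_Icc] at h1
  omega

open scoped Pointwise in
/-- a set of integers whose sums avoid an interval, up to `T` -/
theorem sums_avoid {N u a : ℤ} (M T : Finset ℤ)
    (hM : M ⊆ Icc 1 (u - 1)) (hT : ∀ x ∈ M, ∀ y ∈ M, a ≤ x + y → x + y ≤ N → x + y ∈ T) :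
    (M.card : ℤ) ≤ T.card + max 0 ((a - 1) / 2) ∨ (M.card : ℤ) ≤ T.card + max 0 (u - 1 - N / 2) ∨
      (M.card : ℤ) ≤ 2 * T.card + 1 + max 0 (a - 2 - N / 2) + max 0 ((a - 1) / 2 + u - 1 - N) := by
  classical
  set M1 := M.filter fun x => 2 * x < a with hM1
  set M2 := M.filter fun x => a ≤ 2 * x ∧ 2 * x ≤ N with hM2
  set M3 := M.filter fun x => N < 2 * x with hM3
  have hcard : (M.card : ℤ) ≤ M1.card + M2.card + M3.card := by
    have h : M ⊆ (M1 ∪ M2) ∪ M3 := by
      intro x hx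
      simp only [hM1, hM2, hM3, mem_union, mem_filter]
      by_cases h1 : 2 * x < a
      · exact Or.inl (Or.inl ⟨hx, h1⟩)
      · by_cases h2 : N < 2 * x
        · exact Or.inr ⟨hx, h2⟩
        · exact Or.inl (Or.inr ⟨hx, by omega, by omega⟩)
    have h2 := card_le_card h
    have h3 := card_union_le (M1 ∪ M2) M3
    have h4 := card_union_le M1 M2
    omega
  have h2 : M2.card ≤ T.card := by
    refine card_le_card_of_injOn (fun x => x + x) ?_ ?_
    · intro x hx
      obtain ⟨h1, h2, h3⟩ := mem_filter.1 (mem_coe.1 hx)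
      exact hT x h1 x h1 (by omega) (by omega)
    · intro x _ y _ hxy
      simp only at hxy
      omega
  have h1sub : M1 ⊆ Icc 1 ((a - 1) / 2) := by
    intro x hx
    obtain ⟨h1, h2⟩ := mem_filter.1 hx
    have := mem_Icc.1 (hM h1)
    rw [mem_Icc]
    omega
  have h3sub : M3 ⊆ Icc (N / 2 + 1) (u - 1) := by
    intro x hx
    obtain ⟨h1, h2⟩ := mem_filter.1 hx
    have := mem_Icc.1 (hM h1)
    rw [mem_Icc]
    omega
  have c1 := card_le_Icc h1sub
  have c3 := card_le_Icc h3sub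
  rcases M3.eq_empty_or_nonempty with h | hne3
  · left
    rw [h] at hcard
    simp only [card_empty] at hcard
    omega
  rcases M1.eq_empty_or_nonempty with h | hne1
  · right; left
    rw [h] at hcard
    simp only [card_empty] at hcard
    omega
  right; right
  have hcd := cauchy_davenport_add_of_linearOrder_isCancelAdd hne1 hne3
  have hsum : M1 + M3 ⊆ (Icc (N / 2 + 2) (a - 1) ∪ Icc (N + 1) ((a - 1) / 2 + u - 1)) ∪ T := by
    intro z hz
    rw [mem_add] at hz
    obtain ⟨x, hx, y, hy, rfl⟩ := hz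
    have hx1 := mem_Icc.1 (h1sub hx)
    have hy1 := mem_Icc.1 (h3sub hy)
    have hxM := (mem_filter.1 hx).1
    have hyM := (mem_filter.1 hy).1
    rw [mem_union, mem_union, mem_Icc, mem_Icc]
    by_cases e1 : x + y < a
    · left; left; omega
    · by_cases e2 : N < x + y
      · left; right; omega
      · right
        exact hT x hxM y hyM (by omega) (by omega)
  have hc := card_le_card hsum
  have hu1 := card_union_le (Icc (N / 2 + 2) (a - 1) ∪ Icc (N + 1) ((a - 1) / 2 + u - 1)) T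
  have hu2 := card_union_le (Icc (N / 2 + 2) (a - 1)) (Icc (N + 1) ((a - 1) / 2 + u - 1))
  rw [Int.card_Icc, Int.card_Icc] at hu2
  omega

theorem sq_le_twenty {x : ℤ} (h : x ^ 2 ≤ 20) : -4 ≤ x ∧ x ≤ 4 := by
  constructor <;> nlinarith

theorem sq_le_tf {x : ℤ} (h : x ^ 2 ≤ 25) : -5 ≤ x ∧ x ≤ 5 := by
  constructor <;> nlinarith

/-- the two possibilities for an extremal set with a line of slope `-1` -/
theorem flat_core {N s : ℤ} {A : Finset (ℤ × ℤ)} (hN : 4 ≤ N) (hsub : A ⊆ zgrid N)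
    (hfree : ∀ u ∈ A, ∀ v ∈ A, u + v ∉ A) (hle : ∀ v ∈ A, v.1 + v.2 ≤ s) (hs1 : N ≤ s)
    (hs2 : s ≤ 2 * N)
    (R1 : (A.filter fun v => 2 * (v.1 + v.2) < s).card ≤
      ((zgrid N).filter fun v => v ∉ A ∧ s < 2 * (v.1 + v.2) ∧ v.1 + v.2 < s).card)
    (R2 : (A.filter fun v => 2 * (v.1 + v.2) = s).card ≤
      ((zgrid N).filter fun v => v ∉ A ∧ (2 * (v.1 + v.2) = s ∨ v.1 + v.2 = s)).card)
    (hE : 5 * (((zgrid N).filter fun v => v ∉ A).card : ℤ) ≤ 2 * N ^ 2 - 3 * N + 4) :
    ∃ ρ : ℤ, ρ ≤ 3 ∧ ((N % 5 = 0 ∨ N % 5 = 4) → ρ ≤ 0) ∧ ((N % 5 = 1 ∨ N % 5 = 3) → ρ ≤ 1) ∧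
      ((∃ u, s = 2 * u - 1 ∧ A = zslab N u ∧ (5 * s - 8 * N - 4) ^ 2 ≤ 8 * ρ + 1) ∨
      (∃ u, s = 2 * u ∧ (∀ v ∈ A, u ≤ v.1 + v.2) ∧
        (∀ v ∈ zgrid N, u < v.1 + v.2 → v.1 + v.2 < 2 * u → v ∈ A) ∧
        ∃ M T : Finset ℤ, (T.card : ℤ) ≤ 1 ∧
          (5 * s - 8 * N - 4) ^ 2 + 4 + 20 * T.card ≤ 8 * ρ ∧
          5 * ((2 * N - s) ^ 2 + (2 * N - s)) + 5 * (u * (u - 1)) + 10 * T.card
            - 2 * (2 * N ^ 2 - 3 * N + ρ) ≤ 10 * M.card ∧
          M ⊆ Icc 1 (u - 1) ∧ (∀ x ∈ Icc 1 (u - 1), (x ∈ M ↔ (x, u - x) ∈ A)) ∧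
          T ⊆ Icc (s - N) N ∧ (∀ x ∈ Icc (s - N) N, (x ∈ T ↔ (x, s - x) ∉ A)) ∧
          (∀ x ∈ M, ∀ y ∈ M, s - N ≤ x + y → x + y ≤ N → x + y ∈ T))) := by
  classical
  obtain ⟨hr1, hr2, hr3⟩ := rho_le hE
  set B := (zgrid N).filter fun v => v ∉ A with hB
  obtain ⟨ρ, hρ⟩ : ∃ ρ : ℤ, ρ = 5 * (B.card : ℤ) - (2 * N ^ 2 - 3 * N) := ⟨_, rfl⟩
  refine ⟨ρ, by linarith, fun h => by linarith [hr2 h], fun h => by linarith [hr3 h], ?_⟩
  have hsp := split5 B (by linarith : 0 < s)
  have hg1 := split_grid hsub (fun v => 2 * (v.1 + v.2) < s)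
  have hg2 := split_grid hsub (fun v => 2 * (v.1 + v.2) = s)
  have hg5 := split_grid hsub (fun v => s < v.1 + v.2)
  have hA5 : A.filter (fun v => s < v.1 + v.2) = ∅ := by
    apply filter_false_of_mem
    intro v hv
    have := hle v hv
    omega
  rw [hA5, card_empty, Nat.cast_zero, add_zero] at hg5
  rw [← hB] at hg1 hg2 hg5
  have hR1 : (A.filter fun v => 2 * (v.1 + v.2) < s).card ≤
      (B.filter fun v => s < 2 * (v.1 + v.2) ∧ v.1 + v.2 < s).card := by
    rw [hB, filter_filter]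
    exact R1
  have hR2 : (A.filter fun v => 2 * (v.1 + v.2) = s).card ≤
      (B.filter fun v => 2 * (v.1 + v.2) = s).card + (B.filter fun v => v.1 + v.2 = s).card := by
    refine R2.trans ?_
    have : ((zgrid N).filter fun v => v ∉ A ∧ (2 * (v.1 + v.2) = s ∨ v.1 + v.2 = s))
        = (B.filter fun v => 2 * (v.1 + v.2) = s) ∪ (B.filter fun v => v.1 + v.2 = s) := by
      rw [← filter_or, hB, filter_filter]
    rw [this]
    exact card_union_le _ _
  have htop := top_flat (by linarith) hs1 hs2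
  have hlow : (s - 2) ^ 2 - 1 ≤ 4 * ((((zgrid N).filter fun v => 2 * (v.1 + v.2) < s).card : ℤ)
      + ((zgrid N).filter fun v => 2 * (v.1 + v.2) ≤ s).card) := by
    obtain ⟨n, hn⟩ : ∃ n : ℕ, N = n := ⟨N.toNat, by rw [Int.toNat_of_nonneg (by omega)]⟩
    rw [hn]
    exact low_diag n (by rw [← hn]; exact hs2) (by linarith)
  have hle2 : (((zgrid N).filter fun v => 2 * (v.1 + v.2) ≤ s).card : ℤ)
      = ((zgrid N).filter fun v => 2 * (v.1 + v.2) < s).card
        + ((zgrid N).filter fun v => 2 * (v.1 + v.2) = s).card := by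
    have : ((zgrid N).filter fun v => 2 * (v.1 + v.2) ≤ s)
        = ((zgrid N).filter fun v => 2 * (v.1 + v.2) < s)
          ∪ ((zgrid N).filter fun v => 2 * (v.1 + v.2) = s) := by
      rw [← filter_or]
      apply filter_congr
      intro v _
      exact le_iff_lt_or_eq
    rw [this, card_union_of_disjoint]
    · push_cast; ring
    · rw [disjoint_left]
      intro v h1 h2
      have e1 := (mem_filter.1 h1).2
      have e2 := (mem_filter.1 h2).2
      omega
  rw [hle2] at hlow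
  have hid : 5 * (4 * ((2 * N - s) ^ 2 + (2 * N - s)) + (s - 2) ^ 2)
        - 8 * (2 * N ^ 2 - 3 * N) = (5 * s - 8 * N - 4) ^ 2 + 4 := by ring
  have hsq := sq_nonneg (5 * s - 8 * N - 4)
  -- abbreviations
  set b1 := (B.filter fun v => 2 * (v.1 + v.2) < s).card with hb1
  set b2 := (B.filter fun v => 2 * (v.1 + v.2) = s).card with hb2
  set b3 := (B.filter fun v => s < 2 * (v.1 + v.2) ∧ v.1 + v.2 < s).card with hb3
  set b4 := (B.filter fun v => v.1 + v.2 = s).card with hb4
  set b5 := (B.filter fun v => s < v.1 + v.2).card with hb5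
  set a1 := (A.filter fun v => 2 * (v.1 + v.2) < s).card with ha1
  set a2 := (A.filter fun v => 2 * (v.1 + v.2) = s).card with ha2
  rw [hg1, hg2] at hlow
  rw [hg5] at htop
  rcases Int.even_or_odd s with ⟨u, hu⟩ | ⟨t, ht⟩
  · right
    have hsu : s = 2 * u := by omega
    obtain ⟨X, hX⟩ : ∃ X : ℤ, X = (u - 1) ^ 2 := ⟨_, rfl⟩
    have hX4 : (s - 2) ^ 2 = 4 * X := by rw [hX, hsu]; ring
    rw [hX4] at hlow hid
    have hmidl := mid_level (N := N) (u := u) (by linarith)
    rw [← hsu, hg2] at hmidl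
    have hlow' : X ≤ 2 * ((b1 : ℤ) + a1) + (b2 + a2) := by omega
    have hmain : (5 * s - 8 * N - 4) ^ 2 + 4 + 40 * ((b3 : ℤ) - a1) + 20 * b4 ≤ 8 * ρ := by
      have hR1' : (a1 : ℤ) ≤ b3 := by exact_mod_cast hR1
      have hR2' : (a2 : ℤ) ≤ b2 + b4 := by exact_mod_cast hR2
      rw [hρ]
      rw [hsp]
      linarith
    have hb3a1 : b3 = a1 := by omega
    have hb41 : b4 ≤ 1 := by omega
    have hb3a1' : (0 : ℤ) ≤ (b3 : ℤ) - a1 := by
      have hR1' : (a1 : ℤ) ≤ b3 := by exact_mod_cast hR1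
      linarith
    have hb4n : (0 : ℤ) ≤ b4 := by positivity
    have hN6 : 6 ≤ N := by
      by_contra hcon
      have := hr2 (by omega)
      linarith
    have hsq20 : (5 * s - 8 * N - 4) ^ 2 ≤ 20 := by linarith
    obtain ⟨q1, q2⟩ := sq_le_twenty hsq20
    have huN : u < N := by omega
    have hus : 3 ≤ u := by omega
    -- missing central points
    have hcen : ∀ k : ℤ, 2 * k ≤ s + 2 → s - 2 ≤ 2 * k → (k, s - k) ∉ A →
        (k, s - k) ∈ B.filter fun v => v.1 + v.2 = s := by
      intro k hk1 hk2 hk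
      rw [mem_filter, hB, mem_filter, mem_zgrid]
      simp only
      refine ⟨⟨?_, hk⟩, ?_⟩ <;> omega
    have htwo : ∀ x y : ℤ, x < y → 2 * y ≤ s + 2 → s - 2 ≤ 2 * x → (x, s - x) ∉ A →
        (y, s - y) ∉ A → False := by
      intro x y hxy hy hx hxA hyA
      have h : ({(x, s - x), (y, s - y)} : Finset (ℤ × ℤ)) ⊆ B.filter fun v => v.1 + v.2 = s := by
        intro v hv
        rw [mem_insert, mem_singleton] at hv
        rcases hv with rfl | rfl
        · exact hcen x (by omega) hx hxA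
        · exact hcen y hy (by omega) hyA
      have h2 := card_le_card h
      rw [card_pair (by
        intro h3
        have := (Prod.mk.inj h3).1
        omega)] at h2
      omega
    have ha10 : a1 = 0 := by
      by_contra hne
      have hpos : 0 < a1 := Nat.pos_of_ne_zero hne
      have h2p : ∀ x y : ℤ, x < y → 2 * y ≤ s + 2 → s - 2 ≤ 2 * x → (x, s - x) ∈ A →
          (y, s - y) ∈ A → False := by
        intro x y hxy hy hx hxA hyA
        have := two_points hsub hfree hyA hxA hxy hy hx hpos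
        rw [← hB] at this
        omega
      by_cases k0 : (u, s - u) ∈ A
      · by_cases k1 : (u + 1, s - (u + 1)) ∈ A
        · exact h2p u (u + 1) (by omega) (by omega) (by omega) k0 k1
        · by_cases k2 : (u - 1, s - (u - 1)) ∈ A
          · exact h2p (u - 1) u (by omega) (by omega) (by omega) k2 k0
          · exact htwo (u - 1) (u + 1) (by omega) (by omega) (by omega) k2 k1
      · by_cases k1 : (u + 1, s - (u + 1)) ∈ A
        · by_cases k2 : (u - 1, s - (u - 1)) ∈ A
          · exact h2p (u - 1) (u + 1) (by omega) (by omega) (by omega) k2 k1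
          · exact htwo (u - 1) u (by omega) (by omega) (by omega) k2 k0
        · exact htwo u (u + 1) (by omega) (by omega) (by omega) k0 k1
    have hb30 : b3 = 0 := by omega
    have hB3 := card_eq_zero.1 (hb3.symm.trans hb30)
    have hA1 := card_eq_zero.1 (ha1.symm.trans ha10)
    refine ⟨u, hsu, ?_, ?_, ?_⟩
    · intro v hv
      by_contra hcon
      have : v ∈ A.filter fun v => 2 * (v.1 + v.2) < s := mem_filter.2 ⟨hv, by omega⟩
      rw [hA1] at this
      simp at this
    · intro v hv h1 h2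
      by_contra hcon
      have : v ∈ B.filter fun v => s < 2 * (v.1 + v.2) ∧ v.1 + v.2 < s :=
        mem_filter.2 ⟨mem_filter.2 ⟨hv, hcon⟩, by omega, by omega⟩
      rw [hB3] at this
      simp at this
    · refine ⟨(Icc 1 (u - 1)).filter fun x => (x, u - x) ∈ A,
        (Icc (s - N) N).filter fun x => (x, s - x) ∉ A, ?_⟩
      have hMc : ((Icc 1 (u - 1)).filter fun x => (x, u - x) ∈ A).card = a2 := by
        rw [ha2]
        refine card_bij (fun x _ => (x, u - x)) ?_ ?_ ?_
        · intro x hx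
          rw [mem_filter, mem_Icc] at hx
          rw [mem_filter]
          exact ⟨hx.2, by simp only; omega⟩
        · intro x _ y _ hxy
          exact (Prod.mk.inj hxy).1
        · intro v hv
          obtain ⟨h1, h2⟩ := mem_filter.1 hv
          have hvz := mem_zgrid.1 (hsub h1)
          have hv2 : v = (v.1, u - v.1) := by
            ext
            · rfl
            · simp only; omega
          refine ⟨v.1, ?_, hv2.symm⟩
          rw [mem_filter, mem_Icc]
          exact ⟨by omega, by rw [← hv2]; exact h1⟩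
      have hTc : ((Icc (s - N) N).filter fun x => (x, s - x) ∉ A).card = b4 := by
        rw [hb4]
        refine card_bij (fun x _ => (x, s - x)) ?_ ?_ ?_
        · intro x hx
          rw [mem_filter, mem_Icc] at hx
          rw [mem_filter, hB, mem_filter, mem_zgrid]
          refine ⟨⟨?_, hx.2⟩, by simp only; omega⟩
          simp only; omega
        · intro x _ y _ hxy
          exact (Prod.mk.inj hxy).1
        · intro v hv
          obtain ⟨h1, h2⟩ := mem_filter.1 hv
          obtain ⟨h3, h4⟩ := mem_filter.1 h1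
          have hvz := mem_zgrid.1 h3
          have hv2 : v = (v.1, s - v.1) := by
            ext
            · rfl
            · simp only; omega
          refine ⟨v.1, ?_, hv2.symm⟩
          rw [mem_filter, mem_Icc]
          exact ⟨by omega, by rw [← hv2]; exact h4⟩
      rw [hMc, hTc]
      refine ⟨by exact_mod_cast hb41, ?_, ?_, filter_subset _ _, ?_, filter_subset _ _, ?_, ?_⟩
      · have : (b3 : ℤ) - a1 = 0 := by rw [hb30, ha10]; simp
        rw [this] at hmain
        linarith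
      · have e1 : (a1 : ℤ) = 0 := by rw [ha10]; simp
        have e3 : (b3 : ℤ) = 0 := by rw [hb30]; simp
        have e4 : u * (u - 1) = X + (u - 1) := by rw [hX]; ring
        rw [e4, hρ, hsp, e3]
        rw [e1] at hlow'
        linarith
      · intro x hx
        rw [mem_filter]
        exact ⟨fun h => h.2, fun h => ⟨hx, h⟩⟩
      · intro x hx
        rw [mem_filter]
        exact ⟨fun h => h.2, fun h => ⟨hx, h⟩⟩
      · intro x hx y hy h1 h2
        rw [mem_filter, mem_Icc] at hx hy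
        rw [mem_filter, mem_Icc]
        refine ⟨⟨h1, h2⟩, fun hcon => ?_⟩
        refine hfree _ hx.2 _ hy.2 ?_
        have : ((x, u - x) : ℤ × ℤ) + (y, u - y) = (x + y, s - (x + y)) := by
          ext
          · rfl
          · simp only [Prod.snd_add]; omega
        rw [this]
        exact hcon
  · left
    obtain ⟨u, hu⟩ : ∃ u, u = t + 1 := ⟨_, rfl⟩
    have hsu : s = 2 * u - 1 := by omega
    have hZ2 : ∀ v : ℤ × ℤ, 2 * (v.1 + v.2) ≠ s := fun v => by omega
    have hb20 : b2 = 0 := by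
      rw [hb2, card_eq_zero]
      exact filter_false_of_mem fun v _ => hZ2 v
    have ha20 : a2 = 0 := by
      rw [ha2, card_eq_zero]
      exact filter_false_of_mem fun v _ => hZ2 v
    have e2 : (b2 : ℤ) = 0 := by rw [hb20]; simp
    have e2' : (a2 : ℤ) = 0 := by rw [ha20]; simp
    have hR1' : (a1 : ℤ) ≤ b3 := by exact_mod_cast hR1
    have hmain : (5 * s - 8 * N - 4) ^ 2 - 1 + 40 * ((b3 : ℤ) - a1) + 40 * b4 ≤ 8 * ρ := by
      rw [hρ, hsp, e2]
      rw [e2, e2'] at hlow
      linarith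
    have hρ3 : ρ ≤ 3 := by linarith
    have hb3a1 : b3 = a1 := by omega
    have hb40 : b4 = 0 := by omega
    have hsq2 : (5 * s - 8 * N - 4) ^ 2 ≤ 25 := by
      have : (0 : ℤ) ≤ b4 := by positivity
      linarith
    have huN : u ≤ N := by omega
    obtain ⟨q1, q2⟩ := sq_le_tf hsq2
    have hus : 2 ≤ u := by omega
    have hB4 := card_eq_zero.1 (hb4.symm.trans hb40)
    have hcen : ∀ k : ℤ, s - N ≤ k → k ≤ N → 1 ≤ k → 1 ≤ s - k → (k, s - k) ∈ A := by
      intro k hk1 hk2 hk3 hk4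
      by_contra hcon
      have : (k, s - k) ∈ B.filter fun v => v.1 + v.2 = s := by
        rw [mem_filter, hB, mem_filter, mem_zgrid]
        simp only
        refine ⟨⟨?_, hcon⟩, ?_⟩ <;> omega
      rw [hB4] at this
      simp at this
    have ha10 : a1 = 0 := by
      by_contra hne
      have hpos : 0 < a1 := Nat.pos_of_ne_zero hne
      have := two_points hsub hfree (a := u) (b := u - 1) (hcen u (by omega) (by omega) (by omega)
        (by omega)) (hcen (u - 1) (by omega) (by omega) (by omega) (by omega)) (by omega)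
        (by omega) (by omega) hpos
      rw [← hB] at this
      omega
    have hb30 : b3 = 0 := by omega
    have hB3 := card_eq_zero.1 (hb3.symm.trans hb30)
    have hA1 := card_eq_zero.1 (ha1.symm.trans ha10)
    refine ⟨u, hsu, ?_, ?_⟩
    · ext v
      unfold zslab
      rw [mem_filter]
      constructor
      · intro hv
        refine ⟨hsub hv, ?_, by linarith [hle v hv]⟩
        by_contra hcon
        have : v ∈ A.filter fun v => 2 * (v.1 + v.2) < s := mem_filter.2 ⟨hv, by omega⟩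
        rw [hA1] at this
        simp at this
      · rintro ⟨h1, h2, h3⟩
        by_contra hcon
        by_cases h4 : v.1 + v.2 = s
        · have : v ∈ B.filter fun v => v.1 + v.2 = s := mem_filter.2 ⟨mem_filter.2 ⟨h1, hcon⟩, h4⟩
          rw [hB4] at this
          simp at this
        · have : v ∈ B.filter fun v => s < 2 * (v.1 + v.2) ∧ v.1 + v.2 < s :=
            mem_filter.2 ⟨mem_filter.2 ⟨h1, hcon⟩, by omega, by omega⟩
          rw [hB3] at this
          simp at this
    · have : (0 : ℤ) ≤ b4 := by positivity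
      linarith

theorem sq_le_bd {x b : ℤ} (hb : 0 ≤ b) (h : x ^ 2 ≤ b ^ 2) : -b ≤ x ∧ x ≤ b :=
  abs_le.1 (abs_le_of_sq_le_sq h hb)

/-- extremal sets with a line of slope `-1`, `N ≥ 4`, `N ≠ 7` -/
theorem flat {N s : ℤ} {A : Finset (ℤ × ℤ)} (hN : 4 ≤ N) (h7 : N ≠ 7) (hsub : A ⊆ zgrid N)
    (hfree : ∀ u ∈ A, ∀ v ∈ A, u + v ∉ A) (hle : ∀ v ∈ A, v.1 + v.2 ≤ s) (hs1 : N ≤ s)
    (hs2 : s ≤ 2 * N)
    (R1 : (A.filter fun v => 2 * (v.1 + v.2) < s).card ≤
      ((zgrid N).filter fun v => v ∉ A ∧ s < 2 * (v.1 + v.2) ∧ v.1 + v.2 < s).card)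
    (R2 : (A.filter fun v => 2 * (v.1 + v.2) = s).card ≤
      ((zgrid N).filter fun v => v ∉ A ∧ (2 * (v.1 + v.2) = s ∨ v.1 + v.2 = s)).card)
    (hE : 5 * (((zgrid N).filter fun v => v ∉ A).card : ℤ) ≤ 2 * N ^ 2 - 3 * N + 4) :
    A = zslab N ((4 * N + 6) / 5) ∨ (N % 5 = 2 ∧ A = zslab N ((4 * N + 7) / 5)) := by
  obtain ⟨ρ, hρ3, hρ0, hρ1, h⟩ := flat_core hN hsub hfree hle hs1 hs2 R1 R2 hE
  rcases h with ⟨u, hsu, hA, hsq⟩ | ⟨u, hsu, -, -, M, T, hT1, hsq, hM, hMs, -, hTs, -, hMT⟩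
  · -- odd
    by_cases h04 : N % 5 = 0 ∨ N % 5 = 4
    · have := hρ0 h04
      obtain ⟨q1, q2⟩ := sq_le_bd (b := 1) (by norm_num) (by linarith : (5 * s - 8 * N - 4) ^ 2 ≤ 1 ^ 2)
      left
      have : u = (4 * N + 6) / 5 := by omega
      rw [← this]; exact hA
    by_cases h13 : N % 5 = 1 ∨ N % 5 = 3
    · have := hρ1 h13
      obtain ⟨q1, q2⟩ := sq_le_bd (b := 3) (by norm_num) (by linarith : (5 * s - 8 * N - 4) ^ 2 ≤ 3 ^ 2)
      left
      have : u = (4 * N + 6) / 5 := by omega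
      rw [← this]; exact hA
    · obtain ⟨q1, q2⟩ := sq_le_bd (b := 5) (by norm_num) (by linarith : (5 * s - 8 * N - 4) ^ 2 ≤ 5 ^ 2)
      have : u = (4 * N + 6) / 5 ∨ u = (4 * N + 7) / 5 := by omega
      rcases this with h | h
      · left; rw [← h]; exact hA
      · right; rw [← h]; exact ⟨by omega, hA⟩
  · -- even
    exfalso
    have hTn : (0 : ℤ) ≤ T.card := by positivity
    have hsqn := sq_nonneg (5 * s - 8 * N - 4)
    have h04 : ¬ (N % 5 = 0 ∨ N % 5 = 4) := by
      intro h04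
      have := hρ0 h04
      linarith
    have hav := sums_avoid (N := N) (u := u) (a := s - N) M T hMs hMT
    by_cases h13 : N % 5 = 1 ∨ N % 5 = 3
    · have hρ' := hρ1 h13
      have hT0 : (T.card : ℤ) = 0 := by omega
      obtain ⟨q1, q2⟩ := sq_le_bd (b := 2) (by norm_num) (by linarith : (5 * s - 8 * N - 4) ^ 2 ≤ 2 ^ 2)
      rw [hT0] at hav hM
      rcases h13 with h1 | h3
      · obtain ⟨m, hm⟩ : ∃ m, N = 5 * m + 1 := ⟨N / 5, by omega⟩
        have hu : u = 4 * m + 1 := by omega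
        rw [hsu, hu, hm] at hM
        have hM' : 2 * m ≤ M.card := by nlinarith
        rw [hsu, hu, hm] at hav
        omega
      · obtain ⟨m, hm⟩ : ∃ m, N = 5 * m + 3 := ⟨N / 5, by omega⟩
        have hu : u = 4 * m + 3 := by omega
        rw [hsu, hu, hm] at hM
        have hM' : 2 * m + 1 ≤ M.card := by nlinarith
        rw [hsu, hu, hm] at hav
        omega
    · obtain ⟨q1, q2⟩ := sq_le_bd (b := 5) (by norm_num) (by linarith : (5 * s - 8 * N - 4) ^ 2 ≤ 5 ^ 2)
      obtain ⟨m, hm⟩ : ∃ m, N = 5 * m + 2 := ⟨N / 5, by omega⟩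
      have hu : u = 4 * m + 2 := by omega
      rw [hsu, hu, hm] at hM
      have hM' : 2 * m + T.card ≤ M.card := by nlinarith
      rw [hsu, hu, hm] at hav
      omega

end Pool.Agent.Work.MP_0cd883_co.Plane
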