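import Pool.Agent.Work.MP_0cd883_co.PlaneFlatMain

/-!
The refined chain inequalities for lines of slope `-1`.
-/

namespace Pool.Agent.Work.MP_0cd883_co.Plane

open Finset

theorem R_pair {N d s p1 p2 : ℤ} {A : Finset (ℤ × ℤ)} (C : Contact N d d (d * s) p1 p2 A) :
    ((A.filter fun v => 2 * (v.1 + v.2) < s).card ≤
      ((zgrid N).filter fun v => v ∉ A ∧ s < 2 * (v.1 + v.2) ∧ v.1 + v.2 < s).card) ∧
    ((A.filter fun v => 2 * (v.1 + v.2) = s).card ≤
      ((zgrid N).filter fun v => v ∉ A ∧ (2 * (v.1 + v.2) = s ∨ v.1 + v.2 = s)).card) := by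
  have hd := C.hd
  have hlev : ∀ v : ℤ × ℤ, lev d d v = d * (v.1 + v.2) := by
    intro v
    unfold lev
    ring
  have h2le : ∀ v : ℤ × ℤ, 2 * (v.1 + v.2) ≤ s → 2 * lev d d v ≤ d * s := by
    intro v hv
    rw [hlev]
    have := mul_le_mul_of_nonneg_left hv hd.le
    linarith
  have hspec : ∀ v ∈ A, 2 * (v.1 + v.2) ≤ s →
      partner d d p1 p2 A v ∈ zgrid N ∧ partner d d p1 p2 A v ∉ A ∧
      ((partner d d p1 p2 A v).1 + (partner d d p1 p2 A v).2 = s - (v.1 + v.2) ∨
        ((partner d d p1 p2 A v).1 + (partner d d p1 p2 A v).2 = 2 * (v.1 + v.2) ∧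
          s < 4 * (v.1 + v.2))) := by
    intro v hv hv2
    obtain ⟨h1, h2, h3⟩ := C.partner_spec hv (h2le v hv2)
    refine ⟨h1, h2, ?_⟩
    rw [hlev, hlev] at h3
    rcases h3 with h3 | ⟨h3, h4⟩
    · left
      have : d * ((partner d d p1 p2 A v).1 + (partner d d p1 p2 A v).2)
          = d * (s - (v.1 + v.2)) := by linarith
      exact mul_left_cancel₀ hd.ne' this
    · right
      constructor
      · have : d * ((partner d d p1 p2 A v).1 + (partner d d p1 p2 A v).2)
          = d * (2 * (v.1 + v.2)) := by linarith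
        exact mul_left_cancel₀ hd.ne' this
      · have : d * s < d * (4 * (v.1 + v.2)) := by linarith
        exact lt_of_mul_lt_mul_left this hd.le
  have hpos : ∀ v ∈ A, 0 < v.1 + v.2 := by
    intro v hv
    have := mem_zgrid.1 (C.sub hv)
    omega
  constructor
  · refine card_le_card_of_injOn (partner d d p1 p2 A) ?_ ?_
    · intro v hv
      obtain ⟨h1, h2⟩ := mem_filter.1 (mem_coe.1 hv)
      obtain ⟨h3, h4, h5⟩ := hspec v h1 h2.le
      have := hpos v h1
      rw [mem_coe, mem_filter]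
      refine ⟨h3, h4, ?_⟩
      omega
    · intro v hv w hw hvw
      obtain ⟨h1, h2⟩ := mem_filter.1 (mem_coe.1 hv)
      obtain ⟨h3, h4⟩ := mem_filter.1 (mem_coe.1 hw)
      exact C.partner_inj h1 h3 (h2le v h2.le) (h2le w h4.le) hvw
  · refine card_le_card_of_injOn (partner d d p1 p2 A) ?_ ?_
    · intro v hv
      obtain ⟨h1, h2⟩ := mem_filter.1 (mem_coe.1 hv)
      obtain ⟨h3, h4, h5⟩ := hspec v h1 h2.le
      have := hpos v h1
      rw [mem_coe, mem_filter]
      refine ⟨h3, h4, ?_⟩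
      omega
    · intro v hv w hw hvw
      obtain ⟨h1, h2⟩ := mem_filter.1 (mem_coe.1 hv)
      obtain ⟨h3, h4⟩ := mem_filter.1 (mem_coe.1 hw)
      exact C.partner_inj h1 h3 (h2le v h2.le) (h2le w h4.le) hvw

theorem R_single {N p : ℤ} {A : Finset (ℤ × ℤ)} (hsub : A ⊆ zgrid N)
    (hfree : ∀ u ∈ A, ∀ v ∈ A, u + v ∉ A) (hP : (p, p) ∈ A) :
    ((A.filter fun v => 2 * (v.1 + v.2) < 2 * p).card ≤
      ((zgrid N).filter fun v => v ∉ A ∧ 2 * p < 2 * (v.1 + v.2) ∧ v.1 + v.2 < 2 * p).card) ∧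
    ((A.filter fun v => 2 * (v.1 + v.2) = 2 * p).card ≤
      ((zgrid N).filter fun v => v ∉ A ∧ (2 * (v.1 + v.2) = 2 * p ∨ v.1 + v.2 = 2 * p)).card) := by
  have hPz := mem_zgrid.1 (hsub hP)
  simp only at hPz
  have key : ∀ v ∈ A, v.1 + v.2 ≤ p → (p - v.1, p - v.2) ∈ zgrid N ∧ (p - v.1, p - v.2) ∉ A := by
    intro v hv hv2
    have hvz := mem_zgrid.1 (hsub hv)
    constructor
    · rw [mem_zgrid]
      simp only
      omega
    · intro hcon
      refine hfree _ hcon _ hv ?_
      have : (p - v.1, p - v.2) + v = (p, p) := by ext <;> simp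
      rw [this]
      exact hP
  constructor
  · refine card_le_card_of_injOn (fun v => (p - v.1, p - v.2)) ?_ ?_
    · intro v hv
      obtain ⟨h1, h2⟩ := mem_filter.1 (mem_coe.1 hv)
      have hvz := mem_zgrid.1 (hsub h1)
      obtain ⟨h3, h4⟩ := key v h1 (by omega)
      rw [mem_coe, mem_filter]
      refine ⟨h3, h4, ?_⟩
      simp only
      omega
    · intro v _ w _ hvw
      simp only [Prod.mk.injEq] at hvw
      ext
      · linarith [hvw.1]
      · linarith [hvw.2]
  · refine card_le_card_of_injOn (fun v => (p - v.1, p - v.2)) ?_ ?_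
    · intro v hv
      obtain ⟨h1, h2⟩ := mem_filter.1 (mem_coe.1 hv)
      have hvz := mem_zgrid.1 (hsub h1)
      obtain ⟨h3, h4⟩ := key v h1 (by omega)
      rw [mem_coe, mem_filter]
      refine ⟨h3, h4, ?_⟩
      simp only
      omega
    · intro v _ w _ hvw
      simp only [Prod.mk.injEq] at hvw
      ext
      · linarith [hvw.1]
      · linarith [hvw.2]

end Pool.Agent.Work.MP_0cd883_co.Plane
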