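import Mathlib
import Pool.Agent.Work.MP_0cd883_co.PlaneChain

/-!
Lower bounds for the number of lattice points below half of the line.
-/

set_option autoImplicit false

namespace Pool.Agent.Work.MP_0cd883_co.Plane

open Finset

/-- the weight of a point: `[2 f < c] + [2 f ≤ c]` -/
def wt (e d c : ℤ) (v : ℤ × ℤ) : ℤ :=
  (if 2 * lev e d v < c then 1 else 0) + (if 2 * lev e d v ≤ c then 1 else 0)

theorem wt_nonneg (e d c : ℤ) (v : ℤ × ℤ) : 0 ≤ wt e d c v := by
  unfold wt; split_ifs <;> norm_num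

/-- the two counts as a sum of weights -/
theorem sum_wt (N e d c : ℤ) :
    ∑ v ∈ zgrid N, wt e d c v =
      (((zgrid N).filter fun v => 2 * lev e d v < c).card : ℤ) +
        ((zgrid N).filter fun v => 2 * lev e d v ≤ c).card := by
  unfold wt
  rw [sum_add_distrib, sum_boole, sum_boole]

/-- the sum of the weights over the rectangle below `P` -/
theorem sum_rect {e d c p1 p2 : ℤ} (hp1 : 1 ≤ p1) (hp2 : 1 ≤ p2) (hc : e * p1 + d * p2 = c) :
    ∑ v ∈ Icc 1 (p1 - 1) ×ˢ Icc 1 (p2 - 1), wt e d c v = (p1 - 1) * (p2 - 1) := by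
  have h1 : ∑ v ∈ Icc 1 (p1 - 1) ×ˢ Icc 1 (p2 - 1), wt e d c v =
      ∑ v ∈ Icc 1 (p1 - 1) ×ˢ Icc 1 (p2 - 1), wt e d c (p1 - v.1, p2 - v.2) := by
    apply sum_nbij' (fun v => (p1 - v.1, p2 - v.2)) (fun v => (p1 - v.1, p2 - v.2))
    · rintro ⟨x, y⟩ h
      simp only [mem_product, mem_Icc] at h ⊢
      omega
    · rintro ⟨x, y⟩ h
      simp only [mem_product, mem_Icc] at h ⊢
      omega
    · rintro ⟨x, y⟩ h
      simp
    · rintro ⟨x, y⟩ h
      simp
    · rintro ⟨x, y⟩ h
      simp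
  have h2 : ∑ v ∈ Icc 1 (p1 - 1) ×ˢ Icc 1 (p2 - 1), (wt e d c v + wt e d c (p1 - v.1, p2 - v.2)) =
      ∑ v ∈ Icc 1 (p1 - 1) ×ˢ Icc 1 (p2 - 1), 2 := by
    apply sum_congr rfl
    rintro v -
    have h3 : lev e d (p1 - v.1, p2 - v.2) = c - lev e d v := by
      unfold lev
      show e * (p1 - v.1) + d * (p2 - v.2) = _
      linarith
    unfold wt
    rw [h3]
    split_ifs <;> omega
  rw [sum_add_distrib, ← h1] at h2
  rw [sum_const, card_product, Int.card_Icc, Int.card_Icc] at h2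
  have h4 : ((p1 - 1 + 1 - 1).toNat : ℤ) = p1 - 1 := by omega
  have h5 : ((p2 - 1 + 1 - 1).toNat : ℤ) = p2 - 1 := by omega
  rw [nsmul_eq_mul, Nat.cast_mul, h4, h5] at h2
  linarith

/-- the sum of the weights over a row to the right of `P` -/
theorem sum_row {N e d c p1 y : ℤ} (he : 0 < e) (hd : 0 < d) (hy : 1 ≤ y)
    (hcN : c ≤ 2 * (e * N)) (ht : 0 ≤ c - 2 * (e * p1) - 2 * (d * y)) :
    c - 2 * (e * p1) - 2 * (d * y) ≤ e * ∑ x ∈ Icc p1 N, wt e d c (x, y) := by
  set t := c - 2 * (e * p1) - 2 * (d * y) with htdef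
  have h2e : 0 < 2 * e := by linarith
  -- the two counts
  have hlev : ∀ x, 2 * lev e d (x, y) = 2 * (e * (x - p1)) + c - t := by
    intro x
    unfold lev
    show 2 * (e * x + d * y) = _
    rw [htdef]; ring
  have hsum : ∑ x ∈ Icc p1 N, wt e d c (x, y) =
      (((Icc p1 N).filter fun x => 2 * (e * (x - p1)) < t).card : ℤ) +
        ((Icc p1 N).filter fun x => 2 * (e * (x - p1)) ≤ t).card := by
    unfold wt
    rw [sum_add_distrib, sum_boole, sum_boole]
    congr 2
    · apply congrArg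
      apply filter_congr
      intro x _
      rw [hlev]
      constructor <;> intro h <;> linarith
    · apply congrArg
      apply filter_congr
      intro x _
      rw [hlev]
      constructor <;> intro h <;> linarith
  have hNp : t ≤ 2 * (e * (N - p1)) - 2 * d := by
    have : d * 1 ≤ d * y := mul_le_mul_of_nonneg_left hy hd.le
    rw [htdef]
    linarith
  -- first count
  have hc1 : t ≤ 2 * e * (((Icc p1 N).filter fun x => 2 * (e * (x - p1)) < t).card : ℤ) := by
    have h1 : Ico p1 (p1 + (t + 2 * e - 1) / (2 * e)) ⊆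
        (Icc p1 N).filter fun x => 2 * (e * (x - p1)) < t := by
      intro x hx
      rw [mem_Ico] at hx
      have h3 : 2 * (e * (x - p1)) < t := by
        have h4 : x - p1 + 1 ≤ (t + 2 * e - 1) / (2 * e) := by omega
        have h5 := (Int.le_ediv_iff_mul_le h2e).1 h4
        nlinarith
      rw [mem_filter, mem_Icc]
      refine ⟨⟨hx.1, ?_⟩, h3⟩
      have h4 : e * (x - p1) < e * (N - p1) := by linarith
      have := lt_of_mul_lt_mul_left h4 he.le
      omega
    have h2 := card_le_card h1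
    rw [Int.card_Ico] at h2
    have h3 : 0 ≤ (t + 2 * e - 1) / (2 * e) := Int.ediv_nonneg (by linarith) h2e.le
    have h4 : ((t + 2 * e - 1) / (2 * e) : ℤ) ≤
        (((Icc p1 N).filter fun x => 2 * (e * (x - p1)) < t).card : ℤ) := by
      have h5 : ((p1 + (t + 2 * e - 1) / (2 * e) - p1).toNat : ℤ) =
          (t + 2 * e - 1) / (2 * e) := by
        rw [add_sub_cancel_left]; exact Int.toNat_of_nonneg h3
      rw [← h5]; exact_mod_cast h2
    have h5 := Int.lt_ediv_add_one_mul_self (t + 2 * e - 1) h2e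
    nlinarith
  have hc2 : t ≤ 2 * e * (((Icc p1 N).filter fun x => 2 * (e * (x - p1)) ≤ t).card : ℤ) := by
    refine hc1.trans ?_
    apply mul_le_mul_of_nonneg_left _ h2e.le
    have h1 : ((Icc p1 N).filter fun x => 2 * (e * (x - p1)) < t) ⊆
        (Icc p1 N).filter fun x => 2 * (e * (x - p1)) ≤ t := by
      intro x hx
      rw [mem_filter] at hx ⊢
      exact ⟨hx.1, hx.2.le⟩
    exact_mod_cast card_le_card h1
  rw [hsum]
  nlinarith

/-- the elementary sum -/
theorem sum_arith (d D : ℤ) (hd : 0 < d) (n : ℕ) :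
    ∑ y ∈ Icc 1 (n : ℤ), (D - 2 * (d * y)) = n * D - d * (n * (n + 1)) := by
  induction n with
  | zero => simp
  | succ n ih =>
    have h1 : Icc 1 ((n + 1 : ℕ) : ℤ) = insert ((n + 1 : ℕ) : ℤ) (Icc 1 (n : ℤ)) := by
      ext x
      simp only [mem_Icc, mem_insert]
      push_cast
      omega
    rw [h1, sum_insert (by simp only [mem_Icc]; push_cast; omega), ih]
    push_cast
    ring

/-- the sum of the weights to the right of `P` -/
theorem sum_right {N e d c p1 : ℤ} (he : 0 < e) (hd : 0 < d)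
    (hcN : c ≤ 2 * (e * N)) (hdN : c - 2 * (e * p1) ≤ 2 * (d * N)) (hD : 0 ≤ c - 2 * (e * p1)) :
    (c - 2 * (e * p1)) ^ 2 - 2 * d * (c - 2 * (e * p1)) ≤
      4 * (d * e) * ∑ v ∈ Icc p1 N ×ˢ Icc 1 N, wt e d c v := by
  set D := c - 2 * (e * p1) with hDdef
  have h2d : 0 < 2 * d := by linarith
  obtain ⟨n, hn⟩ : ∃ n : ℕ, (n : ℤ) = D / (2 * d) :=
    ⟨(D / (2 * d)).toNat, Int.toNat_of_nonneg (Int.ediv_nonneg hD h2d.le)⟩
  have h1 : 2 * d * n ≤ D := by rw [hn]; exact Int.mul_ediv_self_le h2d.ne'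
  have h2 : D < 2 * d * n + 2 * d := by
    rw [hn]
    have := Int.lt_ediv_add_one_mul_self D h2d
    linarith
  have hnN : (n : ℤ) ≤ N := by
    have : 2 * d * n ≤ 2 * d * N := by linarith
    exact le_of_mul_le_mul_left this h2d
  rw [sum_product_right]
  have h3 : ∑ y ∈ Icc 1 (n : ℤ), (D - 2 * (d * y)) ≤
      e * ∑ y ∈ Icc 1 N, ∑ x ∈ Icc p1 N, wt e d c (x, y) := by
    calc ∑ y ∈ Icc 1 (n : ℤ), (D - 2 * (d * y))
        ≤ ∑ y ∈ Icc 1 (n : ℤ), e * ∑ x ∈ Icc p1 N, wt e d c (x, y) := by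
          apply sum_le_sum
          intro y hy
          rw [mem_Icc] at hy
          have h4 : 0 ≤ c - 2 * (e * p1) - 2 * (d * y) := by
            rw [← hDdef]
            have : 2 * d * y ≤ 2 * d * n := mul_le_mul_of_nonneg_left hy.2 h2d.le
            linarith
          exact sum_row he hd hy.1 hcN h4
      _ = e * ∑ y ∈ Icc 1 (n : ℤ), ∑ x ∈ Icc p1 N, wt e d c (x, y) := by rw [mul_sum]
      _ ≤ e * ∑ y ∈ Icc 1 N, ∑ x ∈ Icc p1 N, wt e d c (x, y) := by
          apply mul_le_mul_of_nonneg_left _ he.le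
          apply sum_le_sum_of_subset_of_nonneg
          · intro y hy
            rw [mem_Icc] at hy ⊢
            exact ⟨hy.1, hy.2.trans hnN⟩
          · intro y _ _
            exact sum_nonneg fun x _ => wt_nonneg e d c (x, y)
  rw [sum_arith d D hd n] at h3
  have h5 : 0 ≤ (D - 2 * d * n) * (2 * d - (D - 2 * d * n)) :=
    mul_nonneg (by linarith) (by linarith)
  have h6 : 4 * d * (n * D - d * (n * (n + 1))) ≤
      4 * d * (e * ∑ y ∈ Icc 1 N, ∑ x ∈ Icc p1 N, wt e d c (x, y)) :=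
    mul_le_mul_of_nonneg_left h3 (by linarith)
  nlinarith

/-- THE LOWER COUNT, seen from `P` -/
theorem low_count {N e d c p1 p2 : ℤ} (he : 0 < e) (hd : 0 < d) (hp1 : 1 ≤ p1) (hp1N : p1 ≤ N)
    (hp2 : 1 ≤ p2) (hp2N : p2 ≤ N) (hc : e * p1 + d * p2 = c) (hcN : c ≤ 2 * (e * N))
    (hD : e * p1 ≤ d * p2) :
    (c - 2 * e) * (c - 2 * d) - 2 * e * (d * p2 - e * p1) ≤
      4 * (d * e) * ∑ v ∈ zgrid N, wt e d c v := by
  have h1 := sum_right (p1 := p1) he hd hcN (by
    have : d * p2 ≤ d * N := mul_le_mul_of_nonneg_left hp2N hd.le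
    have : e * 1 ≤ e * p1 := mul_le_mul_of_nonneg_left hp1 he.le
    linarith) (by linarith)
  have h2 := sum_rect (e := e) (d := d) hp1 hp2 hc
  have h3 : ∑ v ∈ Icc 1 (p1 - 1) ×ˢ Icc 1 (p2 - 1), wt e d c v +
      ∑ v ∈ Icc p1 N ×ˢ Icc 1 N, wt e d c v ≤ ∑ v ∈ zgrid N, wt e d c v := by
    rw [← sum_union]
    · apply sum_le_sum_of_subset_of_nonneg
      · rintro ⟨x, y⟩ h
        simp only [mem_union, mem_product, mem_Icc] at h
        rw [mem_zgrid]
        simp only
        omega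
      · intro v _ _; exact wt_nonneg e d c v
    · rw [disjoint_left]
      rintro ⟨x, y⟩ h h'
      simp only [mem_product, mem_Icc] at h h'
      omega
  have h4 : 0 < 4 * (d * e) := by positivity
  have h5 := mul_le_mul_of_nonneg_left h3 h4.le
  rw [mul_add, h2] at h5
  have h6 : c - 2 * (e * p1) = d * p2 - e * p1 := by linarith
  rw [h6] at h1
  subst hc
  nlinarith

/-- the weights are symmetric -/
theorem sum_swap (N e d c : ℤ) : ∑ v ∈ zgrid N, wt e d c v = ∑ v ∈ zgrid N, wt d e c v := by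
  apply sum_nbij' (fun v => (v.2, v.1)) (fun v => (v.2, v.1))
  · intro v h; rw [mem_zgrid] at h ⊢; tauto
  · intro v h; rw [mem_zgrid] at h ⊢; tauto
  · intro v h; rfl
  · intro v h; rfl
  · intro v h
    have : lev e d v = lev d e (v.2, v.1) := by
      unfold lev
      show e * v.1 + d * v.2 = d * v.2 + e * v.1
      ring
    unfold wt
    rw [this]

/-- THE LOWER COUNT for two contact points -/
theorem low_count_pair {N e d c p1 p2 : ℤ} (he : 0 < e) (hed : e ≤ d) (hp1 : 1 ≤ p1)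
    (hq1N : p1 + d ≤ N) (hq2 : 1 ≤ p2 - e) (hp2N : p2 ≤ N) (hc : e * p1 + d * p2 = c)
    (h1 : 2 * (e * p1) < c) (h2 : c < 2 * (e * (p1 + d))) :
    (c - 2 * e) * (c - 2 * d) - 2 * (d ^ 2 * e) ≤ 4 * (d * e) * ∑ v ∈ zgrid N, wt e d c v := by
  have hd : 0 < d := by linarith
  have hcN : c ≤ 2 * (e * N) := by
    have : e * (p1 + d) ≤ e * N := mul_le_mul_of_nonneg_left hq1N he.le
    linarith
  have hcN' : c ≤ 2 * (d * N) := by
    have : d * p2 ≤ d * N := mul_le_mul_of_nonneg_left hp2N hd.le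
    linarith
  have a1 := low_count he hd hp1 (by linarith) (by linarith) hp2N hc hcN (by linarith)
  have a2 := low_count (e := d) (d := e) (p1 := p2 - e) (p2 := p1 + d) (c := c) hd he hq2
    (by linarith) (by linarith) hq1N (by linarith) hcN' (by linarith)
  rw [← sum_swap] at a2
  have a3 : 0 ≤ (d - e) * (c - 2 * (e * p1)) := mul_nonneg (by linarith) (by linarith)
  subst hc
  nlinarith

end Pool.Agent.Work.MP_0cd883_co.Plane
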