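import Pool.Agent.Work.MP_0cd883_co.PlaneFlatData

/-!
Extremal sum-free subsets of `[N]²` for `N = 7` and `N ≤ 3`.
-/

namespace Pool.Agent.Work.MP_0cd883_co.Plane

open Finset

/-- the band `a ≤ x + y ≤ b` -/
noncomputable def zband (N a b : ℤ) : Finset (ℤ × ℤ) :=
  (zgrid N).filter fun v => a ≤ v.1 + v.2 ∧ v.1 + v.2 ≤ b

theorem zslab_eq (N u : ℤ) : zslab N u = zband N u (2 * u - 1) := rfl

theorem bools : ∀ m1 m2 m3 m4 m5 t5 t6 t7 : Bool,
    (t5.toNat + t6.toNat + t7.toNat ≤ 1) →
    (2 + (t5.toNat + t6.toNat + t7.toNat) ≤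
      m1.toNat + m2.toNat + m3.toNat + m4.toNat + m5.toNat) →
    (m1 = true → m4 = true → t5 = true) → (m2 = true → m3 = true → t5 = true) →
    (m1 = true → m5 = true → t6 = true) → (m2 = true → m4 = true → t6 = true) →
    (m3 = true → t6 = true) → (m2 = true → m5 = true → t7 = true) →
    (m3 = true → m4 = true → t7 = true) →
    ((m1 = true ∧ m2 = true ∧ m3 = false ∧ m4 = false ∧ m5 = false ∧
        t5 = false ∧ t6 = false ∧ t7 = false) ∨
      (m1 = false ∧ m2 = false ∧ m3 = false ∧ m4 = true ∧ m5 = true ∧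
        t5 = false ∧ t6 = false ∧ t7 = false) ∨
      (m1 = true ∧ m2 = false ∧ m3 = true ∧ m4 = false ∧ m5 = true ∧
        t5 = false ∧ t6 = true ∧ t7 = false)) := by
  intro m1 m2 m3 m4 m5 t5 t6 t7
  cases m1 <;> cases m2 <;> cases m3 <;> cases m4 <;> cases m5 <;> cases t5 <;> cases t6 <;>
    cases t7 <;> simp

theorem card_five {M : Finset ℤ} (hM : M ⊆ Icc 1 5) :
    M.card = (decide (1 ∈ M)).toNat + (decide (2 ∈ M)).toNat + (decide (3 ∈ M)).toNat
      + (decide (4 ∈ M)).toNat + (decide (5 ∈ M)).toNat := by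
  have h1 : M = (Icc (1 : ℤ) 5).filter fun x => x ∈ M := by
    ext x
    rw [mem_filter]
    exact ⟨fun h => ⟨hM h, h⟩, fun h => h.2⟩
  have h2 : (Icc (1 : ℤ) 5) = {1, 2, 3, 4, 5} := by decide
  have h3 : M.card = ((Icc (1 : ℤ) 5).filter fun x => x ∈ M).card := by rw [← h1]
  rw [h3, card_filter, h2]
  have h4 : ∀ x : ℤ, (decide (x ∈ M)).toNat = if x ∈ M then 1 else 0 := by
    intro x
    by_cases h : x ∈ M <;> simp [h]
  rw [h4, h4, h4, h4, h4]
  rw [sum_insert (by decide), sum_insert (by decide), sum_insert (by decide),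
    sum_insert (by decide), sum_singleton]
  ring

theorem card_three {T : Finset ℤ} (hT : T ⊆ Icc 5 7) :
    T.card = (decide (5 ∈ T)).toNat + (decide (6 ∈ T)).toNat + (decide (7 ∈ T)).toNat := by
  have h1 : T = (Icc (5 : ℤ) 7).filter fun x => x ∈ T := by
    ext x
    rw [mem_filter]
    exact ⟨fun h => ⟨hT h, h⟩, fun h => h.2⟩
  have h2 : (Icc (5 : ℤ) 7) = {5, 6, 7} := by decide
  have h3 : T.card = ((Icc (5 : ℤ) 7).filter fun x => x ∈ T).card := by rw [← h1]
  rw [h3, card_filter, h2]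
  have h4 : ∀ x : ℤ, (decide (x ∈ T)).toNat = if x ∈ T then 1 else 0 := by
    intro x
    by_cases h : x ∈ T <;> simp [h]
  rw [h4, h4, h4]
  rw [sum_insert (by decide), sum_insert (by decide), sum_singleton]
  ring

theorem flat_seven {s : ℤ} {A : Finset (ℤ × ℤ)} (hsub : A ⊆ zgrid 7)
    (hfree : ∀ u ∈ A, ∀ v ∈ A, u + v ∉ A) (hF : FlatData 7 A s)
    (hE : 5 * (((zgrid 7).filter fun v => v ∉ A).card : ℤ) ≤ 2 * 7 ^ 2 - 3 * 7 + 4) :
    A = zslab 7 6 ∨ A = zslab 7 7 ∨ A = zband 7 7 12 ∪ {(1, 5), (2, 4)} ∨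
      A = zband 7 7 12 ∪ {(5, 1), (4, 2)} ∨
      A = (zband 7 7 12 \ {(6, 6)}) ∪ {(1, 5), (3, 3), (5, 1)} := by
  obtain ⟨hs1, hs2, hle, R1, R2⟩ := hF
  obtain ⟨ρ, hρ3, hρ0, hρ1, h⟩ := flat_core (by norm_num) hsub hfree hle hs1 hs2 R1 R2 hE
  rcases h with ⟨u, hsu, hA, hsq⟩ | ⟨u, hsu, hu, hfull, M, T, hT1, hsq, hM, hMs, hMm, hTs, hTm, hMT⟩
  · obtain ⟨q1, q2⟩ := sq_le_bd (b := 5) (by norm_num) (by linarith : (5 * s - 8 * 7 - 4) ^ 2 ≤ 5 ^ 2)
    have : u = 6 ∨ u = 7 := by omega
    rcases this with rfl | rfl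
    · exact Or.inl hA
    · exact Or.inr (Or.inl hA)
  · have hTn : (0 : ℤ) ≤ T.card := by positivity
    obtain ⟨q1, q2⟩ := sq_le_bd (b := 5) (by norm_num) (by linarith : (5 * s - 8 * 7 - 4) ^ 2 ≤ 5 ^ 2)
    have hu6 : u = 6 := by omega
    subst hu6
    have hs12 : s = 12 := by omega
    subst hs12
    norm_num at hMs hTs
    have c5 := card_five hMs
    have c3 := card_three hTs
    have hb := bools (decide (1 ∈ M)) (decide (2 ∈ M)) (decide (3 ∈ M)) (decide (4 ∈ M))
      (decide (5 ∈ M)) (decide (5 ∈ T)) (decide (6 ∈ T)) (decide (7 ∈ T))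
      (by rw [← c3]; omega) (by rw [← c3, ← c5]; omega)
      (by simp only [decide_eq_true_eq]; intro h1 h2; exact hMT 1 h1 4 h2 (by norm_num) (by norm_num))
      (by simp only [decide_eq_true_eq]; intro h1 h2; exact hMT 2 h1 3 h2 (by norm_num) (by norm_num))
      (by simp only [decide_eq_true_eq]; intro h1 h2; exact hMT 1 h1 5 h2 (by norm_num) (by norm_num))
      (by simp only [decide_eq_true_eq]; intro h1 h2; exact hMT 2 h1 4 h2 (by norm_num) (by norm_num))
      (by simp only [decide_eq_true_eq]; intro h1; exact hMT 3 h1 3 h1 (by norm_num) (by norm_num))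
      (by simp only [decide_eq_true_eq]; intro h1 h2; exact hMT 2 h1 5 h2 (by norm_num) (by norm_num))
      (by simp only [decide_eq_true_eq]; intro h1 h2; exact hMT 3 h1 4 h2 (by norm_num) (by norm_num))
    simp only [decide_eq_true_eq, decide_eq_false_iff_not] at hb
    have hAm : ∀ v : ℤ × ℤ, v ∈ A ↔ v ∈ zgrid 7 ∧ ((7 ≤ v.1 + v.2 ∧ v.1 + v.2 ≤ 11) ∨
        (v.1 + v.2 = 6 ∧ v.1 ∈ M) ∨ (v.1 + v.2 = 12 ∧ v.1 ∉ T)) := by
      intro v
      constructor
      · intro hv
        have h1 := hle v hv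
        have h2 := hu v hv
        have hvz := mem_zgrid.1 (hsub hv)
        refine ⟨hsub hv, ?_⟩
        by_cases h6 : v.1 + v.2 = 6
        · right; left
          refine ⟨h6, (hMm v.1 (mem_Icc.2 ⟨by omega, by omega⟩)).2 ?_⟩
          have : v = (v.1, 6 - v.1) := by
            ext
            · rfl
            · simp only; omega
          rw [← this]; exact hv
        · by_cases h12 : v.1 + v.2 = 12
          · right; right
            refine ⟨h12, fun hcon => ?_⟩
            have h3 := (hTm v.1 (mem_Icc.2 ⟨by omega, by omega⟩)).1 hcon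
            apply h3
            have : v = (v.1, 12 - v.1) := by
              ext
              · rfl
              · simp only; omega
            rw [← this]; exact hv
          · left; omega
      · rintro ⟨hvz, h⟩
        have hvz' := mem_zgrid.1 hvz
        rcases h with h | ⟨h1, h2⟩ | ⟨h1, h2⟩
        · exact hfull v hvz (by omega) (by omega)
        · have h3 := (hMm v.1 (mem_Icc.2 ⟨by omega, by omega⟩)).1 h2
          have : v = (v.1, 6 - v.1) := by
            ext
            · rfl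
            · simp only; omega
          rw [this]; exact h3
        · by_contra hcon
          apply h2
          refine (hTm v.1 (mem_Icc.2 ⟨by omega, by omega⟩)).2 ?_
          have : v = (v.1, 12 - v.1) := by
            ext
            · rfl
            · simp only; omega
          rw [← this]; exact hcon
    have hMx : ∀ x ∈ M, x = 1 ∨ x = 2 ∨ x = 3 ∨ x = 4 ∨ x = 5 := by
      intro x hx
      have := mem_Icc.1 (hMs hx)
      omega
    have hTx : ∀ x ∈ T, x = 5 ∨ x = 6 ∨ x = 7 := by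
      intro x hx
      have := mem_Icc.1 (hTs hx)
      omega
    right; right
    rcases hb with ⟨m1, m2, m3, m4, m5, t5, t6, t7⟩ | ⟨m1, m2, m3, m4, m5, t5, t6, t7⟩ |
      ⟨m1, m2, m3, m4, m5, t5, t6, t7⟩
    · left
      have hMe : M = {1, 2} := by
        ext x
        simp only [mem_insert, mem_singleton]
        constructor
        · intro hx
          rcases hMx x hx with rfl | rfl | rfl | rfl | rfl
          · exact Or.inl rfl
          · exact Or.inr rfl
          · exact absurd hx m3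
          · exact absurd hx m4
          · exact absurd hx m5
        · rintro (rfl | rfl)
          · exact m1
          · exact m2
      have hTe : T = ∅ := by
        rw [eq_empty_iff_forall_notMem]
        intro x hx
        rcases hTx x hx with rfl | rfl | rfl
        · exact t5 hx
        · exact t6 hx
        · exact t7 hx
      ext ⟨x, y⟩
      rw [hAm, hMe, hTe, zband]
      simp only [mem_union, mem_filter, mem_insert, mem_singleton, mem_zgrid, Prod.mk.injEq,
        notMem_empty, not_false_eq_true, and_true]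
      omega
    · right; left
      have hMe : M = {4, 5} := by
        ext x
        simp only [mem_insert, mem_singleton]
        constructor
        · intro hx
          rcases hMx x hx with rfl | rfl | rfl | rfl | rfl
          · exact absurd hx m1
          · exact absurd hx m2
          · exact absurd hx m3
          · exact Or.inl rfl
          · exact Or.inr rfl
        · rintro (rfl | rfl)
          · exact m4
          · exact m5
      have hTe : T = ∅ := by
        rw [eq_empty_iff_forall_notMem]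
        intro x hx
        rcases hTx x hx with rfl | rfl | rfl
        · exact t5 hx
        · exact t6 hx
        · exact t7 hx
      ext ⟨x, y⟩
      rw [hAm, hMe, hTe, zband]
      simp only [mem_union, mem_filter, mem_insert, mem_singleton, mem_zgrid, Prod.mk.injEq,
        notMem_empty, not_false_eq_true, and_true]
      omega
    · right; right
      have hMe : M = {1, 3, 5} := by
        ext x
        simp only [mem_insert, mem_singleton]
        constructor
        · intro hx
          rcases hMx x hx with rfl | rfl | rfl | rfl | rfl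
          · exact Or.inl rfl
          · exact absurd hx m2
          · exact Or.inr (Or.inl rfl)
          · exact absurd hx m4
          · exact Or.inr (Or.inr rfl)
        · rintro (rfl | rfl | rfl)
          · exact m1
          · exact m3
          · exact m5
      have hTe : T = {6} := by
        ext x
        simp only [mem_singleton]
        constructor
        · intro hx
          rcases hTx x hx with rfl | rfl | rfl
          · exact absurd hx t5
          · rfl
          · exact absurd hx t7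
        · rintro rfl
          exact t6
      ext ⟨x, y⟩
      rw [hAm, hMe, hTe, zband]
      simp only [mem_union, mem_sdiff, mem_filter, mem_insert, mem_singleton, mem_zgrid,
        Prod.mk.injEq]
      omega

theorem small_eq {N : ℤ} {A C : Finset (ℤ × ℤ)} (hsub : A ⊆ zgrid N)
    (hC : ∀ v ∈ C, v ∈ zgrid N ∧ v ∉ A)
    (hcard : ((zgrid N).filter fun v => v ∉ A).card ≤ C.card) : A = zgrid N \ C := by
  have h1 : C ⊆ (zgrid N).filter fun v => v ∉ A := fun v hv =>
    mem_filter.2 ⟨(hC v hv).1, (hC v hv).2⟩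
  have h2 := eq_of_subset_of_card_le h1 hcard
  ext v
  rw [mem_sdiff]
  constructor
  · intro hv
    exact ⟨hsub hv, fun hcon => (hC v hcon).2 hv⟩
  · rintro ⟨h3, h4⟩
    by_contra hcon
    apply h4
    rw [h2]
    exact mem_filter.2 ⟨h3, hcon⟩

theorem small_zero {A : Finset (ℤ × ℤ)} (hsub : A ⊆ zgrid 0) : A = zslab 0 ((4 * 0 + 6) / 5) := by
  have h : zgrid 0 = ∅ := by
    rw [eq_empty_iff_forall_notMem]
    intro v hv
    rw [mem_zgrid] at hv
    omega
  have h1 : A = ∅ := by
    rw [h] at hsub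
    exact subset_empty.1 hsub
  rw [h1, zslab, h, filter_empty]

theorem small_one {A : Finset (ℤ × ℤ)} (hsub : A ⊆ zgrid 1)
    (hE : 5 * (((zgrid 1).filter fun v => v ∉ A).card : ℤ) ≤ 2 * 1 ^ 2 - 3 * 1 + 4) :
    A = zslab 1 ((4 * 1 + 6) / 5) := by
  have h := small_eq (C := ∅) hsub (by simp) (by rw [card_empty]; omega)
  rw [h]
  ext ⟨x, y⟩
  simp only [zslab, mem_sdiff, mem_filter, mem_zgrid, notMem_empty, not_false_eq_true, and_true]
  omega

theorem small_two {A : Finset (ℤ × ℤ)} (hsub : A ⊆ zgrid 2)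
    (hfree : ∀ u ∈ A, ∀ v ∈ A, u + v ∉ A)
    (hE : 5 * (((zgrid 2).filter fun v => v ∉ A).card : ℤ) ≤ 2 * 2 ^ 2 - 3 * 2 + 4) :
    A = zslab 2 ((4 * 2 + 6) / 5) ∨ A = zslab 2 ((4 * 2 + 7) / 5) := by
  by_cases h1 : ((1, 1) : ℤ × ℤ) ∈ A
  · left
    have h2 : ((2, 2) : ℤ × ℤ) ∉ A := hfree _ h1 _ h1
    have h := small_eq (C := {(2, 2)}) hsub (by
      intro v hv
      rw [mem_singleton] at hv
      subst hv
      exact ⟨by rw [mem_zgrid]; norm_num, h2⟩) (by rw [card_singleton]; omega)
    rw [h]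
    ext ⟨x, y⟩
    simp only [zslab, mem_sdiff, mem_filter, mem_zgrid, mem_singleton, Prod.mk.injEq]
    omega
  · right
    have h := small_eq (C := {(1, 1)}) hsub (by
      intro v hv
      rw [mem_singleton] at hv
      subst hv
      exact ⟨by rw [mem_zgrid]; norm_num, h1⟩) (by rw [card_singleton]; omega)
    rw [h]
    ext ⟨x, y⟩
    simp only [zslab, mem_sdiff, mem_filter, mem_zgrid, mem_singleton, Prod.mk.injEq]
    omega

theorem small_three {A : Finset (ℤ × ℤ)} (hsub : A ⊆ zgrid 3)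
    (hfree : ∀ u ∈ A, ∀ v ∈ A, u + v ∉ A)
    (hE : 5 * (((zgrid 3).filter fun v => v ∉ A).card : ℤ) ≤ 2 * 3 ^ 2 - 3 * 3 + 4) :
    A = zslab 3 ((4 * 3 + 6) / 5) ∨ A = zband 3 4 6 ∪ {(1, 2)} ∨ A = zband 3 4 6 ∪ {(2, 1)} := by
  have hm : ((zgrid 3).filter fun v => v ∉ A).card ≤ 2 := by omega
  have h11 : ((1, 1) : ℤ × ℤ) ∉ A := by
    intro h1
    have h2 : ((2, 2) : ℤ × ℤ) ∉ A := hfree _ h1 _ h1
    have h3 : ∃ a : ℤ × ℤ, (a = (1, 2) ∨ a = (2, 3)) ∧ a ∉ A := by
      by_cases h : ((1, 2) : ℤ × ℤ) ∈ A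
      · exact ⟨(2, 3), Or.inr rfl, hfree _ h1 _ h⟩
      · exact ⟨(1, 2), Or.inl rfl, h⟩
    have h4 : ∃ a : ℤ × ℤ, (a = (2, 1) ∨ a = (3, 2)) ∧ a ∉ A := by
      by_cases h : ((2, 1) : ℤ × ℤ) ∈ A
      · exact ⟨(3, 2), Or.inr rfl, hfree _ h1 _ h⟩
      · exact ⟨(2, 1), Or.inl rfl, h⟩
    obtain ⟨a, ha, haA⟩ := h3
    obtain ⟨b, hb, hbA⟩ := h4
    have h5 : ({(2, 2), a, b} : Finset (ℤ × ℤ)) ⊆ (zgrid 3).filter fun v => v ∉ A := by
      intro v hv
      rw [mem_insert, mem_insert, mem_singleton] at hv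
      rcases hv with rfl | rfl | rfl
      · exact mem_filter.2 ⟨by rw [mem_zgrid]; norm_num, h2⟩
      · refine mem_filter.2 ⟨?_, haA⟩
        rcases ha with rfl | rfl <;> (rw [mem_zgrid]; norm_num)
      · refine mem_filter.2 ⟨?_, hbA⟩
        rcases hb with rfl | rfl <;> (rw [mem_zgrid]; norm_num)
    have h6 := card_le_card h5
    have h7 : ({(2, 2), a, b} : Finset (ℤ × ℤ)).card = 3 := by
      rcases ha with rfl | rfl <;> rcases hb with rfl | rfl <;> decide
    omega
  have key : ∀ w : ℤ × ℤ, w ≠ (1, 1) → w ∈ zgrid 3 → w ∉ A → A = zgrid 3 \ {(1, 1), w} := by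
    intro w hw1 hw2 hw3
    refine small_eq hsub ?_ ?_
    · intro v hv
      rw [mem_insert, mem_singleton] at hv
      rcases hv with rfl | rfl
      · exact ⟨by rw [mem_zgrid]; norm_num, h11⟩
      · exact ⟨hw2, hw3⟩
    · rw [card_pair (Ne.symm hw1)]
      exact hm
  by_cases h33 : ((3, 3) : ℤ × ℤ) ∈ A
  · by_cases h12 : ((1, 2) : ℤ × ℤ) ∈ A
    · have h21 : ((2, 1) : ℤ × ℤ) ∉ A := fun h => hfree _ h12 _ h h33
      right; left
      rw [key (2, 1) (by decide) (by rw [mem_zgrid]; norm_num) h21]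
      ext ⟨x, y⟩
      simp only [zband, mem_sdiff, mem_filter, mem_zgrid, mem_singleton, Prod.mk.injEq,
        mem_insert, mem_union]
      omega
    · right; right
      rw [key (1, 2) (by decide) (by rw [mem_zgrid]; norm_num) h12]
      ext ⟨x, y⟩
      simp only [zband, mem_sdiff, mem_filter, mem_zgrid, mem_singleton, Prod.mk.injEq,
        mem_insert, mem_union]
      omega
  · left
    rw [key (3, 3) (by decide) (by rw [mem_zgrid]; norm_num) h33]
    ext ⟨x, y⟩
    simp only [zslab, mem_sdiff, mem_filter, mem_zgrid, mem_singleton, Prod.mk.injEq,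
      mem_insert]
    omega

/-- the description of the extremal sets -/
def IsExt (N : ℤ) (A : Finset (ℤ × ℤ)) : Prop :=
  A = zslab N ((4 * N + 6) / 5) ∨ (N % 5 = 2 ∧ A = zslab N ((4 * N + 7) / 5)) ∨
    (N = 3 ∧ (A = zband 3 4 6 ∪ {(1, 2)} ∨ A = zband 3 4 6 ∪ {(2, 1)})) ∨
    (N = 7 ∧ (A = zband 7 7 12 ∪ {(1, 5), (2, 4)} ∨ A = zband 7 7 12 ∪ {(5, 1), (4, 2)} ∨
      A = (zband 7 7 12 \ {(6, 6)}) ∪ {(1, 5), (3, 3), (5, 1)}))

theorem extremal_int {N : ℤ} {A : Finset (ℤ × ℤ)} (hN : 0 ≤ N) (hsub : A ⊆ zgrid N)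
    (hfree : ∀ u ∈ A, ∀ v ∈ A, u + v ∉ A)
    (hE : 5 * (((zgrid N).filter fun v => v ∉ A).card : ℤ) ≤ 2 * N ^ 2 - 3 * N + 4) :
    IsExt N A := by
  rcases lt_or_ge N 4 with h4 | h4
  · have : N = 0 ∨ N = 1 ∨ N = 2 ∨ N = 3 := by omega
    rcases this with rfl | rfl | rfl | rfl
    · exact Or.inl (small_zero hsub)
    · exact Or.inl (small_one hsub hE)
    · rcases small_two hsub hfree hE with h | h
      · exact Or.inl h
      · exact Or.inr (Or.inl ⟨by norm_num, h⟩)
    · rcases small_three hsub hfree hE with h | h | h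
      · exact Or.inl h
      · exact Or.inr (Or.inr (Or.inl ⟨rfl, Or.inl h⟩))
      · exact Or.inr (Or.inr (Or.inl ⟨rfl, Or.inr h⟩))
  · obtain ⟨s, hs⟩ := flat_data h4 hsub hfree hE
    by_cases h7 : N = 7
    · subst h7
      rcases flat_seven hsub hfree hs hE with h | h | h | h | h
      · exact Or.inl h
      · exact Or.inr (Or.inl ⟨by norm_num, h⟩)
      · exact Or.inr (Or.inr (Or.inr ⟨rfl, Or.inl h⟩))
      · exact Or.inr (Or.inr (Or.inr ⟨rfl, Or.inr (Or.inl h)⟩))
      · exact Or.inr (Or.inr (Or.inr ⟨rfl, Or.inr (Or.inr h)⟩))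
    · obtain ⟨hs1, hs2, hle, R1, R2⟩ := hs
      rcases flat h4 h7 hsub hfree hle hs1 hs2 R1 R2 hE with h | h
      · exact Or.inl h
      · exact Or.inr (Or.inl h)

end Pool.Agent.Work.MP_0cd883_co.Plane
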