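import Pool.Agent.Work.MP_0cd883_co.PlaneCase3

/-!
Strict inequalities when the slope of the line is not `-1`.
-/

namespace Pool.Agent.Work.MP_0cd883_co.Plane

open Finset

/-- sum over a full period of the residues, sharp form -/
theorem gain_sharp (n k : ℕ) (hk : 0 < k) :
    (n : ℤ) * (n - k) ≤ 2 * ∑ i ∈ range n, (-(((n : ℤ) - k) * (i : ℤ))) % (n : ℤ) := by
  classical
  rcases Nat.eq_zero_or_pos n with rfl | hn
  · simp
  set e : ℤ := (n : ℤ) - k with he
  set a : ℤ → ℤ := fun j => (-(e * j)) % (n : ℤ) with ha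
  have hn' : (0 : ℤ) < n := by exact_mod_cast hn
  have hper : ∀ j, a (j + n) = a j := by
    intro j
    simp only [ha]
    have : -(e * (j + n)) = -(e * j) + n * (-e) := by ring
    rw [this, Int.add_mul_emod_self_left]
  have hnn : ∀ j, 0 ≤ a j := fun j => Int.emod_nonneg _ hn'.ne'
  have hpair : ∀ j, ¬ (n : ℤ) ∣ e * j → a j + a (-j) = n := by
    intro j hj
    simp only [ha]
    have h1 : -(e * -j) = e * j := by ring
    rw [h1]
    have h2 : 0 < (e * j) % n := by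
      rcases (Int.emod_nonneg (e * j) hn'.ne').lt_or_eq with h | h
      · exact h
      · exact absurd (Int.dvd_of_emod_eq_zero h.symm) hj
    have h3 : (e * j) % n < n := Int.emod_lt_of_pos _ hn'
    have h4 : (-(e * j)) % n = n - (e * j) % n := by
      have h5 : -(e * j) = (n - (e * j) % n) + n * (-(e * j / n) - 1) := by
        have := Int.mul_ediv_add_emod (e * j) n
        linarith
      rw [h5, Int.add_mul_emod_self_left, Int.emod_eq_of_lt (by linarith) (by linarith)]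
    rw [h4]; ring
  have s2 : ∑ i ∈ range n, a (-((i : ℤ) + 1)) = ∑ i ∈ range n, a i := by
    rw [← sum_range_reflect (fun i : ℕ => a (i : ℤ)) n]
    refine sum_congr rfl fun i hi => ?_
    have hi := mem_range.1 hi
    rw [← hper]
    congr 1
    rw [Nat.cast_sub (by omega), Nat.cast_sub (by omega)]
    push_cast
    ring
  have s3 : ∑ i ∈ range n, a (-(i : ℤ)) = ∑ i ∈ range n, a i := by
    rw [← s2]
    have h1 := sum_range_succ (fun i : ℕ => a (-(i : ℤ))) n
    have h2 := sum_range_succ' (fun i : ℕ => a (-(i : ℤ))) n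
    have h3 : a (-(n : ℤ)) = a 0 := by
      rw [← hper]; simp
    have h4 : a (-((0 : ℕ) : ℤ)) = a 0 := by simp
    rw [h3] at h1
    rw [h4] at h2
    push_cast at h1 h2 ⊢
    linarith
  -- the zeros
  have hz : ((range n).filter fun i : ℕ => (n : ℤ) ∣ e * (i : ℤ)).card ≤ k := by
    have : ((range n).filter fun i : ℕ => (n : ℤ) ∣ e * (i : ℤ)).card ≤ (range k).card := by
      refine card_le_card_of_injOn (fun i => k * i / n) ?_ ?_
      · intro i hi
        rw [mem_coe, mem_filter, mem_range] at hi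
        rw [mem_coe, mem_range]
        refine Nat.div_lt_of_lt_mul ?_
        rw [mul_comm n k]
        exact Nat.mul_lt_mul_of_pos_left hi.1 hk
      · intro i hi j hj hij
        rw [mem_coe, mem_filter, mem_range] at hi hj
        have hdv : ∀ t : ℕ, (n : ℤ) ∣ e * (t : ℤ) → n ∣ k * t := by
          intro t ht
          have h1 : (n : ℤ) ∣ (k : ℤ) * t := by
            have h2 : (k : ℤ) * t = n * t - e * t := by rw [he]; ring
            rw [h2]
            exact dvd_sub (Dvd.intro _ rfl) ht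
          exact_mod_cast h1
        have h1 := Nat.div_mul_cancel (hdv i hi.2)
        have h2 := Nat.div_mul_cancel (hdv j hj.2)
        simp only at hij
        rw [hij, h2] at h1
        exact (Nat.eq_of_mul_eq_mul_left hk h1).symm
    rwa [card_range] at this
  have hsum : ∑ i ∈ range n, (if (n : ℤ) ∣ e * (i : ℤ) then (0 : ℤ) else n)
      ≤ ∑ i ∈ range n, (a i + a (-(i : ℤ))) := by
    refine sum_le_sum fun i _ => ?_
    split_ifs with h
    · linarith [hnn i, hnn (-(i : ℤ))]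
    · exact (hpair i h).ge
  have hsplit : ∑ i ∈ range n, (if (n : ℤ) ∣ e * (i : ℤ) then (0 : ℤ) else n)
      = n * (n - ((range n).filter fun i : ℕ => (n : ℤ) ∣ e * (i : ℤ)).card) := by
    have h1 : ∀ i ∈ range n, (if (n : ℤ) ∣ e * (i : ℤ) then (0 : ℤ) else n)
        = n - n * (if (n : ℤ) ∣ e * (i : ℤ) then (1 : ℤ) else 0) := by
      intro i _
      split_ifs <;> ring
    rw [sum_congr rfl h1, sum_sub_distrib, ← mul_sum, sum_boole, sum_const, card_range,
      nsmul_eq_mul]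
    ring
  rw [hsplit, sum_add_distrib, s3] at hsum
  have hz' : (((range n).filter fun i : ℕ => (n : ℤ) ∣ e * (i : ℤ)).card : ℤ) ≤ k := by
    exact_mod_cast hz
  have h6 := mul_le_mul_of_nonneg_left hz' hn'.le
  have : ∑ i ∈ range n, (-(e * (i : ℤ))) % (n : ℤ) = ∑ i ∈ range n, a i := rfl
  rw [this]
  nlinarith

/-- columns with their residues, on a subinterval `[a, b)` -/
theorem top_res (n : ℕ) {e d c a b : ℤ} (hd : 0 < d) (he : 0 < e) (h1 : e * n ≤ c)
    (ha : 1 ≤ a) (hb : b ≤ n + 1) (hab : 0 ≤ d * n - c + e * a) :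
    ∑ x ∈ Icc (1 : ℤ) n, max (d * n - c + e * x) 0
      + ∑ x ∈ Ico a b, (c - e * x) % d ≤ d * Top n d e c := by
  have hsub : Ico a b ⊆ Icc (1 : ℤ) n := by
    intro x hx
    obtain ⟨h1, h2⟩ := mem_Ico.1 hx
    exact mem_Icc.2 ⟨by omega, by omega⟩
  rw [Top_cols, mul_sum, ← sum_sdiff hsub, ← sum_sdiff hsub (f := fun x => d * _),
    add_assoc, ← sum_add_distrib]
  refine add_le_add ?_ ?_
  · refine sum_le_sum fun x hx => ?_
    obtain ⟨hx1, hx2⟩ := mem_Icc.1 (mem_sdiff.1 hx).1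
    have hex : e * x ≤ c := (mul_le_mul_of_nonneg_left hx2 he.le).trans h1
    have h3 := col_top (N := n) (e := e) hd hex
    have h4 := Int.emod_nonneg (c - e * x) hd.ne'
    refine max_le (by linarith) (by positivity)
  · refine sum_le_sum fun x hx => ?_
    obtain ⟨hx1, hx2⟩ := mem_Icc.1 (hsub hx)
    obtain ⟨hx3, hx4⟩ := mem_Ico.1 hx
    have hex : e * x ≤ c := (mul_le_mul_of_nonneg_left hx2 he.le).trans h1
    have h3 := col_top (N := n) (e := e) hd hex
    have h5 : 0 ≤ d * n - c + e * x := by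
      have a1 : e * a ≤ e * x := mul_le_mul_of_nonneg_left hx3 he.le
      linarith
    rw [max_eq_left h5]
    linarith

theorem top_gain_sharp (n D : ℕ) {e c p₁ p₂ : ℤ} (he : 0 < e) (heD : e < D) (h1 : e * n ≤ c)
    (h2 : (D : ℤ) * n ≤ c) (hW : c ≤ ((D : ℤ) + e) * n) (hc : c = e * p₁ + D * p₂)
    (hp₁ : 1 ≤ p₁) (hq₁ : p₁ + D ≤ n) (hp₂ : p₂ ≤ n) :
    ((D + e) * n - c) ^ 2 + e * ((D + e) * n - c) + e * ((D : ℤ) * e)
      ≤ 2 * e * (D * Top n D e c) := by
  have hd : (0 : ℤ) < D := by linarith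
  have hs := sum_max n he h2 hW
  obtain ⟨k, hk⟩ : ∃ k : ℕ, (k : ℤ) = D - e := ⟨(D - e).toNat, Int.toNat_of_nonneg (by linarith)⟩
  have hk0 : 0 < k := by
    have : (0 : ℤ) < k := by linarith
    exact_mod_cast this
  have hek : (D : ℤ) - k = e := by linarith
  -- residues
  have hg : (D : ℤ) * e ≤ 2 * ∑ x ∈ Ico p₁ (p₁ + D), (c - e * x) % (D : ℤ) := by
    have h3 := gain_sharp D k hk0
    rw [hek] at h3
    have h4 : ∑ x ∈ Ico p₁ (p₁ + D), (c - e * x) % (D : ℤ)
        = ∑ i ∈ range D, (-(e * (i : ℤ))) % (D : ℤ) := by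
      refine (sum_bij (fun (i : ℕ) _ => p₁ + (i : ℤ)) ?_ ?_ ?_ ?_).symm
      · intro i hi
        have := mem_range.1 hi
        simp only [mem_Ico]
        omega
      · intro i _ j _ h
        simpa using h
      · intro x hx
        obtain ⟨h1, h2⟩ := mem_Ico.1 hx
        exact ⟨(x - p₁).toNat, mem_range.2 (by omega), by omega⟩
      · intro i _
        have : c - e * (p₁ + i) = -(e * i) + D * p₂ := by rw [hc]; ring
        rw [this, Int.add_mul_emod_self_left]
    rw [h4]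
    exact h3
  have hpt := top_res n (a := p₁) (b := p₁ + D) hd he h1 hp₁ (by linarith) (by
    have a2 : (D : ℤ) * p₂ ≤ D * n := mul_le_mul_of_nonneg_left hp₂ hd.le
    linarith)
  have h6 := mul_le_mul_of_nonneg_left hpt (by linarith : (0 : ℤ) ≤ 2 * e)
  have h7 := mul_le_mul_of_nonneg_left hg he.le
  nlinarith

/-- the final inequality with a remainder -/
theorem final_gain {N d e c B R : ℤ}
    (h : 4 * (((d + e) * N - c) ^ 2 + e * ((d + e) * N - c)) + (c - 2 * e) * (c - 2 * d) + R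
      ≤ 8 * (d * e) * B) :
    8 * (d * e) * (2 * N ^ 2 - 3 * N) + (2 * (d - e) * N - d - (d - e)) ^ 2
        + 3 * d ^ 2 + 2 * d * (d - e) - 10 * (d - e) ^ 2 + 5 * R ≤ 8 * (d * e) * (5 * B) := by
  have hid : 5 * (4 * (((d + e) * N - c) ^ 2 + e * ((d + e) * N - c))
      + (c - 2 * e) * (c - 2 * d)) - 8 * (d * e) * (2 * N ^ 2 - 3 * N)
      = (5 * c - 4 * N * (d + e) - 3 * e - d) ^ 2 + (2 * (d - e) * N - d - (d - e)) ^ 2
        + 3 * d ^ 2 + 2 * d * (d - e) - 10 * (d - e) ^ 2 := by ring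
  nlinarith [sq_nonneg (5 * c - 4 * N * (d + e) - 3 * e - d)]

theorem combine {N d e c T m L B : ℤ} (hde : 0 ≤ d * e)
    (htop : ((d + e) * N - c) ^ 2 + e * ((d + e) * N - c) + e * (d * e) ≤ 2 * e * (d * T))
    (hlow : (c - 2 * e) * (c - 2 * d) - 2 * (d ^ 2 * e) ≤ 4 * (d * e) * L)
    (hch : L ≤ 2 * m) (hms : T + m ≤ B) :
    4 * (((d + e) * N - c) ^ 2 + e * ((d + e) * N - c)) + (c - 2 * e) * (c - 2 * d)
      + 2 * (d * e) * (2 * e - d) ≤ 8 * (d * e) * B := by
  have e1 := mul_le_mul_of_nonneg_left hch (by linarith : 0 ≤ 4 * (d * e))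
  have e2 := mul_le_mul_of_nonneg_left hms (by linarith : 0 ≤ 8 * (d * e))
  linarith

/-- residues: extremality means at most `3` more -/
theorem rho_le {N B : ℤ} (h : 5 * B ≤ 2 * N ^ 2 - 3 * N + 4) :
    5 * B ≤ 2 * N ^ 2 - 3 * N + 3 ∧ ((N % 5 = 0 ∨ N % 5 = 4) → 5 * B ≤ 2 * N ^ 2 - 3 * N) ∧
      ((N % 5 = 1 ∨ N % 5 = 3) → 5 * B ≤ 2 * N ^ 2 - 3 * N + 1) := by
  obtain ⟨m, r, hr0, hr5, hN⟩ : ∃ m r : ℤ, 0 ≤ r ∧ r < 5 ∧ N = 5 * m + r :=
    ⟨N / 5, N % 5, by omega, by omega, by omega⟩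
  have hmod : N % 5 = r := by omega
  have e1 : 2 * N ^ 2 - 3 * N = 5 * (10 * m ^ 2 + 4 * m * r - 3 * m) + (2 * r ^ 2 - 3 * r) := by
    rw [hN]; ring
  rw [e1] at h ⊢
  rw [hmod]
  generalize 10 * m ^ 2 + 4 * m * r - 3 * m = T at h ⊢
  interval_cases r <;> omega

theorem pos_k {D k : ℤ} (h1 : 1 ≤ k) (h2 : 2 * k ≤ D) :
    0 < 3 * D ^ 2 + 2 * D * k - 10 * k ^ 2 := by
  have a1 : 0 ≤ D * (D - 2 * k) := mul_nonneg (by linarith) (by linarith)
  have a2 : 0 ≤ k * (D - 2 * k) := mul_nonneg (by linarith) (by linarith)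
  have a3 : 1 * 1 ≤ k * k := mul_le_mul h1 h1 (by norm_num) (by linarith)
  nlinarith

theorem pair_key {D k n : ℤ} (hk1 : 1 ≤ k) (hDk : 2 * k ≤ D) (hND : D + 1 ≤ n) (hn6 : 6 ≤ n) :
    24 * (D * (D - k)) < (2 * k * n - D - k) ^ 2 + 3 * D ^ 2 + 2 * D * k - 10 * k ^ 2
        + 10 * (D * (D - k)) * (2 * (D - k) - D) := by
  have hpk := pos_k hk1 hDk
  rcases le_or_gt 3 k with hk3 | hk3
  · have f0 : 0 ≤ (k - 3) * (2 * D + 1) := mul_nonneg (by linarith) (by linarith)
    have f00 : k * (D + 1) ≤ k * n := mul_le_mul_of_nonneg_left hND (by linarith)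
    have f1 : 5 * D ≤ 2 * k * n - D - k := by linarith
    have f2 : (5 * D) ^ 2 ≤ (2 * k * n - D - k) ^ 2 := pow_le_pow_left₀ (by linarith) f1 2
    have f3 : D * (D - k) ≤ D * D := mul_le_mul_of_nonneg_left (by linarith) (by linarith)
    have f4 : 0 ≤ D * (D - k) * (2 * (D - k) - D) :=
      mul_nonneg (mul_nonneg (by linarith) (by linarith)) (by linarith)
    have f5 : 0 ≤ D * D := mul_self_nonneg D
    linarith
  · have hk12 : k = 1 ∨ k = 2 := by omega
    rcases hk12 with rfl | rfl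
    · rcases le_or_gt 5 D with h5 | h5
      · have g1 := sq_nonneg (2 * 1 * n - D - 1)
        have g2 : 0 ≤ D * (D - 1) * (10 * D - 44) :=
          mul_nonneg (mul_nonneg (by linarith) (by linarith)) (by linarith)
        linarith
      · have g1 : (2 * 6 - D - 1) ^ 2 ≤ (2 * 1 * n - D - 1) ^ 2 :=
          pow_le_pow_left₀ (by linarith) (by linarith) 2
        have hD : D = 2 ∨ D = 3 ∨ D = 4 := by omega
        rcases hD with rfl | rfl | rfl <;> linarith
    · rcases le_or_gt 7 D with h5 | h5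
      · have g1 := sq_nonneg (2 * 2 * n - D - 2)
        have g2 : 0 ≤ D * (D - 2) * (10 * (D - 4) - 24) :=
          mul_nonneg (mul_nonneg (by linarith) (by linarith)) (by linarith)
        linarith
      · have g1 : (2 * 2 * 6 - D - 2) ^ 2 ≤ (2 * 2 * n - D - 2) ^ 2 :=
          pow_le_pow_left₀ (by linarith) (by linarith) 2
        have hD : D = 4 ∨ D = 5 ∨ D = 6 := by omega
        rcases hD with rfl | rfl | rfl <;> linarith

theorem pair_strict {N d e c p1 p2 : ℤ} {A : Finset (ℤ × ℤ)} (C : Contact N d e c p1 p2 A)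
    (hle : ∀ v ∈ A, lev e d v ≤ c) (hed : e < d) (h4 : d * N ≤ c) (hN : N ≠ 3)
    (hE : 5 * (((zgrid N).filter fun v => v ∉ A).card : ℤ) ≤ 2 * N ^ 2 - 3 * N + 4) : False := by
  classical
  obtain ⟨hp1, hp1N, hp2, hp2N⟩ := C.P_pos
  obtain ⟨hq1, hq1N, hq2, hq2N⟩ := C.Q_pos
  have hd := C.hd
  have he := C.he
  have hc := C.hc
  have h1 := C.h1
  have h2 := C.h2
  obtain ⟨n, rfl⟩ : ∃ n : ℕ, N = n := ⟨N.toNat, by rw [Int.toNat_of_nonneg (by omega)]⟩
  obtain ⟨D, rfl⟩ : ∃ D : ℕ, d = D := ⟨d.toNat, by rw [Int.toNat_of_nonneg (by omega)]⟩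
  have hn : (0 : ℤ) < n := by linarith
  have hde : (D : ℤ) ≤ 2 * e := by
    have e1 : e * (p1 + D) ≤ e * n := mul_le_mul_of_nonneg_left hq1N he.le
    have e2 : (D : ℤ) * n < (2 * e) * n := by linarith
    exact (lt_of_mul_lt_mul_right e2 hn.le).le
  have hW : c ≤ ((D : ℤ) + e) * n := by
    have e1 : e * p1 ≤ e * n := mul_le_mul_of_nonneg_left hp1N he.le
    have e2 : (D : ℤ) * p2 ≤ D * n := mul_le_mul_of_nonneg_left hp2N hd.le
    linarith
  have h4e : e * n ≤ c := (mul_le_mul_of_nonneg_right hed.le hn.le).trans h4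
  have hch := C.chain
  have hms := missing_split (N := (n : ℤ)) hle
  have hpos : 0 < (D : ℤ) * e := by positivity
  have hch' : 2 * (((zgrid n).filter fun v => 2 * lev e D v < c).card : ℤ) +
      ((zgrid n).filter fun v => 2 * lev e D v = c).card ≤
    2 * ((zgrid n).filter fun v => v ∉ A ∧ lev e D v ≤ c).card := by
    exact_mod_cast hch
  rw [← lt_le_card] at hch'
  have hlow := low_count_pair (N := n) he hed.le hp1 hq1N hq2 hp2N hc h1 h2
  have htop := top_gain_sharp n D he hed h4e h4 hW hc.symm hp1 hq1N hp2N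
  rw [sum_wt] at hlow
  set B : ℤ := (((zgrid (n : ℤ)).filter fun v => v ∉ A).card : ℤ) with hB
  have hfg := final_gain (N := n) (d := D) (e := e) (c := c) (B := B)
    (R := 2 * (D * e) * (2 * e - D)) (combine hpos.le htop hlow hch' hms)
  clear_value B
  clear hlow htop hch hch' hms
  obtain ⟨hr1, hr2, -⟩ := rho_le hE
  obtain ⟨k, hk⟩ : ∃ k : ℤ, k = D - e := ⟨_, rfl⟩
  have hek : e = D - k := by linarith
  have hk1 : 1 ≤ k := by linarith
  have hDk : 2 * k ≤ D := by linarith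
  have hND : (D : ℤ) + 1 ≤ n := by linarith
  rw [← hk] at hfg
  have hpk := pos_k hk1 hDk
  by_cases hmod : (n : ℤ) % 5 = 0 ∨ (n : ℤ) % 5 = 4
  · have h5 := hr2 hmod
    have e3 := mul_le_mul_of_nonneg_left h5 (by linarith : 0 ≤ 8 * ((D : ℤ) * e))
    have e4 : 0 ≤ (D : ℤ) * e * (2 * e - D) := mul_nonneg hpos.le (by linarith)
    have e5 := sq_nonneg (2 * k * (n : ℤ) - D - k)
    linarith
  · have hn6 : (6 : ℤ) ≤ n := by omega
    have e3 := mul_le_mul_of_nonneg_left hr1 (by linarith : 0 ≤ 8 * ((D : ℤ) * e))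
    have key := pair_key hk1 hDk hND hn6
    rw [← hek] at key
    linarith

theorem single_key {D k n : ℤ} (hk1 : 1 ≤ k) (hDk : 2 * k ≤ D) (hND : D ≤ n) (hn6 : 6 ≤ n) :
    24 * (D * (D - k)) < (2 * k * n - D - k) ^ 2 + 3 * D ^ 2 + 2 * D * k - 10 * k ^ 2
        + 40 * (D - k) ^ 2 := by
  rcases le_or_gt 3 k with hk3 | hk3
  · have f0 : 0 ≤ (k - 3) * (2 * D - 1) := mul_nonneg (by linarith) (by linarith)
    have f00 : k * D ≤ k * n := mul_le_mul_of_nonneg_left hND (by linarith)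
    have f1 : 5 * D - 3 ≤ 2 * k * n - D - k := by linarith
    have f2 : (5 * D - 3) ^ 2 ≤ (2 * k * n - D - k) ^ 2 := pow_le_pow_left₀ (by linarith) f1 2
    have f3 : 0 ≤ k * (D - 2 * k) := mul_nonneg (by linarith) (by linarith)
    have f4 : 0 ≤ D * (k - 3) := mul_nonneg (by linarith) (by linarith)
    have f5 := sq_nonneg (D - k)
    have f6 := sq_nonneg D
    linarith
  · have hk12 : k = 1 ∨ k = 2 := by omega
    rcases hk12 with rfl | rfl
    · rcases le_or_gt 3 D with h5 | h5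
      · have g1 := sq_nonneg (2 * 1 * n - D - 1)
        have g2 : 0 ≤ D * (D - 3) := mul_nonneg (by linarith) (by linarith)
        linarith
      · have g1 : (2 * 6 - D - 1) ^ 2 ≤ (2 * 1 * n - D - 1) ^ 2 :=
          pow_le_pow_left₀ (by linarith) (by linarith) 2
        have hD : D = 2 := by omega
        subst hD
        linarith
    · rcases le_or_gt 6 D with h5 | h5
      · have g1 := sq_nonneg (2 * 2 * n - D - 2)
        have g2 : 0 ≤ D * (D - 6) := mul_nonneg (by linarith) (by linarith)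
        linarith
      · have g1 : (2 * 2 * 6 - D - 2) ^ 2 ≤ (2 * 2 * n - D - 2) ^ 2 :=
          pow_le_pow_left₀ (by linarith) (by linarith) 2
        have hD : D = 4 ∨ D = 5 := by omega
        rcases hD with rfl | rfl <;> linarith

theorem combine_single {N d e c T m L B : ℤ} (hde : 0 ≤ d * e)
    (htop : ((d + e) * N - c) ^ 2 + e * ((d + e) * N - c) + 2 * e * e ≤ 2 * e * (d * T))
    (hlow : (c - 2 * e) * (c - 2 * d) ≤ 4 * (d * e) * L)
    (hch : L ≤ 2 * m) (hms : T + m ≤ B) :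
    4 * (((d + e) * N - c) ^ 2 + e * ((d + e) * N - c)) + (c - 2 * e) * (c - 2 * d)
      + 8 * e ^ 2 ≤ 8 * (d * e) * B := by
  have e1 := mul_le_mul_of_nonneg_left hch (by linarith : 0 ≤ 4 * (d * e))
  have e2 := mul_le_mul_of_nonneg_left hms (by linarith : 0 ≤ 8 * (d * e))
  linarith

theorem single_strict {N p1 p2 : ℤ} {A : Finset (ℤ × ℤ)} (hsub : A ⊆ zgrid N)
    (hfree : ∀ u ∈ A, ∀ v ∈ A, u + v ∉ A) (hP : (p1, p2) ∈ A)
    (hle : ∀ v ∈ A, lev p2 p1 v ≤ 2 * (p1 * p2)) (hed : p2 < p1) (h4 : N ≤ 2 * p2)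
    (hN2 : N ≠ 2) (hN : N ≠ 3)
    (hE : 5 * (((zgrid N).filter fun v => v ∉ A).card : ℤ) ≤ 2 * N ^ 2 - 3 * N + 4) : False := by
  classical
  obtain ⟨hp1, hp1N, hp2, hp2N⟩ := mem_zgrid.1 (hsub hP)
  simp only at hp1 hp1N hp2 hp2N
  obtain ⟨n, rfl⟩ : ∃ n : ℕ, N = n := ⟨N.toNat, by rw [Int.toNat_of_nonneg (by omega)]⟩
  have hch := chain_single hsub hfree hP
  have hms := missing_split (N := (n : ℤ)) hle
  have hlow := low_count (N := n) (e := p2) (d := p1) (c := 2 * (p1 * p2)) (p1 := p1) (p2 := p2)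
    (by linarith) (by linarith) hp1 hp1N hp2 hp2N (by ring) (by nlinarith) (by linarith [mul_comm p1 p2])
  have hen : p2 * (n : ℤ) ≤ 2 * (p1 * p2) := by nlinarith
  have hdn : p1 * (n : ℤ) ≤ 2 * (p1 * p2) := by nlinarith
  have hs := sum_max n (e := p2) (d := p1) (c := 2 * (p1 * p2)) (by linarith) hdn (by nlinarith)
  have hres := top_res n (e := p2) (d := p1) (c := 2 * (p1 * p2)) (a := p1 - 1) (b := p1)
    (by linarith) (by linarith) hen (by linarith) (by linarith) (by nlinarith)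
  have hIco : Ico (p1 - 1) p1 = {p1 - 1} := by
    ext x
    simp only [mem_Ico, mem_singleton]
    omega
  have hmod1 : (2 * (p1 * p2) - p2 * (p1 - 1)) % p1 = p2 := by
    have : 2 * (p1 * p2) - p2 * (p1 - 1) = p2 + p1 * p2 := by ring
    rw [this, Int.add_mul_emod_self_left, Int.emod_eq_of_lt (by linarith) hed]
  rw [hIco, sum_singleton, hmod1] at hres
  have htop : ((p1 + p2) * n - 2 * (p1 * p2)) ^ 2 + p2 * ((p1 + p2) * n - 2 * (p1 * p2))
      + 2 * p2 * p2 ≤ 2 * p2 * (p1 * Top n p1 p2 (2 * (p1 * p2))) := by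
    have e1 := mul_le_mul_of_nonneg_left hres (by linarith : (0 : ℤ) ≤ 2 * p2)
    linarith
  rw [sum_wt, lt_le_card] at hlow
  have hch' : 2 * (((zgrid n).filter fun v => 2 * lev p2 p1 v < 2 * (p1 * p2)).card : ℤ) +
      ((zgrid n).filter fun v => 2 * lev p2 p1 v = 2 * (p1 * p2)).card ≤
    2 * ((zgrid n).filter fun v => v ∉ A ∧ lev p2 p1 v ≤ 2 * (p1 * p2)).card := by
    exact_mod_cast hch
  have hpos : 0 < p1 * p2 := by positivity
  set B : ℤ := (((zgrid (n : ℤ)).filter fun v => v ∉ A).card : ℤ) with hB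
  have hlow' : (2 * (p1 * p2) - 2 * p2) * (2 * (p1 * p2) - 2 * p1)
      ≤ 4 * (p1 * p2) * (2 * (((zgrid n).filter fun v => 2 * lev p2 p1 v < 2 * (p1 * p2)).card : ℤ) +
      ((zgrid n).filter fun v => 2 * lev p2 p1 v = 2 * (p1 * p2)).card) := by
    linarith
  have hfg := final_gain (N := n) (d := p1) (e := p2) (c := 2 * (p1 * p2)) (B := B)
    (R := 8 * p2 ^ 2) (combine_single hpos.le htop hlow' hch' hms)
  clear_value B
  clear hlow hlow' htop hch hch' hms hres hs
  obtain ⟨hr1, hr2, -⟩ := rho_le hE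
  obtain ⟨k, hk⟩ : ∃ k : ℤ, k = p1 - p2 := ⟨_, rfl⟩
  have hek : p2 = p1 - k := by linarith
  have hk1 : 1 ≤ k := by linarith
  have hDk : 2 * k ≤ p1 := by linarith
  rw [← hk] at hfg
  have hpk := pos_k hk1 hDk
  by_cases hmod : (n : ℤ) % 5 = 0 ∨ (n : ℤ) % 5 = 4
  · have h5 := hr2 hmod
    have e3 := mul_le_mul_of_nonneg_left h5 (by linarith : 0 ≤ 8 * (p1 * p2))
    have e4 := sq_nonneg p2
    have e5 := sq_nonneg (2 * k * (n : ℤ) - p1 - k)
    linarith
  · have hn6 : (6 : ℤ) ≤ n := by omega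
    have e3 := mul_le_mul_of_nonneg_left hr1 (by linarith : 0 ≤ 8 * (p1 * p2))
    have key := single_key hk1 hDk hp1N hn6
    rw [← hek] at key
    linarith

end Pool.Agent.Work.MP_0cd883_co.Plane
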