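import Pool.Agent.Work.MP_0cd883_co.PlaneLow
import Pool.Agent.Work.MP_0cd883_co.PlaneHalf

/-!
Lower bounds for the number of lattice points of the square above a line.
-/

namespace Pool.Agent.Work.MP_0cd883_co.Plane

open Finset

theorem card_cols (N : ℤ) (p : ℤ × ℤ → Prop) [DecidablePred p] :
    ((zgrid N).filter p).card = ∑ x ∈ Icc 1 N, ((Icc 1 N).filter fun y => p (x, y)).card := by
  simp only [zgrid, card_filter, sum_product]

theorem card_rows (N : ℤ) (p : ℤ × ℤ → Prop) [DecidablePred p] :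
    ((zgrid N).filter p).card = ∑ y ∈ Icc 1 N, ((Icc 1 N).filter fun x => p (x, y)).card := by
  simp only [zgrid, card_filter, sum_product_right]

theorem sum_Icc (n : ℕ) (g : ℤ → ℤ) :
    ∑ x ∈ Icc (1 : ℤ) n, g x = ∑ i ∈ range n, g ((i : ℤ) + 1) := by
  refine (sum_bij (fun (i : ℕ) _ => (i : ℤ) + 1) ?_ ?_ ?_ ?_).symm
  · intro i hi
    have := mem_range.1 hi
    simp only [mem_Icc]
    omega
  · intro i _ j _ h
    simpa using h
  · intro x hx
    obtain ⟨h1, h2⟩ := mem_Icc.1 hx
    exact ⟨(x - 1).toNat, mem_range.2 (by omega), by omega⟩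
  · intro i _
    rfl

/-- telescoping lower bound, step up -/
theorem tele_up {e : ℤ} (he : 0 < e) (w : ℤ) (n : ℕ) :
    (max (w + e * n) 0) ^ 2 + e * max (w + e * n) 0 - ((max w 0) ^ 2 + e * max w 0)
      ≤ 2 * e * ∑ i ∈ range n, max (w + e * ((i : ℤ) + 1)) 0 := by
  induction n with
  | zero => simp
  | succ n ih =>
    rw [sum_range_succ, mul_add]
    have key : (max (w + e * ((n : ℤ) + 1)) 0) ^ 2 + e * max (w + e * ((n : ℤ) + 1)) 0
        - ((max (w + e * n) 0) ^ 2 + e * max (w + e * n) 0)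
        ≤ 2 * e * max (w + e * ((n : ℤ) + 1)) 0 := by
      set t := w + e * n with ht
      have ht2 : w + e * ((n : ℤ) + 1) = t + e := by rw [ht]; ring
      rw [ht2]
      rcases le_total 0 t with h1 | h1
      · rw [max_eq_left h1, max_eq_left (by linarith)]
        nlinarith
      · rw [max_eq_right h1]
        rcases le_total 0 (t + e) with h2 | h2
        · rw [max_eq_left h2]
          nlinarith
        · rw [max_eq_right h2]
          simp
    push_cast
    linarith

/-- telescoping lower bound, step down -/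
theorem tele_down {b : ℤ} (hb : 0 < b) (m : ℤ) (n : ℕ) :
    (max m 0) ^ 2 - b * max m 0 - ((max (m - b * n) 0) ^ 2 - b * max (m - b * n) 0)
      ≤ 2 * b * ∑ i ∈ range n, max (m - b * ((i : ℤ) + 1)) 0 := by
  induction n with
  | zero => simp
  | succ n ih =>
    rw [sum_range_succ, mul_add]
    have key : (max (m - b * n) 0) ^ 2 - b * max (m - b * n) 0
        - ((max (m - b * ((n : ℤ) + 1)) 0) ^ 2 - b * max (m - b * ((n : ℤ) + 1)) 0)
        ≤ 2 * b * max (m - b * ((n : ℤ) + 1)) 0 := by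
      set t := m - b * n with ht
      have ht2 : m - b * ((n : ℤ) + 1) = t - b := by rw [ht]; ring
      rw [ht2]
      rcases le_total 0 (t - b) with h1 | h1
      · rw [max_eq_left h1, max_eq_left (by linarith)]
        nlinarith
      · rw [max_eq_right h1]
        rcases le_total 0 t with h2 | h2
        · rw [max_eq_left h2]
          nlinarith
        · rw [max_eq_right h2]
          simp
    push_cast
    linarith

/-- inner count: lower bound for the number of `t` in an arithmetic window -/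
theorem inner {N a m t₀ : ℤ} (ha : 0 < a) (ht₀ : 1 ≤ t₀)
    (hN : ∀ t, t₀ ≤ t → a * (t - t₀) < m → t ≤ N) :
    m ≤ a * ((Icc 1 N).filter fun t => t₀ ≤ t ∧ a * (t - t₀) < m).card := by
  rcases le_or_gt m 0 with hm | hm
  · have : (0 : ℤ) ≤ a * ((Icc 1 N).filter fun t => t₀ ≤ t ∧ a * (t - t₀) < m).card := by
      positivity
    linarith
  · set k := (m + a - 1) / a with hk
    have hk1 : m ≤ a * k := by
      have := Int.lt_ediv_add_one_mul_self (m + a - 1) ha
      rw [← hk] at this
      nlinarith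
    have hk2 : a * k ≤ m + a - 1 := by
      have := Int.ediv_mul_le (m + a - 1) ha.ne'
      rw [← hk] at this
      linarith
    have hk0 : 0 ≤ k := by
      by_contra h
      push Not at h
      nlinarith
    have hsub : Ico t₀ (t₀ + k) ⊆ (Icc 1 N).filter fun t => t₀ ≤ t ∧ a * (t - t₀) < m := by
      intro t ht
      obtain ⟨h1, h2⟩ := mem_Ico.1 ht
      have h3 : a * (t - t₀) < m := by
        have : a * (t - t₀ + 1) ≤ a * k := mul_le_mul_of_nonneg_left (by omega) ha.le
        nlinarith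
      exact mem_filter.2 ⟨mem_Icc.2 ⟨by omega, hN t h1 h3⟩, h1, h3⟩
    have hc := card_le_card hsub
    rw [Int.card_Ico] at hc
    have hc2 : k ≤ ((Icc 1 N).filter fun t => t₀ ≤ t ∧ a * (t - t₀) < m).card := by
      have : ((t₀ + k - t₀).toNat : ℤ) = k := by
        rw [Int.toNat_of_nonneg (by omega)]; ring
      have hc' : ((t₀ + k - t₀).toNat : ℤ)
          ≤ ((Icc 1 N).filter fun t => t₀ ≤ t ∧ a * (t - t₀) < m).card := by exact_mod_cast hc
      rw [this] at hc'
      exact hc'
    calc m ≤ a * k := hk1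
      _ ≤ _ := mul_le_mul_of_nonneg_left hc2 ha.le

/-- column count above the line -/
theorem col_top {N e d c x : ℤ} (hd : 0 < d) (hx : e * x ≤ c) :
    d * N - (c - e * x) + (c - e * x) % d
      ≤ d * ((Icc 1 N).filter fun y => c < e * x + d * y).card := by
  have hsub : Ioc ((c - e * x) / d) N ⊆ (Icc 1 N).filter fun y => c < e * x + d * y := by
    intro y hy
    obtain ⟨h1, h2⟩ := mem_Ioc.1 hy
    have h3 : 0 ≤ (c - e * x) / d := Int.ediv_nonneg (by linarith) hd.le
    have h4 := (Int.ediv_lt_iff_lt_mul hd).1 h1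
    refine mem_filter.2 ⟨mem_Icc.2 ⟨by omega, h2⟩, by linarith⟩
  have hc := card_le_card hsub
  rw [Int.card_Ioc] at hc
  have h4 : N - (c - e * x) / d ≤ ((Icc 1 N).filter fun y => c < e * x + d * y).card := by
    have : N - (c - e * x) / d ≤ ((N - (c - e * x) / d).toNat : ℤ) := Int.self_le_toNat _
    have h5 : ((N - (c - e * x) / d).toNat : ℤ)
        ≤ ((Icc 1 N).filter fun y => c < e * x + d * y).card := by exact_mod_cast hc
    linarith
  have h6 := mul_le_mul_of_nonneg_left h4 hd.le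
  have h7 := Int.mul_ediv_add_emod (c - e * x) d
  nlinarith

/-- sum over a full period of the residues -/
theorem gain (n : ℕ) (e : ℤ) (hn : 0 < n) (h0 : ¬ (n : ℤ) ∣ e) :
    (n : ℤ) ^ 2 ≤ 4 * ∑ i ∈ range n, (-(e * (i : ℤ))) % (n : ℤ) := by
  set a : ℤ → ℤ := fun j => (-(e * j)) % (n : ℤ) with ha
  have hn' : (0 : ℤ) < n := by exact_mod_cast hn
  have hper : ∀ j, a (j + n) = a j := by
    intro j
    simp only [ha]
    have : -(e * (j + n)) = -(e * j) + n * (-e) := by ring
    rw [this, Int.add_mul_emod_self_left]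
  have hnn : ∀ j, 0 ≤ a j := fun j => Int.emod_nonneg _ hn'.ne'
  have hpair : ∀ j, ¬ (n : ℤ) ∣ e * j → a j + a (-j) = n := by
    intro j hj
    simp only [ha]
    have h1 : -(e * -j) = e * j := by ring
    rw [h1]
    have h2 : 0 < (e * j) % n := by
      rcases (Int.emod_nonneg (e * j) hn'.ne').lt_or_eq with h | h
      · exact h
      · exact absurd (Int.dvd_of_emod_eq_zero h.symm) hj
    have h3 : (e * j) % n < n := Int.emod_lt_of_pos _ hn'
    have h4 : (-(e * j)) % n = n - (e * j) % n := by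
      have h5 : -(e * j) = (n - (e * j) % n) + n * (-(e * j / n) - 1) := by
        have := Int.mul_ediv_add_emod (e * j) n
        linarith
      rw [h5, Int.add_mul_emod_self_left, Int.emod_eq_of_lt (by linarith) (by linarith)]
    rw [h4]; ring
  have hpt : ∀ j : ℤ, (n : ℤ) ≤ a j + a (-j) + (a (j + 1) + a (-(j + 1))) := by
    intro j
    by_cases h1 : (n : ℤ) ∣ e * j
    · have h2 : ¬ (n : ℤ) ∣ e * (j + 1) := by
        intro h3
        apply h0
        have : e = e * (j + 1) - e * j := by ring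
        rw [this]
        exact dvd_sub h3 h1
      have := hpair _ h2
      linarith [hnn j, hnn (-j)]
    · have := hpair _ h1
      linarith [hnn (j + 1), hnn (-(j + 1))]
  -- the four sums are equal
  have s1 : ∑ i ∈ range n, a ((i : ℤ) + 1) = ∑ i ∈ range n, a i := by
    have h1 := sum_range_succ (fun i : ℕ => a i) n
    have h2 := sum_range_succ' (fun i : ℕ => a i) n
    have h3 : a (n : ℤ) = a 0 := by simpa using hper 0
    push_cast at h1 h2
    rw [h3] at h1
    linarith
  have s2 : ∑ i ∈ range n, a (-((i : ℤ) + 1)) = ∑ i ∈ range n, a i := by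
    rw [← sum_range_reflect (fun i : ℕ => a (i : ℤ)) n]
    refine sum_congr rfl fun i hi => ?_
    have hi := mem_range.1 hi
    rw [← hper]
    congr 1
    rw [Nat.cast_sub (by omega), Nat.cast_sub (by omega)]
    push_cast
    ring
  have s3 : ∑ i ∈ range n, a (-(i : ℤ)) = ∑ i ∈ range n, a i := by
    rw [← s2]
    have h1 := sum_range_succ (fun i : ℕ => a (-(i : ℤ))) n
    have h2 := sum_range_succ' (fun i : ℕ => a (-(i : ℤ))) n
    have h3 : a (-(n : ℤ)) = a 0 := by
      rw [← hper]; simp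
    have h4 : a (-((0 : ℕ) : ℤ)) = a 0 := by simp
    rw [h3] at h1
    rw [h4] at h2
    push_cast at h1 h2 ⊢
    linarith
  have hsum : ∑ i ∈ range n, (n : ℤ)
      ≤ ∑ i ∈ range n, (a i + a (-(i : ℤ)) + (a ((i : ℤ) + 1) + a (-((i : ℤ) + 1)))) :=
    sum_le_sum fun i _ => hpt i
  rw [sum_const, card_range, sum_add_distrib, sum_add_distrib, sum_add_distrib, s1, s2, s3,
    nsmul_eq_mul] at hsum
  have : ∑ i ∈ range n, (-(e * (i : ℤ))) % (n : ℤ) = ∑ i ∈ range n, a i := rfl
  rw [this]
  nlinarith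

/-- number of grid points above the line -/
noncomputable def Top (N d e c : ℤ) : ℤ := ((zgrid N).filter fun v => c < e * v.1 + d * v.2).card

theorem sum_max (n : ℕ) {e d c : ℤ} (he : 0 < e) (h2 : d * n ≤ c) (hW : c ≤ (d + e) * n) :
    ((d + e) * n - c) ^ 2 + e * ((d + e) * n - c)
      ≤ 2 * e * ∑ x ∈ Icc (1 : ℤ) n, max (d * n - c + e * x) 0 := by
  have h := tele_up he (d * n - c) n
  rw [sum_Icc]
  have h3 : d * n - c + e * n = (d + e) * n - c := by ring
  rw [h3, max_eq_left (by linarith : (0 : ℤ) ≤ (d + e) * n - c),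
    max_eq_right (by linarith : d * (n : ℤ) - c ≤ 0)] at h
  linarith

theorem Top_cols (n : ℕ) {e d c : ℤ} :
    Top n d e c = ∑ x ∈ Icc (1 : ℤ) n, (((Icc (1 : ℤ) n).filter fun y => c < e * x + d * y).card : ℤ) := by
  unfold Top
  rw [card_cols]
  push_cast
  rfl

theorem top_main (n : ℕ) {e d c : ℤ} (hd : 0 < d) (he : 0 < e) (h1 : e * n ≤ c)
    (h2 : d * n ≤ c) (hW : c ≤ (d + e) * n) :
    ((d + e) * n - c) ^ 2 + e * ((d + e) * n - c) ≤ 2 * e * (d * Top n d e c) := by
  refine (sum_max n he h2 hW).trans ?_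
  refine mul_le_mul_of_nonneg_left ?_ (by linarith)
  rw [Top_cols, mul_sum]
  refine sum_le_sum fun x hx => ?_
  obtain ⟨hx1, hx2⟩ := mem_Icc.1 hx
  have hex : e * x ≤ c := (mul_le_mul_of_nonneg_left hx2 he.le).trans h1
  have h3 := col_top (N := n) (e := e) hd hex
  have h4 := Int.emod_nonneg (c - e * x) hd.ne'
  refine max_le (by linarith) (by positivity)

theorem top_gain (n D : ℕ) {e c p₁ p₂ : ℤ} (he : 0 < e) (heD : e < D) (h1 : e * n ≤ c)
    (h2 : (D : ℤ) * n ≤ c) (hW : c ≤ ((D : ℤ) + e) * n) (hc : c = e * p₁ + D * p₂)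
    (hp₁ : 1 ≤ p₁) (hq₁ : p₁ + D ≤ n) (hp₂ : p₂ ≤ n) :
    2 * (((D + e) * n - c) ^ 2 + e * ((D + e) * n - c)) + e * (D : ℤ) ^ 2
      ≤ 4 * e * (D * Top n D e c) := by
  have hd : (0 : ℤ) < D := by linarith
  have hs := sum_max n he h2 hW
  -- residues
  have hg : (D : ℤ) ^ 2 ≤ 4 * ∑ x ∈ Ico p₁ (p₁ + D), (c - e * x) % (D : ℤ) := by
    have h0 : ¬ (D : ℤ) ∣ e := fun h => by
      have := Int.le_of_dvd he h
      linarith
    have h3 := gain D e (by exact_mod_cast hd) h0
    have h4 : ∑ x ∈ Ico p₁ (p₁ + D), (c - e * x) % (D : ℤ)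
        = ∑ i ∈ range D, (-(e * (i : ℤ))) % (D : ℤ) := by
      refine (sum_bij (fun (i : ℕ) _ => p₁ + (i : ℤ)) ?_ ?_ ?_ ?_).symm
      · intro i hi
        have := mem_range.1 hi
        simp only [mem_Ico]
        omega
      · intro i _ j _ h
        simpa using h
      · intro x hx
        obtain ⟨h1, h2⟩ := mem_Ico.1 hx
        exact ⟨(x - p₁).toNat, mem_range.2 (by omega), by omega⟩
      · intro i _
        have : c - e * (p₁ + i) = -(e * i) + D * p₂ := by rw [hc]; ring
        rw [this, Int.add_mul_emod_self_left]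
    rw [h4]
    exact h3
  have hsub : Ico p₁ (p₁ + D) ⊆ Icc (1 : ℤ) n := by
    intro x hx
    obtain ⟨h1, h2⟩ := mem_Ico.1 hx
    exact mem_Icc.2 ⟨by omega, by omega⟩
  have hpt : ∑ x ∈ Icc (1 : ℤ) n, max (D * n - c + e * x) 0
      + ∑ x ∈ Ico p₁ (p₁ + D), (c - e * x) % (D : ℤ) ≤ D * Top n D e c := by
    rw [Top_cols, mul_sum, ← sum_sdiff hsub, ← sum_sdiff hsub (f := fun x => (D : ℤ) * _),
      add_assoc, ← sum_add_distrib]
    refine add_le_add ?_ ?_
    · refine sum_le_sum fun x hx => ?_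
      obtain ⟨hx1, hx2⟩ := mem_Icc.1 (mem_sdiff.1 hx).1
      have hex : e * x ≤ c := (mul_le_mul_of_nonneg_left hx2 he.le).trans h1
      have h3 := col_top (N := n) (e := e) hd hex
      have h4 := Int.emod_nonneg (c - e * x) hd.ne'
      refine max_le (by linarith) (by positivity)
    · refine sum_le_sum fun x hx => ?_
      obtain ⟨hx1, hx2⟩ := mem_Icc.1 (hsub hx)
      obtain ⟨hx3, hx4⟩ := mem_Ico.1 hx
      have hex : e * x ≤ c := (mul_le_mul_of_nonneg_left hx2 he.le).trans h1
      have h3 := col_top (N := n) (e := e) hd hex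
      have h5 : 0 ≤ D * n - c + e * x := by
        have a1 : e * p₁ ≤ e * x := mul_le_mul_of_nonneg_left hx3 he.le
        have a2 : (D : ℤ) * p₂ ≤ D * n := mul_le_mul_of_nonneg_left hp₂ hd.le
        linarith
      rw [max_eq_left h5]
      linarith
  have h6 := mul_le_mul_of_nonneg_left hpt (by linarith : (0 : ℤ) ≤ 4 * e)
  have h7 := mul_le_mul_of_nonneg_left hg he.le
  nlinarith


end Pool.Agent.Work.MP_0cd883_co.Plane
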