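import Pool.Agent.Work.MP_0cd883_co.Couple

/-!
# Tail estimate for the product weight
-/

namespace Pool.Agent.Work.MP_0cd883_co

open Finset

lemma exp_neg_third_nrm {L : ℝ} (hL : 0 < L) : nrm L * Real.exp (-(L / 3)) = (rho L)⁻¹ := by
  have h1 : Real.exp (-L) < 1 := Real.exp_lt_one_iff.2 (by linarith)
  have h2 : 1 - Real.exp (-L) ≠ 0 := by linarith
  have h3 : Real.exp (L / 3) ≠ 0 := (Real.exp_pos _).ne'
  rw [nrm, rho, Real.exp_neg (L / 3)]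
  field_simp

/-- mean zero -/
lemma FF_mean {L : ℝ} (hL : Opt L) {m : ℕ} (hm : 1 ≤ m) :
    ∑ i : Fin (m + 1), FF L m i * ((i : ℝ) / m - 1 / 3) = 0 := by
  obtain ⟨Q, -, h1, h2, h3⟩ := exists_coupling hL hm
  have hm0 : (m : ℝ) ≠ 0 := by
    have : m ≠ 0 := by omega
    exact_mod_cast this
  have e1 := h1 fun i => (i : ℝ) / m - 1 / 3
  have e2 := h2 fun i => (i : ℝ) / m - 1 / 3
  have e3 := h3 fun i => (i : ℝ) / m - 1 / 3
  have h4 : ∑ τ : TT m, (Q τ * (((τ.1.1 : ℕ) : ℝ) / m - 1 / 3) +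
      Q τ * (((τ.1.2.1 : ℕ) : ℝ) / m - 1 / 3) + Q τ * (((τ.1.2.2 : ℕ) : ℝ) / m - 1 / 3)) = 0 := by
    apply Finset.sum_eq_zero
    intro τ _
    have h5 : ((τ.1.1 : ℕ) : ℝ) + (τ.1.2.1 : ℕ) + (τ.1.2.2 : ℕ) = m := by exact_mod_cast τ.2
    have h6 : ((τ.1.1 : ℕ) : ℝ) / m + ((τ.1.2.1 : ℕ) : ℝ) / m + ((τ.1.2.2 : ℕ) : ℝ) / m = 1 := by
      rw [← add_div, ← add_div, h5, div_self hm0]
    linear_combination (Q τ) * h6
  rw [Finset.sum_add_distrib, Finset.sum_add_distrib] at h4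
  beta_reduce at e1 e2 e3
  linarith

lemma FF_total {L : ℝ} (hL : Opt L) {m : ℕ} (hm : 1 ≤ m) :
    ∑ i : Fin (m + 1), FF L m i = 1 := by
  rw [Fin.sum_univ_eq_sum_range (fun i => FF L m i), FF_sum hL.1 hm]

lemma FF_mgf {L : ℝ} (hL : Opt L) {m : ℕ} (hm : 1 ≤ m) {θ : ℝ} (h0 : 0 ≤ θ) (h1 : θ ≤ 1) :
    ∑ i : Fin (m + 1), FF L m i * Real.exp (-θ * ((i : ℝ) / m - 1 / 3)) ≤
      Real.exp (4 / 9 * θ ^ 2) := by
  have hm0 : (0 : ℝ) < m := by exact_mod_cast hm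
  have h2 : ∀ i : Fin (m + 1), FF L m i * Real.exp (-θ * ((i : ℝ) / m - 1 / 3)) ≤
      FF L m i * (1 + 4 / 9 * θ ^ 2) - θ * (FF L m i * ((i : ℝ) / m - 1 / 3)) := by
    intro i
    have h3 : (0 : ℝ) ≤ (i : ℝ) / m := by positivity
    have h4 : (i : ℝ) / m ≤ 1 := by
      rw [div_le_one hm0]
      have : (i : ℕ) ≤ m := Nat.lt_succ_iff.1 i.2
      exact_mod_cast this
    set g := (i : ℝ) / m - 1 / 3 with hg
    have h5 : |g| ≤ 2 / 3 := abs_le.2 ⟨by linarith, by linarith⟩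
    have h6 : |-θ * g| ≤ 1 := by
      rw [abs_mul, abs_neg, abs_of_nonneg h0]
      nlinarith [abs_nonneg g]
    have h7 := (abs_le.1 (Real.abs_exp_sub_one_sub_id_le h6)).2
    have h8 : g ^ 2 ≤ 4 / 9 := by
      rw [← sq_abs]
      nlinarith [abs_nonneg g]
    have h9 : Real.exp (-θ * g) ≤ 1 + 4 / 9 * θ ^ 2 - θ * g := by nlinarith [sq_nonneg θ]
    calc FF L m i * Real.exp (-θ * g) ≤ FF L m i * (1 + 4 / 9 * θ ^ 2 - θ * g) :=
          mul_le_mul_of_nonneg_left h9 (FF_nonneg hL.1 m i)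
      _ = _ := by ring
  refine (Finset.sum_le_sum fun i _ => h2 i).trans ?_
  rw [Finset.sum_sub_distrib, ← Finset.sum_mul, ← Finset.mul_sum, FF_total hL hm, FF_mean hL hm]
  have := Real.add_one_le_exp (4 / 9 * θ ^ 2)
  linarith

lemma exp_tail : Real.exp (-(5 / 2) + 4 / 9) ≤ 1 / 6 := by
  have h1 : (6 : ℝ) ≤ Real.exp 2 := by
    have h2 : Real.exp 2 = Real.exp 1 * Real.exp 1 := by rw [← Real.exp_add]; norm_num
    have h3 := Real.exp_one_gt_d9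
    rw [h2]
    nlinarith
  have h2 : Real.exp (-(5 / 2) + 4 / 9) ≤ Real.exp (-2) := Real.exp_le_exp.2 (by norm_num)
  rw [Real.exp_neg] at h2
  refine h2.trans ?_
  rw [one_div]
  gcongr

/-- the tail of the product weight -/
lemma tail {L : ℝ} (hL : Opt L) {m : ℕ} (hm : 1 ≤ m) {d : ℕ} (hd : 1 ≤ d)
    (B : Finset (Fin d → Fin (m + 1)))
    (hB : ∀ i ∈ B, ∑ k, (((i k : ℕ) : ℝ) / m - 1 / 3) ≤ -(5 / 2 * √d)) :
    ∑ i ∈ B, ∏ k, FF L m (i k) ≤ 1 / 6 := by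
  have hd0 : (0 : ℝ) < d := by exact_mod_cast hd
  have hs : 0 < √(d : ℝ) := Real.sqrt_pos.2 hd0
  have hss : √(d : ℝ) * √(d : ℝ) = d := Real.mul_self_sqrt hd0.le
  set θ : ℝ := 1 / √d with hθ
  have hθ0 : 0 ≤ θ := by positivity
  have hθd : (d : ℝ) * θ ^ 2 = 1 := by
    rw [hθ, div_pow, one_pow, Real.sq_sqrt hd0.le]
    field_simp
  have hθ1 : θ ≤ 1 := by
    rw [hθ, div_le_one hs]
    have : (1 : ℝ) ≤ d := by exact_mod_cast hd
    rw [← Real.sqrt_one]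
    exact Real.sqrt_le_sqrt this
  have hFp : ∀ i : Fin d → Fin (m + 1), 0 ≤ ∏ k, FF L m (i k) := fun i =>
    Finset.prod_nonneg fun k _ => FF_nonneg hL.1 m _
  have h1 : ∑ i ∈ B, ∏ k, FF L m (i k) ≤ ∑ i : Fin d → Fin (m + 1),
      (∏ k, FF L m (i k)) * ∏ k, (Real.exp (-θ * (((i k : ℕ) : ℝ) / m - 1 / 3)) *
        Real.exp (-(5 / 2) * θ ^ 2)) := by
    calc ∑ i ∈ B, ∏ k, FF L m (i k) ≤ ∑ i ∈ B,
      (∏ k, FF L m (i k)) * ∏ k, (Real.exp (-θ * (((i k : ℕ) : ℝ) / m - 1 / 3)) *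
        Real.exp (-(5 / 2) * θ ^ 2)) := by
          apply Finset.sum_le_sum
          intro i hi
          apply le_mul_of_one_le_right (hFp i)
          rw [Finset.prod_mul_distrib, ← Real.exp_sum, ← Finset.mul_sum, Finset.prod_const,
            Finset.card_univ, Fintype.card_fin, ← Real.exp_nat_mul, ← Real.exp_add]
          apply Real.one_le_exp
          have h2 := hB i hi
          have h3 : (d : ℝ) * (-(5 / 2) * θ ^ 2) = -(5 / 2) := by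
            linear_combination (-(5 / 2)) * hθd
          have h4 : θ * (5 / 2 * √d) = 5 / 2 := by
            rw [hθ]
            field_simp
          rw [h3]
          nlinarith
      _ ≤ _ := Finset.sum_le_sum_of_subset_of_nonneg (Finset.subset_univ _) fun i _ _ =>
          mul_nonneg (hFp i) (Finset.prod_nonneg fun k _ => by positivity)
  refine h1.trans ?_
  rw [prod_total (fun i : Fin (m + 1) => FF L m i) (fun i : Fin (m + 1) =>
    Real.exp (-θ * (((i : ℕ) : ℝ) / m - 1 / 3)) * Real.exp (-(5 / 2) * θ ^ 2))]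
  have h2 : ∑ i : Fin (m + 1), FF L m i * (Real.exp (-θ * (((i : ℕ) : ℝ) / m - 1 / 3)) *
      Real.exp (-(5 / 2) * θ ^ 2)) ≤
      Real.exp (4 / 9 * θ ^ 2) * Real.exp (-(5 / 2) * θ ^ 2) := by
    simp only [← mul_assoc]
    rw [← Finset.sum_mul]
    exact mul_le_mul_of_nonneg_right (FF_mgf hL hm hθ0 hθ1) (Real.exp_pos _).le
  have h3 : 0 ≤ ∑ i : Fin (m + 1), FF L m i * (Real.exp (-θ * (((i : ℕ) : ℝ) / m - 1 / 3)) *
      Real.exp (-(5 / 2) * θ ^ 2)) :=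
    Finset.sum_nonneg fun i _ => mul_nonneg (FF_nonneg hL.1 m i) (by positivity)
  calc (∑ i : Fin (m + 1), FF L m i * (Real.exp (-θ * (((i : ℕ) : ℝ) / m - 1 / 3)) *
      Real.exp (-(5 / 2) * θ ^ 2))) ^ d
      ≤ (Real.exp (4 / 9 * θ ^ 2) * Real.exp (-(5 / 2) * θ ^ 2)) ^ d := by gcongr
    _ = Real.exp (-(5 / 2) + 4 / 9) := by
        rw [← Real.exp_add, ← Real.exp_nat_mul]
        congr 1
        linear_combination (-(5 / 2) + 4 / 9) * hθd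
    _ ≤ 1 / 6 := exp_tail

end Pool.Agent.Work.MP_0cd883_co
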