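import Pool.Agent.Work.MP_0cd883_co.Lower

/-!
# The slab, and the asymptotic statement
-/

namespace Pool.Agent.Work.MP_0cd883_co

open Finset Filter

/-- geometric sum bound -/
lemma geom_bound {L : ℝ} (hL : 0 < L) (N : ℕ) :
    ∑ j ∈ Finset.Icc 1 N, Real.exp (-(L * (j / (N + 1)))) ≤
      (N + 1) * ((1 - Real.exp (-L)) / L) := by
  have hN : (0 : ℝ) < N + 1 := by positivity
  set q : ℝ := Real.exp (-(L / (N + 1))) with hq
  have hq0 : 0 < q := Real.exp_pos _
  have hq1 : q < 1 := Real.exp_lt_one_iff.2 (by have := div_pos hL hN; linarith)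
  have h1 : ∀ j : ℕ, Real.exp (-(L * (j / (N + 1)))) = q ^ j := by
    intro j
    rw [hq, ← Real.exp_nat_mul]
    congr 1
    ring
  simp only [h1]
  have h2 : ∀ n : ℕ, (1 - q) * ∑ j ∈ Finset.Icc 1 n, q ^ j = q - q ^ (n + 1) := by
    intro n
    induction n with
    | zero => simp
    | succ n ih =>
      rw [Finset.sum_Icc_succ_top (by omega), mul_add, ih]
      ring
  have h3 : q ^ (N + 1) = Real.exp (-L) := by
    rw [hq, ← Real.exp_nat_mul]
    congr 1
    push_cast
    field_simp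
  have h4 := h2 N
  rw [h3] at h4
  have h5 : q * (1 + L / (N + 1)) ≤ 1 := by
    have h6 : Real.exp (L / (N + 1)) * q = 1 := by
      rw [hq, ← Real.exp_add]; simp
    have h7 := Real.add_one_le_exp (L / (N + 1))
    nlinarith
  have h8 : q * (L / (N + 1)) ≤ 1 - q := by linarith
  have h9 : 0 < q * (L / (N + 1)) := by positivity
  have h10 : 0 ≤ ∑ j ∈ Finset.Icc 1 N, q ^ j := Finset.sum_nonneg fun j _ => by positivity
  have h11 : q * (L / (N + 1)) * ∑ j ∈ Finset.Icc 1 N, q ^ j ≤ q - Real.exp (-L) := by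
    rw [← h4]
    exact mul_le_mul_of_nonneg_right h8 h10
  have h12 : q - Real.exp (-L) ≤ q * (1 - Real.exp (-L)) := by
    have := Real.exp_pos (-L)
    nlinarith
  have h13 : q * ((L / (N + 1)) * ∑ j ∈ Finset.Icc 1 N, q ^ j) ≤ q * (1 - Real.exp (-L)) := by
    linarith
  have h14 := le_of_mul_le_mul_left h13 hq0
  rw [div_mul_eq_mul_div, div_le_iff₀ hN] at h14
  rw [← mul_div_assoc, le_div_iff₀ hL]
  linarith

lemma geom_bound' {L : ℝ} (hL : 0 < L) (N : ℕ) :
    ∑ j ∈ Finset.Icc 1 N, Real.exp (L * (1 / 3 - j / (N + 1))) ≤ (N + 1) * rho L := by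
  have h1 : ∀ j : ℕ, Real.exp (L * (1 / 3 - j / (N + 1))) =
      Real.exp (L / 3) * Real.exp (-(L * (j / (N + 1)))) := by
    intro j
    rw [← Real.exp_add]
    congr 1
    ring
  simp only [h1]
  rw [← Finset.mul_sum]
  calc Real.exp (L / 3) * ∑ j ∈ Finset.Icc 1 N, Real.exp (-(L * (j / (N + 1))))
      ≤ Real.exp (L / 3) * ((N + 1) * ((1 - Real.exp (-L)) / L)) := by
        gcongr
        exact geom_bound hL N
    _ = (N + 1) * rho L := by rw [rho]; ring

lemma geom_bound'' {L : ℝ} (hL : 0 < L) (N : ℕ) :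
    ∑ j ∈ Finset.Icc 1 N, Real.exp (L * (j / (N + 1) - 2 / 3)) ≤ (N + 1) * rho L := by
  have hN : (0 : ℝ) < N + 1 := by positivity
  refine le_trans (le_of_eq ?_) (geom_bound' hL N)
  apply Finset.sum_nbij' (fun j => N + 1 - j) (fun j => N + 1 - j)
  · intro j hj
    rw [Finset.mem_Icc] at hj ⊢
    omega
  · intro j hj
    rw [Finset.mem_Icc] at hj ⊢
    omega
  · intro j hj
    rw [Finset.mem_Icc] at hj
    omega
  · intro j hj
    rw [Finset.mem_Icc] at hj
    omega
  · intro j hj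
    rw [Finset.mem_Icc] at hj
    congr 1
    rw [Nat.cast_sub (by omega)]
    push_cast
    field_simp
    ring

/-- The slab. -/
def slab (d N : ℕ) : Finset (Fin d → ℕ) :=
  (grid d N).filter fun x => d * (N + 1) ≤ 3 * ∑ k, x k ∧ 3 * ∑ k, x k < 2 * (d * (N + 1))

lemma slab_sumFree (d N : ℕ) : SumFree (slab d N) := by
  intro x hx y hy z hz h
  have h1 := (Finset.mem_filter.1 hx).2.1
  have h2 := (Finset.mem_filter.1 hy).2.1
  have h3 := (Finset.mem_filter.1 hz).2.2
  rw [← h] at h3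
  simp only [Pi.add_apply, Finset.sum_add_distrib] at h3
  omega

lemma sum_grid (d N : ℕ) (f : ℕ → ℝ) :
    ∑ x ∈ grid d N, ∏ k, f (x k) = (∑ j ∈ Finset.Icc 1 N, f j) ^ d := by
  rw [grid, ← Finset.prod_univ_sum (fun _ : Fin d => Finset.Icc 1 N) (fun _ j => f j)]
  simp

lemma slab_compl {L : ℝ} (hL : 0 < L) (d N : ℕ) :
    ((grid d N \ slab d N).card : ℝ) ≤ 2 * ((N + 1) * rho L) ^ d := by
  classical
  have hN : (0 : ℝ) < N + 1 := by positivity
  have hr := rho_pos hL
  have h1 : grid d N \ slab d N ⊆ (grid d N).filter (fun x => 3 * ∑ k, x k < d * (N + 1)) ∪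
      (grid d N).filter (fun x => 2 * (d * (N + 1)) ≤ 3 * ∑ k, x k) := by
    intro x hx
    rw [Finset.mem_sdiff, slab, Finset.mem_filter, not_and] at hx
    rw [Finset.mem_union, Finset.mem_filter, Finset.mem_filter]
    have h2 := hx.2 hx.1
    by_cases h3 : 3 * ∑ k, x k < d * (N + 1)
    · exact Or.inl ⟨hx.1, h3⟩
    · right
      refine ⟨hx.1, ?_⟩
      by_contra h4
      exact h2 ⟨by omega, by omega⟩
  have h2 : (((grid d N).filter (fun x => 3 * ∑ k, x k < d * (N + 1))).card : ℝ) ≤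
      ((N + 1) * rho L) ^ d := by
    calc (((grid d N).filter (fun x => 3 * ∑ k, x k < d * (N + 1))).card : ℝ)
        = ∑ x ∈ (grid d N).filter (fun x => 3 * ∑ k, x k < d * (N + 1)), (1 : ℝ) := by simp
      _ ≤ ∑ x ∈ (grid d N).filter (fun x => 3 * ∑ k, x k < d * (N + 1)),
          ∏ k, Real.exp (L * (1 / 3 - x k / (N + 1))) := by
          apply Finset.sum_le_sum
          intro x hx
          have h3 := (Finset.mem_filter.1 hx).2
          rw [← Real.exp_sum]
          apply Real.one_le_exp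
          rw [← Finset.mul_sum]
          apply mul_nonneg hL.le
          have h5 : ∑ k, (x k : ℝ) / (N + 1) = (∑ k, (x k : ℝ)) / (N + 1) :=
            (Finset.sum_div _ _ _).symm
          rw [Finset.sum_sub_distrib, h5]
          simp only [Finset.sum_const, Finset.card_univ, Fintype.card_fin, nsmul_eq_mul]
          have h4 : (3 : ℝ) * ∑ k, (x k : ℝ) < d * (N + 1) := by exact_mod_cast h3
          rw [sub_nonneg, div_le_iff₀ hN]
          linarith
      _ ≤ ∑ x ∈ grid d N, ∏ k, Real.exp (L * (1 / 3 - x k / (N + 1))) :=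
          Finset.sum_le_sum_of_subset_of_nonneg (Finset.filter_subset _ _) fun x _ _ =>
            Finset.prod_nonneg fun k _ => (Real.exp_pos _).le
      _ = (∑ j ∈ Finset.Icc 1 N, Real.exp (L * (1 / 3 - j / (N + 1)))) ^ d :=
          sum_grid d N fun j => Real.exp (L * (1 / 3 - j / (N + 1)))
      _ ≤ ((N + 1) * rho L) ^ d := by
          have := geom_bound' hL N
          have h0 : 0 ≤ ∑ j ∈ Finset.Icc 1 N, Real.exp (L * (1 / 3 - j / (N + 1))) :=
            Finset.sum_nonneg fun _ _ => (Real.exp_pos _).le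
          gcongr
  have h3 : (((grid d N).filter (fun x => 2 * (d * (N + 1)) ≤ 3 * ∑ k, x k)).card : ℝ) ≤
      ((N + 1) * rho L) ^ d := by
    calc (((grid d N).filter (fun x => 2 * (d * (N + 1)) ≤ 3 * ∑ k, x k)).card : ℝ)
        = ∑ x ∈ (grid d N).filter (fun x => 2 * (d * (N + 1)) ≤ 3 * ∑ k, x k), (1 : ℝ) := by simp
      _ ≤ ∑ x ∈ (grid d N).filter (fun x => 2 * (d * (N + 1)) ≤ 3 * ∑ k, x k),
          ∏ k, Real.exp (L * (x k / (N + 1) - 2 / 3)) := by
          apply Finset.sum_le_sum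
          intro x hx
          have h3 := (Finset.mem_filter.1 hx).2
          rw [← Real.exp_sum]
          apply Real.one_le_exp
          rw [← Finset.mul_sum]
          apply mul_nonneg hL.le
          have h5 : ∑ k, (x k : ℝ) / (N + 1) = (∑ k, (x k : ℝ)) / (N + 1) :=
            (Finset.sum_div _ _ _).symm
          rw [Finset.sum_sub_distrib, h5]
          simp only [Finset.sum_const, Finset.card_univ, Fintype.card_fin, nsmul_eq_mul]
          have h4 : (2 : ℝ) * (d * (N + 1)) ≤ 3 * ∑ k, (x k : ℝ) := by exact_mod_cast h3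
          rw [sub_nonneg, le_div_iff₀ hN]
          linarith
      _ ≤ ∑ x ∈ grid d N, ∏ k, Real.exp (L * (x k / (N + 1) - 2 / 3)) :=
          Finset.sum_le_sum_of_subset_of_nonneg (Finset.filter_subset _ _) fun x _ _ =>
            Finset.prod_nonneg fun k _ => (Real.exp_pos _).le
      _ = (∑ j ∈ Finset.Icc 1 N, Real.exp (L * (j / (N + 1) - 2 / 3))) ^ d :=
          sum_grid d N fun j => Real.exp (L * (j / (N + 1) - 2 / 3))
      _ ≤ ((N + 1) * rho L) ^ d := by
          have := geom_bound'' hL N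
          have h0 : 0 ≤ ∑ j ∈ Finset.Icc 1 N, Real.exp (L * (j / (N + 1) - 2 / 3)) :=
            Finset.sum_nonneg fun _ _ => (Real.exp_pos _).le
          gcongr
  have h4 : ((grid d N \ slab d N).card : ℝ) ≤
      ((grid d N).filter (fun x => 3 * ∑ k, x k < d * (N + 1))).card +
      ((grid d N).filter (fun x => 2 * (d * (N + 1)) ≤ 3 * ∑ k, x k)).card := by
    exact_mod_cast (Finset.card_le_card h1).trans (Finset.card_union_le _ _)
  linarith

lemma card_grid (d N : ℕ) : (grid d N).card = N ^ d := by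
  rw [grid, Fintype.card_piFinset]
  simp

lemma le_maxSumFree {d N : ℕ} {A : Finset (Fin d → ℕ)} (hA : A ⊆ grid d N) (hs : SumFree A) :
    A.card ≤ maxSumFree d N := by
  classical
  unfold maxSumFree
  exact Finset.le_sup (f := Finset.card)
    (Finset.mem_filter.2 ⟨Finset.mem_powerset.2 hA, hs⟩)

lemma exists_maxSumFree (d N : ℕ) :
    ∃ A : Finset (Fin d → ℕ), A ⊆ grid d N ∧ SumFree A ∧ A.card = maxSumFree d N := by
  classical
  have hne : ((grid d N).powerset.filter fun A => SumFree A).Nonempty :=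
    ⟨∅, Finset.mem_filter.2 ⟨Finset.mem_powerset.2 (Finset.empty_subset _),
      fun x hx => absurd hx (Finset.notMem_empty x)⟩⟩
  obtain ⟨A, hA, hc⟩ := Finset.exists_mem_eq_sup _ hne Finset.card
  rw [Finset.mem_filter, Finset.mem_powerset] at hA
  refine ⟨A, hA.1, hA.2, ?_⟩
  rw [maxSumFree, ← hc]

/-- Upper bound on the missing density. -/
theorem missing_le {L : ℝ} (hL : 0 < L) {d N : ℕ} (hN : 1 ≤ N) :
    1 - (maxSumFree d N : ℝ) / (N : ℝ) ^ d ≤ 2 * (((N : ℝ) + 1) / N) ^ d * rho L ^ d := by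
  have hN0 : (0 : ℝ) < N := by exact_mod_cast hN
  have h1 := slab_compl hL d N
  have h2 : (slab d N).card ≤ maxSumFree d N :=
    le_maxSumFree (Finset.filter_subset _ _) (slab_sumFree d N)
  have h3 : (slab d N).card + (grid d N \ slab d N).card = N ^ d := by
    rw [← card_grid d N, add_comm]
    exact Finset.card_sdiff_add_card_eq_card (Finset.filter_subset _ _)
  have h4 : ((slab d N).card : ℝ) + ((grid d N \ slab d N).card : ℝ) = (N : ℝ) ^ d := by
    exact_mod_cast h3
  have h5 : ((slab d N).card : ℝ) ≤ maxSumFree d N := by exact_mod_cast h2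
  have h6 : (0 : ℝ) < (N : ℝ) ^ d := by positivity
  rw [sub_le_iff_le_add, ← sub_le_iff_le_add', le_div_iff₀ h6, sub_mul, one_mul]
  have h7 : 2 * (((N : ℝ) + 1) / N) ^ d * rho L ^ d * (N : ℝ) ^ d = 2 * ((N + 1) * rho L) ^ d := by
    rw [div_pow, mul_pow]
    field_simp
  rw [h7]
  linarith

/-- Lower bound on the missing density. -/
theorem le_missing {L : ℝ} (hL : Opt L) {m : ℕ} (hm : 1 ≤ m) {d : ℕ} (hd : 1 ≤ d) :
    1 / 6 * ((m : ℝ) / (m + 2 : ℕ)) ^ d * Real.exp (-(L * d / m)) *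
      Real.exp (-(5 / 2 * L * √d)) * rho L ^ d ≤
      1 - (maxSumFree d (m + 2) : ℝ) / ((m + 2 : ℕ) : ℝ) ^ d := by
  obtain ⟨A, hA, hs, hc⟩ := exists_maxSumFree d (m + 2)
  have h1 := lower hL hm hd hs
  have h3 : A.card + (grid d (m + 2) \ A).card = (m + 2) ^ d := by
    rw [← card_grid d (m + 2), add_comm]
    exact Finset.card_sdiff_add_card_eq_card hA
  have h4 : (maxSumFree d (m + 2) : ℝ) + ((grid d (m + 2) \ A).card : ℝ) =
      ((m + 2 : ℕ) : ℝ) ^ d := by
    rw [← hc]
    exact_mod_cast h3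
  have h6 : (0 : ℝ) < ((m + 2 : ℕ) : ℝ) ^ d := by positivity
  rw [le_sub_iff_add_le, ← le_sub_iff_add_le', div_le_iff₀ h6, sub_mul, one_mul]
  have h7 : 1 / 6 * ((m : ℝ) / (m + 2 : ℕ)) ^ d * Real.exp (-(L * d / m)) *
      Real.exp (-(5 / 2 * L * √d)) * rho L ^ d * ((m + 2 : ℕ) : ℝ) ^ d =
      1 / 6 * (m * rho L) ^ d * Real.exp (-(L * d / m)) * Real.exp (-(5 / 2 * L * √d)) := by
    rw [div_pow, mul_pow]
    field_simp
  rw [h7]
  linarith

end Pool.Agent.Work.MP_0cd883_co
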